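import Pool.Agent.TGC.Defs

/-!
# TGC: colour commutative algebras, graded modules and their duals
-/

set_option autoImplicit false

noncomputable section

universe u v

namespace Pool.Agent.TGC

open Polynomial CategoryTheory
open Pool.Agent.TG (Du BF ev bcomp linv linv_apply linv_apply' ev_bcomp ev_add ev_smul
  ev_sum ev_sum_left ev_sum_right ev_add_left ev_add_right ev_smul_left ev_smul_right
  ev_zero_left ev_zero_right)

/-- A connected graded colour commutative algebra.  `dg` is the (integer) degree, `ε` the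
commutation factor. -/
structure CA (k : Type u) (Γ : Type v) (A : Type u) [Field k] [AddCommGroup Γ] [Ring A]
    [Algebra k A] extends Gr k Γ A where
  /-- the commutation factor -/
  ε : Γ → Γ → k
  /-- the integer degree -/
  dg : Γ →+ ℤ
  ε_add : ∀ α β γ, ε (α + β) γ = ε α γ * ε β γ
  ε_symm : ∀ α β, ε α β * ε β α = 1
  mul_in : ∀ α β a b, p α a = a → p β b = b → p (α + β) (a * b) = a * b
  comm : ∀ α β a b, p α a = a → p β b = b → a * b = ε α β • (b * a)
  one_in : p 0 1 = 1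
  conn : ∀ a, ∃ c : k, p 0 a = algebraMap k A c
  pos : ∀ α a, α ≠ 0 → dg α ≤ 0 → p α a = 0

section CA

variable {k A : Type u} {Γ : Type v} [Field k] [AddCommGroup Γ] [Ring A] [Algebra k A]

theorem CA.ε_ne (C : CA k Γ A) (α β : Γ) : C.ε α β ≠ 0 := left_ne_zero_of_mul_eq_one (C.ε_symm α β)

theorem CA.ε_add' (C : CA k Γ A) (α β γ : Γ) : C.ε γ (α + β) = C.ε γ α * C.ε γ β := by
  have h1 := C.ε_symm (α + β) γ
  rw [C.ε_add] at h1
  apply mul_left_cancel₀ (mul_ne_zero (C.ε_ne α γ) (C.ε_ne β γ))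
  rw [h1]
  linear_combination -(C.ε β γ * C.ε γ β) * C.ε_symm α γ - C.ε_symm β γ

@[simp] theorem CA.ε_zero (C : CA k Γ A) (γ : Γ) : C.ε 0 γ = 1 := by
  have h1 := C.ε_add 0 0 γ
  rw [add_zero] at h1
  exact (mul_eq_left₀ (C.ε_ne 0 γ)).mp h1.symm

@[simp] theorem CA.ε_zero' (C : CA k Γ A) (γ : Γ) : C.ε γ 0 = 1 := by
  have h1 := C.ε_symm γ 0
  rwa [C.ε_zero, mul_one] at h1

theorem CA.ε_neg (C : CA k Γ A) (α γ : Γ) : C.ε (-α) γ = C.ε γ α := by
  have h1 := C.ε_add α (-α) γ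
  rw [add_neg_cancel, C.ε_zero] at h1
  apply mul_left_cancel₀ (C.ε_ne α γ)
  rw [← h1, C.ε_symm]

theorem CA.ε_neg' (C : CA k Γ A) (α γ : Γ) : C.ε γ (-α) = C.ε α γ := by
  have h1 := C.ε_symm (-α) γ
  rw [C.ε_neg] at h1
  apply mul_left_cancel₀ (C.ε_ne γ α)
  rw [h1, C.ε_symm]

theorem CA.sq (C : CA k Γ A) (α : Γ) : C.ε α α = 1 ∨ C.ε α α = -1 :=
  mul_self_eq_one_iff.mp (C.ε_symm α α)

open Classical in
/-- the sign of a degree: `ε(γ, γ) = 1` or `-1` -/
def CA.sg (C : CA k Γ A) (γ : Γ) : ℤ := if C.ε γ γ = 1 then 1 else -1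

theorem CA.sg_one (C : CA k Γ A) {γ : Γ} (h : C.ε γ γ = 1) : C.sg γ = 1 := if_pos h

theorem CA.sg_ne (C : CA k Γ A) {γ : Γ} (h : C.ε γ γ ≠ 1) : C.sg γ = -1 := if_neg h

theorem CA.sg_sq (C : CA k Γ A) (γ : Γ) : C.sg γ * C.sg γ = 1 := by
  unfold CA.sg
  split_ifs <;> norm_num

theorem CA.sg_zero (C : CA k Γ A) : C.sg 0 = 1 := C.sg_one (C.ε_zero 0)

theorem CA.sg_add (C : CA k Γ A) (α β : Γ) : C.sg (α + β) = C.sg α * C.sg β := by
  have h1 : C.ε (α + β) (α + β) = C.ε α α * C.ε β β := by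
    rw [C.ε_add, C.ε_add', C.ε_add']
    linear_combination (C.ε α α * C.ε β β) * C.ε_symm α β
  rcases C.sq α with ha | ha <;> rcases C.sq β with hb | hb
  · rw [C.sg_one ha, C.sg_one hb, C.sg_one (by rw [h1, ha, hb, one_mul]), one_mul]
  · by_cases h2 : C.ε β β = 1
    · rw [C.sg_one ha, C.sg_one h2, C.sg_one (by rw [h1, ha, h2, one_mul]), one_mul]
    · rw [C.sg_one ha, C.sg_ne h2, C.sg_ne (by rw [h1, ha, one_mul]; exact h2), one_mul]
  · by_cases h2 : C.ε α α = 1
    · rw [C.sg_one hb, C.sg_one h2, C.sg_one (by rw [h1, hb, h2, one_mul]), one_mul]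
    · rw [C.sg_one hb, C.sg_ne h2, C.sg_ne (by rw [h1, hb, mul_one]; exact h2), mul_one]
  · by_cases h2 : C.ε α α = 1
    · have h3 : C.ε β β = 1 := by rw [hb, ← ha, h2]
      rw [C.sg_one h3, C.sg_one h2, C.sg_one (by rw [h1, h3, h2, one_mul]), one_mul]
    · have h3 : C.ε β β ≠ 1 := by rw [hb, ← ha]; exact h2
      rw [C.sg_ne h3, C.sg_ne h2, C.sg_one (by rw [h1, ha, hb]; ring)]
      norm_num

theorem CA.sg_neg (C : CA k Γ A) (α : Γ) : C.sg (-α) = C.sg α := by
  have h1 : C.ε (-α) (-α) = C.ε α α := by rw [C.ε_neg, C.ε_neg]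
  unfold CA.sg
  rw [h1]

/-- The twist `a ↦ ε(α, δ) a` for `a ∈ A_α`; an automorphism of the algebra. -/
def CA.tw (C : CA k Γ A) (δ : Γ) : A →ₗ[k] A := ∑ α ∈ C.supp, C.ε α δ • C.p α

theorem CA.tw_hom (C : CA k Γ A) (δ : Γ) {α : Γ} {a : A} (ha : C.toGr.In α a) :
    C.tw δ a = C.ε α δ • a := by
  unfold CA.tw
  rw [LinearMap.sum_apply, Finset.sum_eq_single α]
  · rw [LinearMap.smul_apply, ha.eq]
  · intro β _ hβ
    rw [LinearMap.smul_apply, ha.ne hβ, smul_zero]
  · intro h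
    rw [ha.eq_zero h, map_zero]

theorem CA.tw_mul (C : CA k Γ A) (δ : Γ) (a b : A) : C.tw δ (a * b) = C.tw δ a * C.tw δ b := by
  refine C.toGr.ind (P := fun a => C.tw δ (a * b) = C.tw δ a * C.tw δ b) ?_ ?_ ?_ a
  · simp
  · intro x y hx hy
    rw [add_mul, map_add, hx, hy, map_add, add_mul]
  · intro α x hx
    refine C.toGr.ind (P := fun b => C.tw δ (x * b) = C.tw δ x * C.tw δ b) ?_ ?_ ?_ b
    · simp
    · intro y z hy hz
      rw [mul_add, map_add, hy, hz, map_add, mul_add]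
    · intro β y hy
      have hxy : C.toGr.In (α + β) (x * y) := C.mul_in α β x y hx hy
      rw [C.tw_hom δ hx, C.tw_hom δ hy, C.tw_hom δ hxy, C.ε_add, smul_mul_smul_comm]

theorem CA.tw_tw (C : CA k Γ A) (δ δ' : Γ) (a : A) : C.tw δ (C.tw δ' a) = C.tw (δ + δ') a := by
  refine C.toGr.ind (P := fun a => C.tw δ (C.tw δ' a) = C.tw (δ + δ') a) ?_ ?_ ?_ a
  · simp
  · intro x y hx hy
    rw [map_add, map_add, hx, hy, map_add]
  · intro α x hx
    rw [C.tw_hom δ' hx, map_smul, C.tw_hom δ hx, C.tw_hom _ hx, C.ε_add', smul_smul, mul_comm]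

theorem CA.tw_zero (C : CA k Γ A) (a : A) : C.tw 0 a = a := by
  refine C.toGr.ind (P := fun a => C.tw 0 a = a) ?_ ?_ ?_ a
  · simp
  · intro x y hx hy
    rw [map_add, hx, hy]
  · intro α x hx
    rw [C.tw_hom 0 hx, C.ε_zero', one_smul]

theorem CA.tw_one (C : CA k Γ A) (δ : Γ) : C.tw δ 1 = 1 := by
  rw [C.tw_hom δ (show C.toGr.In 0 1 from C.one_in), C.ε_zero, one_smul]

end CA

/-! ### graded modules -/

/-- A finite dimensional graded left module. -/
structure GM {k : Type u} {Γ : Type v} {A : Type u} [Field k] [AddCommGroup Γ] [Ring A]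
    [Algebra k A] (C : CA k Γ A) where
  /-- the underlying module -/
  X : Type u
  [i1 : AddCommGroup X]
  [i2 : Module k X]
  [i3 : Module A X]
  [i4 : IsScalarTower k A X]
  [i5 : Module.Finite k X]
  /-- the grading -/
  H : Gr k Γ X
  hc : ∀ α μ a x, C.p α a = a → H.p μ x = x → H.p (α + μ) (a • x) = a • x

attribute [instance] GM.i1 GM.i2 GM.i3 GM.i4 GM.i5

section GM

variable {k A : Type u} {Γ : Type v} [Field k] [AddCommGroup Γ] [Ring A] [Algebra k A]
  {C : CA k Γ A}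

theorem GM.smul_in (M : GM C) {α μ : Γ} {a : A} {x : M.X} (ha : C.toGr.In α a)
    (hx : M.H.In μ x) : M.H.In (α + μ) (a • x) := M.hc α μ a x ha hx

/-- The right multiplication `R_a m = ε(μ, α) a m` for `a ∈ A_α`, `m ∈ M_μ`. -/
def GM.R (M : GM C) : A →ₗ[k] M.X →ₗ[k] M.X :=
  LinearMap.mk₂ k (fun a x => ∑ α ∈ C.supp, ∑ μ ∈ M.H.supp, C.ε μ α • (C.p α a • M.H.p μ x))
    (by
      intro a b x
      rw [← Finset.sum_add_distrib]
      refine Finset.sum_congr rfl (fun α _ => ?_)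
      rw [← Finset.sum_add_distrib]
      refine Finset.sum_congr rfl (fun μ _ => ?_)
      rw [map_add, add_smul, smul_add])
    (by
      intro c a x
      rw [Finset.smul_sum]
      refine Finset.sum_congr rfl (fun α _ => ?_)
      rw [Finset.smul_sum]
      refine Finset.sum_congr rfl (fun μ _ => ?_)
      rw [map_smul, smul_assoc, smul_comm])
    (by
      intro a x y
      rw [← Finset.sum_add_distrib]
      refine Finset.sum_congr rfl (fun α _ => ?_)
      rw [← Finset.sum_add_distrib]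
      refine Finset.sum_congr rfl (fun μ _ => ?_)
      rw [map_add, smul_add, smul_add])
    (by
      intro c a x
      rw [Finset.smul_sum]
      refine Finset.sum_congr rfl (fun α _ => ?_)
      rw [Finset.smul_sum]
      refine Finset.sum_congr rfl (fun μ _ => ?_)
      rw [map_smul, smul_comm (C.p α a) c, smul_comm])

theorem GM.R_hom (M : GM C) {α μ : Γ} {a : A} {x : M.X} (ha : C.toGr.In α a)
    (hx : M.H.In μ x) : M.R a x = C.ε μ α • (a • x) := by
  unfold GM.R
  rw [LinearMap.mk₂_apply, Finset.sum_eq_single α]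
  · rw [Finset.sum_eq_single μ]
    · rw [ha.eq, hx.eq]
    · intro ν _ hν
      rw [hx.ne hν, smul_zero, smul_zero]
    · intro h
      rw [hx.eq_zero h, map_zero, smul_zero, smul_zero]
  · intro β _ hβ
    refine Finset.sum_eq_zero (fun ν _ => ?_)
    rw [ha.ne hβ, zero_smul, smul_zero]
  · intro h
    refine Finset.sum_eq_zero (fun ν _ => ?_)
    rw [ha.eq_zero h, map_zero, zero_smul, smul_zero]

theorem GM.R_in (M : GM C) {α μ : Γ} {a : A} {x : M.X} (ha : C.toGr.In α a)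
    (hx : M.H.In μ x) : M.H.In (α + μ) (M.R a x) := by
  rw [M.R_hom ha hx]
  exact (M.smul_in ha hx).smul _

theorem GM.R_one (M : GM C) (x : M.X) : M.R 1 x = x := by
  refine M.H.ind (P := fun x => M.R 1 x = x) (map_zero _) ?_ ?_ x
  · intro x y hx hy
    rw [map_add, hx, hy]
  · intro μ x hx
    rw [M.R_hom (show C.toGr.In 0 1 from C.one_in) hx, C.ε_zero', one_smul, one_smul]

theorem GM.R_mul (M : GM C) (a b : A) (x : M.X) : M.R (a * b) x = M.R b (M.R a x) := by
  refine C.toGr.ind (P := fun a => M.R (a * b) x = M.R b (M.R a x)) ?_ ?_ ?_ a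
  · simp
  · intro a a' h h'
    rw [add_mul, map_add, map_add, LinearMap.add_apply, LinearMap.add_apply, map_add, h, h']
  intro α a ha
  refine C.toGr.ind (P := fun b => M.R (a * b) x = M.R b (M.R a x)) ?_ ?_ ?_ b
  · simp
  · intro b b' h h'
    rw [mul_add, map_add, map_add, LinearMap.add_apply, LinearMap.add_apply, h, h']
  intro β b hb
  refine M.H.ind (P := fun x => M.R (a * b) x = M.R b (M.R a x)) ?_ ?_ ?_ x
  · simp
  · intro y z h h'
    rw [map_add, map_add, map_add, h, h']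
  intro μ y hy
  have hab : C.toGr.In (α + β) (a * b) := C.mul_in α β a b ha hb
  rw [M.R_hom hab hy, M.R_hom ha hy, map_smul, M.R_hom hb (M.smul_in ha hy), C.comm α β a b ha hb,
    C.ε_add', C.ε_add]
  simp only [smul_assoc, smul_smul]
  congr 1
  ring

/-- A graded homomorphism commutes with the right multiplications. -/
theorem R_map {M N : GM C} (f : M.X →ₗ[A] N.X) (hf : ∀ μ x, f (M.H.p μ x) = N.H.p μ (f x))
    (a : A) (x : M.X) : f (M.R a x) = N.R a (f x) := by
  have hk : ∀ (c : k) (x : M.X), f (c • x) = c • f x := fun c x => f.map_smul_of_tower c x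
  refine C.toGr.ind (P := fun a => f (M.R a x) = N.R a (f x)) ?_ ?_ ?_ a
  · simp
  · intro a a' h h'
    rw [map_add, map_add, LinearMap.add_apply, LinearMap.add_apply, map_add, h, h']
  intro α a ha
  refine M.H.ind (P := fun x => f (M.R a x) = N.R a (f x)) ?_ ?_ ?_ x
  · simp
  · intro y z h h'
    rw [map_add, map_add, map_add, map_add, h, h']
  intro μ y hy
  have hy' : N.H.In μ (f y) := by
    unfold Gr.In
    rw [← hf, hy.eq]
  rw [M.R_hom ha hy, N.R_hom ha hy', hk, map_smul]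

/-! ### the dual module -/

/-- The dual `D'M = Hom_k(M, k)` with `(a φ)(m) = φ(R_a m)`. -/
def Dp (M : GM C) : Type u := Du k M.X

instance (M : GM C) : AddCommGroup (Dp M) := inferInstanceAs (AddCommGroup (Du k M.X))

instance (M : GM C) : Module k (Dp M) := inferInstanceAs (Module k (Du k M.X))

instance (M : GM C) : Module.Finite k (Dp M) := inferInstanceAs (Module.Finite k (Du k M.X))

/-- The functional. -/
def Dp.fn {M : GM C} (φ : Dp M) : M.X →ₗ[k] k := Du.fn φ

/-- The element of the dual module given by a functional. -/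
def Dp.mk {M : GM C} (φ : M.X →ₗ[k] k) : Dp M := Du.mk φ

@[simp] theorem Dp.fn_mk {M : GM C} (φ : M.X →ₗ[k] k) : Dp.fn (Dp.mk (M := M) φ) = φ := rfl

@[ext] theorem Dp.ext {M : GM C} {φ ψ : Dp M} (h : ∀ x, Dp.fn φ x = Dp.fn ψ x) : φ = ψ :=
  Du.ext h

@[simp] theorem Dp.fn_add {M : GM C} (φ ψ : Dp M) (x : M.X) :
    Dp.fn (φ + ψ) x = Dp.fn φ x + Dp.fn ψ x := rfl

@[simp] theorem Dp.fn_sub {M : GM C} (φ ψ : Dp M) (x : M.X) :
    Dp.fn (φ - ψ) x = Dp.fn φ x - Dp.fn ψ x := rfl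

@[simp] theorem Dp.fn_zero {M : GM C} (x : M.X) : Dp.fn (0 : Dp M) x = 0 := rfl

@[simp] theorem Dp.fn_smul {M : GM C} (c : k) (φ : Dp M) (x : M.X) :
    Dp.fn (c • φ) x = c * Dp.fn φ x := rfl

instance (M : GM C) : Module A (Dp M) where
  smul a φ := Dp.mk ((Dp.fn φ).comp (M.R a))
  one_smul φ := Dp.ext (fun x => congrArg (Dp.fn φ) (M.R_one x))
  mul_smul a b φ := Dp.ext (fun x => congrArg (Dp.fn φ) (M.R_mul a b x))
  smul_zero a := Dp.ext (fun x => rfl)
  smul_add a φ ψ := Dp.ext (fun x => rfl)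
  add_smul a b φ := by
    refine Dp.ext (fun x => ?_)
    change Dp.fn φ (M.R (a + b) x) = Dp.fn φ (M.R a x) + Dp.fn φ (M.R b x)
    rw [map_add, LinearMap.add_apply, map_add]
  zero_smul φ := by
    refine Dp.ext (fun x => ?_)
    change Dp.fn φ (M.R 0 x) = 0
    rw [map_zero, LinearMap.zero_apply, map_zero]

theorem Dp.fn_asmul {M : GM C} (a : A) (φ : Dp M) (x : M.X) :
    Dp.fn (a • φ) x = Dp.fn φ (M.R a x) := rfl

instance (M : GM C) : IsScalarTower k A (Dp M) where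
  smul_assoc c a φ := by
    refine Dp.ext (fun x => ?_)
    rw [Dp.fn_asmul, Dp.fn_smul, Dp.fn_asmul, map_smul, LinearMap.smul_apply, map_smul,
      smul_eq_mul]

/-- `Ext^i_A(M, D'M) = 0` for `1 ≤ i ≤ q`. -/
def Van (M : GM C) (q : ℕ) : Prop := ∀ i : ℕ, 1 ≤ i → i ≤ q →
  Subsingleton (Abelian.Ext.{u} (ModuleCat.of A M.X) (ModuleCat.of A (Dp M)) i)

/-- All degrees of `M` are at least `m`. -/
def GM.low (M : GM C) (m : ℕ) : Prop := ∀ γ x, C.dg γ < m → M.H.p γ x = 0

/-- All degrees of `M` are at most `t`. -/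
def GM.up (M : GM C) (t : ℕ) : Prop := ∀ γ x, (t : ℤ) < C.dg γ → M.H.p γ x = 0

/-! ### balanced forms -/

/-- Balanced bilinear forms `M × N → k`: `B(a m, n) = B(m, R_a n)`; this space is
`Hom_A(M, D'N)`. -/
def Bil (M N : GM C) : Submodule k (BF k M.X N.X) where
  carrier := {B | ∀ (a : A) (m : M.X) (n : N.X), ev B (a • m) n = ev B m (N.R a n)}
  add_mem' := by
    intro B B' h h' a m n
    simp only [ev_add, h a m n, h' a m n]
  zero_mem' := by
    intro a m n
    simp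
  smul_mem' := by
    intro c B h a m n
    simp only [ev_smul, h a m n]

/-- To be balanced can be checked on homogeneous elements. -/
theorem bil_of {M N : GM C} {B : BF k M.X N.X}
    (h : ∀ α μ ν a m n, C.toGr.In α a → M.H.In μ m → N.H.In ν n →
      ev B (a • m) n = C.ε ν α * ev B m (a • n)) : B ∈ Bil M N := by
  intro a m n
  refine C.toGr.ind (P := fun a => ev B (a • m) n = ev B m (N.R a n)) ?_ ?_ ?_ a
  · simp
  · intro a a' h1 h2
    rw [add_smul, ev_add_left, h1, h2, map_add, LinearMap.add_apply, ev_add_right]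
  intro α a ha
  refine M.H.ind (P := fun m => ev B (a • m) n = ev B m (N.R a n)) ?_ ?_ ?_ m
  · simp
  · intro m m' h1 h2
    rw [smul_add, ev_add_left, h1, h2, ev_add_left]
  intro μ m hm
  refine N.H.ind (P := fun n => ev B (a • m) n = ev B m (N.R a n)) ?_ ?_ ?_ n
  · simp
  · intro n n' h1 h2
    rw [ev_add_right, h1, h2, map_add, ev_add_right]
  intro ν n hn
  rw [h α μ ν a m n ha hm hn, N.R_hom ha hn, ev_smul_right]

theorem bil_hom {M N : GM C} {B : BF k M.X N.X} (hB : B ∈ Bil M N) {α ν : Γ} {a : A}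
    (ha : C.toGr.In α a) (m : M.X) {n : N.X} (hn : N.H.In ν n) :
    ev B (a • m) n = C.ε ν α * ev B m (a • n) := by
  rw [hB a m n, N.R_hom ha hn, ev_smul_right]

/-- The colour flip: `(fl B)(m, n) = ε(ν, μ) B(n, m)` for `m ∈ M_μ`, `n ∈ N_ν`. -/
def fl (M N : GM C) : BF k N.X M.X →ₗ[k] BF k M.X N.X where
  toFun B := BF.mk (fun m n => ∑ μ ∈ M.H.supp, ∑ ν ∈ N.H.supp,
      C.ε ν μ * ev B (N.H.p ν n) (M.H.p μ m))
    (by
      intro m m' n
      simp only [map_add, ev_add_right, mul_add, Finset.sum_add_distrib])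
    (by
      intro c m n
      simp only [map_smul, ev_smul_right, Finset.mul_sum]
      exact Finset.sum_congr rfl (fun _ _ => Finset.sum_congr rfl (fun _ _ => by ring)))
    (by
      intro m n n'
      simp only [map_add, ev_add_left, mul_add, Finset.sum_add_distrib])
    (by
      intro c m n
      simp only [map_smul, ev_smul_left, Finset.mul_sum]
      exact Finset.sum_congr rfl (fun _ _ => Finset.sum_congr rfl (fun _ _ => by ring)))
  map_add' B B' := BF.ext (fun m n => by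
    simp only [BF.ev_mk, ev_add, mul_add, Finset.sum_add_distrib])
  map_smul' c B := BF.ext (fun m n => by
    simp only [BF.ev_mk, ev_smul, Finset.mul_sum, RingHom.id_apply]
    exact Finset.sum_congr rfl (fun _ _ => Finset.sum_congr rfl (fun _ _ => by ring)))

theorem fl_hom (M N : GM C) (B : BF k N.X M.X) {μ ν : Γ} {m : M.X} {n : N.X}
    (hm : M.H.In μ m) (hn : N.H.In ν n) : ev (fl M N B) m n = C.ε ν μ * ev B n m := by
  change ∑ μ ∈ M.H.supp, ∑ ν ∈ N.H.supp, C.ε ν μ * ev B (N.H.p ν n) (M.H.p μ m) = _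
  rw [Finset.sum_eq_single μ]
  · rw [Finset.sum_eq_single ν]
    · rw [hm.eq, hn.eq]
    · intro ρ _ hρ
      rw [hn.ne hρ, ev_zero_left, mul_zero]
    · intro h
      rw [hn.eq_zero h, map_zero, ev_zero_left, mul_zero]
  · intro ρ _ hρ
    refine Finset.sum_eq_zero (fun _ _ => ?_)
    rw [hm.ne hρ, ev_zero_right, mul_zero]
  · intro h
    refine Finset.sum_eq_zero (fun _ _ => ?_)
    rw [hm.eq_zero h, map_zero, ev_zero_right, mul_zero]

theorem fl_fl (M N : GM C) (B : BF k M.X N.X) : fl M N (fl N M B) = B := by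
  refine bf_ext M.H N.H (fun μ ν m n hm hn => ?_)
  rw [fl_hom M N _ hm hn, fl_hom N M _ hn hm, ← mul_assoc, C.ε_symm, one_mul]

theorem fl_mem {M N : GM C} {B : BF k N.X M.X} (hB : B ∈ Bil N M) : fl M N B ∈ Bil M N := by
  refine bil_of (fun α μ ν a m n ha hm hn => ?_)
  rw [fl_hom M N B (M.smul_in ha hm) hn, fl_hom M N B hm (N.smul_in ha hn), bil_hom hB ha n hm,
    C.ε_add', C.ε_add]
  linear_combination -(C.ε ν α * C.ε ν μ * ev B n (a • m)) * C.ε_symm α μ

theorem fl_bcomp {M N M' N' : GM C} (f : M'.X →ₗ[k] M.X) (g : N'.X →ₗ[k] N.X)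
    (hf : Hom0 M'.H M.H f) (hg : Hom0 N'.H N.H g) (B : BF k M.X N.X) :
    fl N' M' (bcomp f g B) = bcomp g f (fl N M B) := by
  refine bf_ext N'.H M'.H (fun ν μ n m hn hm => ?_)
  rw [fl_hom N' M' _ hn hm, ev_bcomp, ev_bcomp, fl_hom N M _ (hg.in hn) (hf.in hm)]

theorem fl_bilp (M N : GM C) (δ : Γ) (B : BF k N.X M.X) :
    fl M N (bilp N.H M.H δ B) = bilp M.H N.H δ (fl M N B) := by
  classical
  refine bf_ext M.H N.H (fun μ ν m n hm hn => ?_)
  rw [fl_hom M N _ hm hn, bilp_hom _ _ _ _ hn hm, bilp_hom _ _ _ _ hm hn, fl_hom M N _ hm hn,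
    add_comm ν μ]
  split_ifs
  · rfl
  · exact mul_zero _

theorem bil_mem {M N : GM C} (δ : Γ) {B : BF k M.X N.X} (hB : B ∈ Bil M N) :
    bilp M.H N.H δ B ∈ Bil M N := by
  classical
  refine bil_of (fun α μ ν a m n ha hm hn => ?_)
  rw [bilp_hom _ _ _ _ (M.smul_in ha hm) hn, bilp_hom _ _ _ _ hm (N.smul_in ha hn),
    bil_hom hB ha m hn, show μ + (α + ν) = α + μ + ν by abel]
  split_ifs
  · rfl
  · exact (mul_zero _).symm

/-- Balanced forms on `M` with `B(m, n) = e ε(ν, μ) B(n, m)` for `m ∈ M_μ`, `n ∈ M_ν`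
(`e = 1` or `-1`). -/
def Sy (M : GM C) (e : k) : Submodule k (BF k M.X M.X) where
  carrier := {B | B ∈ Bil M M ∧ fl M M B = e • B}
  add_mem' := by
    intro B B' h h'
    refine ⟨Submodule.add_mem _ h.1 h'.1, ?_⟩
    rw [map_add, h.2, h'.2, smul_add]
  zero_mem' := by
    refine ⟨Submodule.zero_mem _, ?_⟩
    rw [map_zero, smul_zero]
  smul_mem' := by
    intro c B h
    refine ⟨Submodule.smul_mem _ _ h.1, ?_⟩
    rw [map_smul, h.2, smul_comm]

theorem sy_mem {M : GM C} (e : k) (δ : Γ) {B : BF k M.X M.X} (hB : B ∈ Sy M e) :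
    bilp M.H M.H δ B ∈ Sy M e := by
  refine ⟨bil_mem δ hB.1, ?_⟩
  rw [fl_bilp, hB.2, map_smul]

/-- The grading of `Bil`. -/
def bilG (M N : GM C) : Gr k Γ (Bil M N) :=
  (M.H.bil N.H).pull (Bil M N).subtype Subtype.val_injective
    (fun δ B => by rw [Submodule.range_subtype]; exact bil_mem δ B.2)

/-- The grading of `Sy`. -/
def syG (M : GM C) (e : k) : Gr k Γ (Sy M e) :=
  (M.H.bil M.H).pull (Sy M e).subtype Subtype.val_injective
    (fun δ B => by rw [Submodule.range_subtype]; exact sy_mem e δ B.2)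

theorem bilG_p (M N : GM C) (δ : Γ) (B : Bil M N) :
    ((bilG M N).p δ B).1 = bilp M.H N.H δ B.1 :=
  (M.H.bil N.H).pull_p (Bil M N).subtype Subtype.val_injective
    (fun δ B => by rw [Submodule.range_subtype]; exact bil_mem δ B.2) δ B

theorem syG_p (M : GM C) (e : k) (δ : Γ) (B : Sy M e) :
    ((syG M e).p δ B).1 = bilp M.H M.H δ B.1 :=
  (M.H.bil M.H).pull_p (Sy M e).subtype Subtype.val_injective
    (fun δ B => by rw [Submodule.range_subtype]; exact sy_mem e δ B.2) δ B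

end GM

end Pool.Agent.TGC
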