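import Mathlib

/-!
# TGC-ARITH: polynomials `h` with `h ∣ (reflect s h) ^ 2`

PLAN.  Write `h'` for `reflect s h`.  `h'` is monic of degree `s` (coefficient `h.coeff 0 = 1`),
so the leading coefficients of `b` and `h` multiply to `1`; `h` is monic of degree `s`
(`h.coeff s ≠ 0` by `hs`, nonnegative).  Reflecting gives `b' h' = h ^ 2`
(`reflect_mul`, `b' = reflect s b`; the degree of `b` is `s`).
`UniqueFactorizationMonoid.exists_reduced_factors` (or gcd): `h = d u`, `h' = d v`, `u`, `v`
relatively prime.  From `b h = h' ^ 2`: `u ∣ d v ^ 2`, so `u ∣ d` (`IsRelPrime`); from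
`b' h' = h ^ 2`: `v ∣ d`.  So `d = u v w` and `h = u ^ 2 v w`, `h' = u v ^ 2 w`.
The degrees of `h` and `h'` are both `s`, so `deg u = deg v = e`, `s = 3 e + deg w`.
Up to signs all factors are monic (`h`, `h'` are monic), and `h.coeff 0 = 1`.
If `h` is squarefree then `u` is a unit, `e = 0`, so `v` is a unit too, `h = ± h'`, and
`h = h'` since both are monic.
If `s ≤ 8` then `e ≤ 2`.  The reflection of `d` in its degree is `± d` because reflecting
`h = d u`, `h' = d v` gives `h' = d* u*`, `h = d* v*` with `u*`, `v*` relatively prime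
(or directly: `u* = ± v`, as `h' = h*`: `u*^2 v* w* = u v^2 w`, `v*^2 u* w* = u^2 v w`, so
`u* v = v* u` up to sign by dividing, and `u`, `v` are relatively prime of equal degree, so
`u ∣ u*`...).  So `v = ± u*` where `u*` is the reflection of `u` in degree `e`.
A monic `u` of degree `1` or `2` with `u.coeff 0 = ± 1` which has no positive real root (all
coefficients of `h` are nonnegative, so `h` has none) is `X + 1` or `X ^ 2 + a X + 1`, so
`u* = u`; as `u`, `v` are relatively prime this is impossible for `e > 0`.  So `e = 0`.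
(For `e = 1`: `u.coeff 0 = -1` would give `u = X - 1`, `h.eval 1 = 0`, but `h.eval 1 > 0`;
for `e = 2`: `u.coeff 0 = -1` gives a positive real root by the intermediate value theorem.)
-/

set_option autoImplicit false

noncomputable section

universe u v

namespace Pool.Agent.TGC

open Polynomial

private theorem nd_rev {p : ℤ[X]} (h : p.coeff 0 ≠ 0) : p.reverse.natDegree = p.natDegree := by
  rw [reverse_natDegree, natTrailingDegree_eq_zero.mpr (Or.inr h), Nat.sub_zero]

private theorem rev_rev {p : ℤ[X]} (h : p.coeff 0 ≠ 0) : p.reverse.reverse = p := by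
  have h1 : p.reverse.reverse = reflect p.natDegree p.reverse := by
    unfold reverse
    have := nd_rev h
    unfold reverse at this
    rw [this]
  rw [h1]
  exact reflect_reflect

private theorem rev_dvd {p q : ℤ[X]} (h : p ∣ q) : p.reverse ∣ q.reverse := by
  obtain ⟨r, rfl⟩ := h
  rw [reverse_mul_of_domain]
  exact dvd_mul_right _ _

private theorem rev_pow (p : ℤ[X]) (n : ℕ) : (p ^ n).reverse = p.reverse ^ n := by
  induction n with
  | zero =>
    rw [pow_zero, pow_zero]
    have := reverse_C (1 : ℤ)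
    simpa using this
  | succ n ih => rw [pow_succ, reverse_mul_of_domain, ih, pow_succ]

private theorem coeff0_dvd {p q : ℤ[X]} (h : p ∣ q) : p.coeff 0 ∣ q.coeff 0 := by
  obtain ⟨r, rfl⟩ := h
  rw [mul_coeff_zero]
  exact dvd_mul_right _ _

private theorem lc_dvd {p q : ℤ[X]} (h : p ∣ q) : p.leadingCoeff ∣ q.leadingCoeff := by
  obtain ⟨r, rfl⟩ := h
  rw [leadingCoeff_mul]
  exact dvd_mul_right _ _

/-- a polynomial with nonnegative coefficients and constant term `1` has no positive root -/
private theorem no_root {h : ℤ[X]} (h0 : h.coeff 0 = 1) (hn : ∀ n, 0 ≤ h.coeff n) {x : ℝ}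
    (hx : 0 < x) : aeval x h ≠ 0 := by
  have h1 : (1 : ℝ) ≤ aeval x h := by
    rw [aeval_eq_sum_range, Finset.sum_range_succ']
    have h2 : (0 : ℝ) ≤ ∑ i ∈ Finset.range h.natDegree, h.coeff (i + 1) • x ^ (i + 1) := by
      refine Finset.sum_nonneg (fun i _ => ?_)
      rw [zsmul_eq_mul]
      exact mul_nonneg (Int.cast_nonneg (hn _)) (pow_nonneg hx.le _)
    rw [h0]
    simp only [pow_zero, one_smul]
    linarith
  intro h2
  rw [h2] at h1
  linarith

private theorem quad_root (b : ℤ) : ∃ x : ℝ, 0 < x ∧ x ^ 2 + b * x - 1 = 0 := by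
  have h1 : (0 : ℝ) ≤ (b : ℝ) ^ 2 + 4 := by positivity
  have h2 : Real.sqrt ((b : ℝ) ^ 2 + 4) ^ 2 = (b : ℝ) ^ 2 + 4 := Real.sq_sqrt h1
  refine ⟨(-(b : ℝ) + Real.sqrt ((b : ℝ) ^ 2 + 4)) / 2, ?_, ?_⟩
  · have h3 : (b : ℝ) < Real.sqrt ((b : ℝ) ^ 2 + 4) := by
      refine Real.lt_sqrt_of_sq_lt ?_
      linarith
    linarith
  · linear_combination h2 / 4

private theorem unit_int {a : ℤ} (h : a ∣ 1) : a = 1 ∨ a = -1 :=
  Int.isUnit_iff.mp (isUnit_of_dvd_one h)

theorem arith (h b : ℤ[X]) (s : ℕ) (h0 : h.coeff 0 = 1) (hn : ∀ n, 0 ≤ h.coeff n)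
    (hs : h.natDegree = s) (hb : b * h = (reflect s h) ^ 2) (hc : s ≤ 8 ∨ Squarefree h) :
    reflect s h = h := by
  have hr : reflect s h = h.reverse := by
    rw [← hs]
    rfl
  rw [hr] at hb ⊢
  have h00 : h.coeff 0 ≠ 0 := by
    rw [h0]
    exact one_ne_zero
  have hne : h ≠ 0 := by
    intro h1
    rw [h1, coeff_zero] at h00
    exact h00 rfl
  -- `h` and its reversal are monic
  have hrm : h.reverse.Monic := by
    unfold Monic
    rw [reverse_leadingCoeff, trailingCoeff, natTrailingDegree_eq_zero.mpr (Or.inr h00), h0]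
  have hm : h.Monic := by
    have h1 : h.leadingCoeff ∣ 1 := by
      have h2 : h ∣ h.reverse ^ 2 := ⟨b, by rw [← hb, mul_comm]⟩
      have h3 := lc_dvd h2
      rwa [leadingCoeff_pow, hrm.leadingCoeff, one_pow] at h3
    rcases unit_int h1 with h2 | h2
    · exact h2
    · exfalso
      have h3 : 0 ≤ h.leadingCoeff := hn _
      omega
  have hnd : h.reverse.natDegree = h.natDegree := nd_rev h00
  -- it is enough to show that `h` divides its reversal
  have hfin : h ∣ h.reverse → h.reverse = h := by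
    intro h1
    exact eq_of_monic_of_dvd_of_natDegree_le hm hrm h1 hnd.le
  have hd2 : h ∣ h.reverse ^ 2 := ⟨b, by rw [← hb, mul_comm]⟩
  rcases hc with hc | hc
  swap
  · exact hfin ((hc.dvd_pow_iff_dvd two_ne_zero).mp hd2)
  obtain ⟨u, v, d, huv, hdu, hdv⟩ :=
    UniqueFactorizationMonoid.exists_reduced_factors h hne h.reverse
  by_cases hu : IsUnit u
  · refine hfin ?_
    have h1 : h ∣ d := by
      rw [← hdu]
      exact (hu.mul_right_dvd).mpr dvd_rfl
    exact h1.trans ⟨v, hdv.symm⟩
  exfalso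
  have hu0 : u ≠ 0 := by
    rintro rfl
    rw [mul_zero] at hdu
    exact hne hdu.symm
  have hd0 : d ≠ 0 := by
    rintro rfl
    rw [zero_mul] at hdu
    exact hne hdu.symm
  obtain ⟨q, hq, hqu⟩ := WfDvdMonoid.exists_irreducible_factor hu hu0
  have hqp : Prime q := UniqueFactorizationMonoid.irreducible_iff_prime.mp hq
  have hqv : ¬ q ∣ v := by
    intro h1
    exact hq.not_isUnit (huv hqu h1)
  have hud : u ∣ d * v ^ 2 := by
    refine ⟨b, ?_⟩
    apply mul_left_cancel₀ hd0
    calc d * (d * v ^ 2) = (d * v) ^ 2 := by ring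
      _ = b * (d * u) := by rw [hdv, hdu, hb]
      _ = d * (u * b) := by ring
  have hqd : q ∣ d := by
    rcases hqp.dvd_or_dvd (hqu.trans hud) with h1 | h1
    · exact h1
    · exact absurd (hqp.dvd_of_dvd_pow h1) hqv
  have hqh : q ∣ h := hqd.trans ⟨u, hdu.symm⟩
  have hq0 : q.coeff 0 = 1 ∨ q.coeff 0 = -1 := by
    apply unit_int
    rw [← h0]
    exact coeff0_dvd hqh
  have hq00 : q.coeff 0 ≠ 0 := by
    rcases hq0 with h1 | h1 <;> rw [h1] <;> norm_num
  have hql : q.leadingCoeff = 1 ∨ q.leadingCoeff = -1 := by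
    apply unit_int
    rw [← hm.leadingCoeff]
    exact lc_dvd hqh
  -- `q` does not divide its reversal
  have hqr : ¬ q ∣ q.reverse := by
    rintro ⟨c, hc1⟩
    have hq1 : q.reverse ≠ 0 := by
      rw [Ne, reverse_eq_zero]
      exact hqp.ne_zero
    have hc0 : c ≠ 0 := by
      rintro rfl
      rw [mul_zero] at hc1
      exact hq1 hc1
    have hcd : c.natDegree = 0 := by
      have h1 := natDegree_mul hqp.ne_zero hc0
      rw [← hc1, nd_rev hq00] at h1
      omega
    have hcu : q.reverse ∣ q := by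
      have h1 : q = q.reverse * c.reverse := by
        conv_lhs => rw [← rev_rev hq00, hc1, reverse_mul_of_domain]
      exact ⟨_, h1⟩
    -- the exact power of `q` in `d`
    obtain ⟨n, hn1, hn2⟩ : ∃ n : ℕ, q ^ n ∣ d ∧ ¬ q ^ (n + 1) ∣ d := by
      have hfm : FiniteMultiplicity q d :=
        FiniteMultiplicity.of_prime_left hqp hd0
      exact ⟨multiplicity q d, pow_multiplicity_dvd q d,
        hfm.not_pow_dvd_of_multiplicity_lt (Nat.lt_succ_self _)⟩
    have h2 : q ^ (n + 1) ∣ h := by
      rw [← hdu, pow_succ]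
      exact mul_dvd_mul hn1 hqu
    have h3 : q.reverse ^ (n + 1) ∣ h.reverse := by
      rw [← rev_pow]
      exact rev_dvd h2
    have h4 : q ^ (n + 1) ∣ h.reverse :=
      (pow_dvd_pow_of_dvd ⟨c, hc1⟩ (n + 1)).trans h3
    rw [← hdv] at h4
    exact hn2 (hqp.pow_dvd_of_dvd_mul_right (n + 1) hqv h4)
  -- `q ^ 2 * q.reverse` divides `h`
  have hrh : q.reverse ∣ h := by
    have h1 : q ∣ h.reverse := hqd.trans ⟨v, hdv.symm⟩
    have h2 := rev_dvd h1
    rwa [rev_rev h00] at h2
  obtain ⟨k, hk⟩ := hrh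
  have hq2 : q ^ 2 ∣ h := by
    rw [← hdu, pow_two]
    exact mul_dvd_mul hqd hqu
  rw [hk] at hq2
  obtain ⟨l, hl⟩ := hqp.pow_dvd_of_dvd_mul_left 2 hqr hq2
  have hdeg : 3 * q.natDegree ≤ s := by
    have h1 : h = q.reverse * (q ^ 2 * l) := by rw [hk, hl]
    have hl0 : l ≠ 0 := by
      rintro rfl
      rw [mul_zero, mul_zero] at h1
      exact hne h1
    have hq1 : q.reverse ≠ 0 := by
      rw [Ne, reverse_eq_zero]
      exact hqp.ne_zero
    have h2 := congrArg natDegree h1
    rw [natDegree_mul hq1 (mul_ne_zero (pow_ne_zero 2 hqp.ne_zero) hl0),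
      natDegree_mul (pow_ne_zero 2 hqp.ne_zero) hl0, natDegree_pow, nd_rev hq00, hs] at h2
    omega
  have he : q.natDegree = 0 ∨ q.natDegree = 1 ∨ q.natDegree = 2 := by omega
  rcases he with he | he | he
  · have h1 : q = C (q.coeff 0) := eq_C_of_natDegree_eq_zero he
    apply hq.not_isUnit
    rw [h1]
    refine IsUnit.map C ?_
    rcases hq0 with h2 | h2 <;> rw [h2]
    · exact isUnit_one
    · exact isUnit_one.neg
  · have h1 : q.leadingCoeff = q.coeff 1 := by rw [leadingCoeff, he]
    apply hqr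
    have h2 : q.reverse = q * C (q.coeff 0 * q.coeff 1) := by
      ext i
      rw [coeff_mul_C, coeff_reverse, he]
      rcases i with _ | _ | i
      · rw [revAt_le (by omega)]
        rcases hq0 with h3 | h3 <;> rcases hql with h4 | h4 <;> rw [h1] at h4 <;>
          simp [h3, h4]
      · rw [revAt_le (by omega)]
        rcases hq0 with h3 | h3 <;> rcases hql with h4 | h4 <;> rw [h1] at h4 <;>
          simp [h3, h4]
      · rw [revAt_eq_self_of_lt (by omega), coeff_eq_zero_of_natDegree_lt (by omega), zero_mul]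
    exact ⟨_, h2⟩
  · have h1 : q.leadingCoeff = q.coeff 2 := by rw [leadingCoeff, he]
    by_cases hac : q.coeff 2 = q.coeff 0
    · apply hqr
      have h2 : q.reverse = q := by
        ext i
        rw [coeff_reverse, he]
        rcases i with _ | _ | _ | i
        · rw [revAt_le (by omega)]
          exact hac
        · rw [revAt_le (by omega)]
        · rw [revAt_le (by omega)]
          exact hac.symm
        · rw [revAt_eq_self_of_lt (by omega)]
      rw [h2]
    · have hac' : q.coeff 0 = - q.coeff 2 := by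
        rw [h1] at hql
        omega
      have ha2 : q.coeff 2 * q.coeff 2 = 1 := by
        rw [h1] at hql
        rcases hql with h2 | h2 <;> rw [h2] <;> norm_num
      obtain ⟨x, hx, hxr⟩ := quad_root (q.coeff 2 * q.coeff 1)
      apply no_root h0 hn hx
      obtain ⟨w, hw⟩ := hqh
      rw [hw, map_mul]
      have h2 : aeval x q = 0 := by
        rw [aeval_eq_sum_range, he]
        rw [Finset.sum_range_succ, Finset.sum_range_succ, Finset.sum_range_one]
        simp only [zsmul_eq_mul]
        rw [hac']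
        push_cast at hxr ⊢
        have ha2' : (q.coeff 2 : ℝ) * (q.coeff 2 : ℝ) = 1 := by exact_mod_cast ha2
        linear_combination (q.coeff 2 : ℝ) * hxr - (q.coeff 1 : ℝ) * x * ha2'
      rw [h2, zero_mul]

end Pool.Agent.TGC
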