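import Pool.Agent.TGC.DmB

/-!
# TGC-HP: sums of dimensions with weights

PLAN.  The statements `hw_...` follow from the statements `dm_...` with `hw_eq` for the union of
the supports.  `hw_pi`: use `hw_eq` with `T = (Gr.pi G d).supp` (this is the definition),
`dm_pi`, exchange the sums; for each `t` the sum over `γ` of `dm (G t) (γ - d t) * w γ` is the
sum over `γ' = γ - d t` in `(G t).supp` (`Finset.sum_image` or `Finset.sum_bij_ne_zero`;
the terms with `γ - d t ∉ (G t).supp` vanish by `dm_notMem`).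
The statements about `hp`, `hq`: unfold `hp`, `hq`, `hw`, `CA.w`, `CA.w'`; a term of the sum is
zero or its degree condition gives the claim (`dm_zero`).  `hq_deg_hp`: if the coefficient of
`X ^ (2 n)` in `hq` is nonzero then some `dm H γ ≠ 0` with `(dg γ).toNat = n`, so the
coefficient of `X ^ n` in `hp`, a sum of nonnegative numbers, is nonzero.
-/

set_option autoImplicit false

noncomputable section

universe u v

namespace Pool.Agent.TGC

open Polynomial

section

variable {k U V W Z : Type u} {Γ : Type v} [Field k] [AddCommGroup Γ] [AddCommGroup U]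
  [Module k U] [AddCommGroup V] [Module k V] [AddCommGroup W] [Module k W] [AddCommGroup Z]
  [Module k Z]

theorem hw_iso (w : Γ → ℤ[X]) (G : Gr k Γ V) (G' : Gr k Γ W) (e : V ≃ₗ[k] W)
    (h : Hom0 G G' e.toLinearMap) : hw w G = hw w G' := by
  classical
  rw [hw_eq w G (G.supp ∪ G'.supp)
    (fun γ hγ => dm_notMem G fun h => hγ (Finset.mem_union_left _ h)),
    hw_eq w G' (G.supp ∪ G'.supp)
    (fun γ hγ => dm_notMem G' fun h => hγ (Finset.mem_union_right _ h))]
  refine Finset.sum_congr rfl fun γ _ => ?_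
  rw [dm_iso G G' e h γ]

theorem hw_dual [Module.Finite k V] (w : Γ → ℤ[X]) (G : Gr k Γ V) : hw w G.dual = hw w G := by
  rw [hw_eq w G.dual G.supp (fun γ hγ => by rw [dm_dual, dm_notMem G hγ]), hw]
  refine Finset.sum_congr rfl fun γ _ => ?_
  rw [dm_dual]

theorem hw_short [Module.Finite k V] (w : Γ → ℤ[X]) (G : Gr k Γ U) (G' : Gr k Γ V)
    (G'' : Gr k Γ W) (f : U →ₗ[k] V) (g : V →ₗ[k] W) (hf : Function.Injective f)
    (hg : Function.Surjective g) (hfg : LinearMap.range f = LinearMap.ker g)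
    (h1 : Hom0 G G' f) (h2 : Hom0 G' G'' g) : hw w G' = hw w G + hw w G'' := by
  classical
  obtain ⟨T, hT⟩ : ∃ T, T = G.supp ∪ G'.supp ∪ G''.supp := ⟨_, rfl⟩
  have t1 : ∀ γ, γ ∉ T → dm G γ = 0 := fun γ hγ => dm_notMem G fun h => hγ (by
    rw [hT]; exact Finset.mem_union_left _ (Finset.mem_union_left _ h))
  have t2 : ∀ γ, γ ∉ T → dm G' γ = 0 := fun γ hγ => dm_notMem G' fun h => hγ (by
    rw [hT]; exact Finset.mem_union_left _ (Finset.mem_union_right _ h))
  have t3 : ∀ γ, γ ∉ T → dm G'' γ = 0 := fun γ hγ => dm_notMem G'' fun h => hγ (by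
    rw [hT]; exact Finset.mem_union_right _ h)
  rw [hw_eq w G T t1, hw_eq w G' T t2, hw_eq w G'' T t3, ← Finset.sum_add_distrib]
  refine Finset.sum_congr rfl fun γ _ => ?_
  rw [dm_short G G' G'' f g hf hg hfg h1 h2 γ, Nat.cast_add, add_mul]

theorem hw_four [Module.Finite k V] [Module.Finite k W] (w : Γ → ℤ[X]) (G1 : Gr k Γ U)
    (G2 : Gr k Γ V) (G3 : Gr k Γ W) (G4 : Gr k Γ Z) (f : U →ₗ[k] V) (g : V →ₗ[k] W)
    (h : W →ₗ[k] Z) (hf : Function.Injective f) (hfg : LinearMap.range f = LinearMap.ker g)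
    (hgh : LinearMap.range g = LinearMap.ker h) (hh : Function.Surjective h)
    (h1 : Hom0 G1 G2 f) (h2 : Hom0 G2 G3 g) (h3 : Hom0 G3 G4 h) :
    hw w G1 + hw w G3 = hw w G2 + hw w G4 := by
  classical
  obtain ⟨T, hT⟩ : ∃ T, T = G1.supp ∪ G2.supp ∪ (G3.supp ∪ G4.supp) := ⟨_, rfl⟩
  have t1 : ∀ γ, γ ∉ T → dm G1 γ = 0 := fun γ hγ => dm_notMem G1 fun h => hγ (by
    rw [hT]; exact Finset.mem_union_left _ (Finset.mem_union_left _ h))
  have t2 : ∀ γ, γ ∉ T → dm G2 γ = 0 := fun γ hγ => dm_notMem G2 fun h => hγ (by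
    rw [hT]; exact Finset.mem_union_left _ (Finset.mem_union_right _ h))
  have t3 : ∀ γ, γ ∉ T → dm G3 γ = 0 := fun γ hγ => dm_notMem G3 fun h => hγ (by
    rw [hT]; exact Finset.mem_union_right _ (Finset.mem_union_left _ h))
  have t4 : ∀ γ, γ ∉ T → dm G4 γ = 0 := fun γ hγ => dm_notMem G4 fun h => hγ (by
    rw [hT]; exact Finset.mem_union_right _ (Finset.mem_union_right _ h))
  rw [hw_eq w G1 T t1, hw_eq w G2 T t2, hw_eq w G3 T t3, hw_eq w G4 T t4,
    ← Finset.sum_add_distrib, ← Finset.sum_add_distrib]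
  refine Finset.sum_congr rfl fun γ _ => ?_
  rw [← add_mul, ← add_mul, ← Nat.cast_add, ← Nat.cast_add,
    dm_four G1 G2 G3 G4 f g h hf hfg hgh hh h1 h2 h3 γ]

theorem hw_pi {ι : Type} [Fintype ι] {V : ι → Type u} [∀ t, AddCommGroup (V t)]
    [∀ t, Module k (V t)] [∀ t, Module.Finite k (V t)] (w : Γ → ℤ[X]) (G : ∀ t, Gr k Γ (V t))
    (d : ι → Γ) : hw w (Gr.pi G d) = ∑ t, ∑ γ ∈ (G t).supp, (dm (G t) γ : ℤ[X]) * w (γ + d t) := by
  classical
  obtain ⟨T, hT⟩ : ∃ T : Finset Γ, T = (Finset.univ : Finset ι).biUnion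
      (fun t => (G t).supp.image (fun α => α + d t)) := ⟨_, rfl⟩
  have hsub : ∀ t, (G t).supp.image (fun α => α + d t) ⊆ T := by
    intro t
    rw [hT]
    exact Finset.subset_biUnion_of_mem (fun t => (G t).supp.image (fun α => α + d t))
      (Finset.mem_univ t)
  have hz : ∀ t γ, γ ∉ (G t).supp.image (fun α => α + d t) → dm (G t) (γ - d t) = 0 := by
    intro t γ hγ
    refine dm_notMem _ fun hc => hγ ?_
    exact Finset.mem_image.mpr ⟨γ - d t, hc, sub_add_cancel _ _⟩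
  rw [hw_eq w (Gr.pi G d) T (fun γ hγ => by
    rw [dm_pi]
    exact Finset.sum_eq_zero fun t _ => hz t γ fun h => hγ (hsub t h))]
  have h1 : ∀ γ, (dm (Gr.pi G d) γ : ℤ[X]) * w γ =
      ∑ t, (dm (G t) (γ - d t) : ℤ[X]) * w γ := by
    intro γ
    rw [dm_pi, Nat.cast_sum, Finset.sum_mul]
  rw [Finset.sum_congr rfl (fun γ _ => h1 γ), Finset.sum_comm]
  refine Finset.sum_congr rfl fun t _ => ?_
  rw [← Finset.sum_subset (hsub t) (fun γ _ hγ => by rw [hz t γ hγ, Nat.cast_zero, zero_mul]),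
    Finset.sum_image (fun x _ y _ h => add_right_cancel h)]
  refine Finset.sum_congr rfl fun γ _ => ?_
  rw [add_sub_cancel_right]

end

section

variable {k A V : Type u} {Γ : Type v} [Field k] [AddCommGroup Γ] [Ring A] [Algebra k A]
  [AddCommGroup V] [Module k V]

private theorem hp_coeff (C : CA k Γ A) (H : Gr k Γ V) (n : ℕ) :
    (hp C H).coeff n = ∑ γ ∈ H.supp, (dm H γ : ℤ) * (if n = (C.dg γ).toNat then 1 else 0) := by
  unfold hp hw CA.w
  rw [finsetSum_coeff]
  refine Finset.sum_congr rfl fun γ _ => ?_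
  rw [coeff_natCast_mul, coeff_X_pow]

theorem hp_eval [Module.Finite k V] (C : CA k Γ A) (H : Gr k Γ V) :
    (hp C H).eval 1 = (Module.finrank k V : ℤ) := by
  unfold hp hw CA.w
  rw [eval_finset_sum, ← dm_total H, Nat.cast_sum]
  refine Finset.sum_congr rfl fun γ _ => ?_
  rw [eval_mul, eval_natCast, eval_pow, eval_X, one_pow, mul_one]

theorem hp_nonneg (C : CA k Γ A) (H : Gr k Γ V) (n : ℕ) : 0 ≤ (hp C H).coeff n := by
  rw [hp_coeff]
  refine Finset.sum_nonneg fun γ _ => mul_nonneg (Int.natCast_nonneg _) ?_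
  split_ifs <;> norm_num

theorem hp_dvd (C : CA k Γ A) (H : Gr k Γ V) (m : ℕ) (h : ∀ γ v, C.dg γ < m → H.p γ v = 0) :
    X ^ m ∣ hp C H := by
  unfold hp hw CA.w
  refine Finset.dvd_sum fun γ _ => ?_
  by_cases hm : C.dg γ < m
  · rw [dm_zero H (fun v => h γ v hm), Nat.cast_zero, zero_mul]
    exact dvd_zero _
  · exact dvd_mul_of_dvd_right (pow_dvd_pow _ (by omega)) _

theorem hq_dvd (C : CA k Γ A) (H : Gr k Γ V) (m : ℕ) (h : ∀ γ v, C.dg γ < m → H.p γ v = 0) :
    X ^ (2 * m) ∣ hq C H := by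
  unfold hq hw CA.w'
  refine Finset.dvd_sum fun γ _ => ?_
  by_cases hm : C.dg γ < m
  · rw [dm_zero H (fun v => h γ v hm), Nat.cast_zero, zero_mul]
    exact dvd_zero _
  · exact dvd_mul_of_dvd_right (dvd_mul_of_dvd_right (pow_dvd_pow _ (by omega)) _) _

theorem hp_deg (C : CA k Γ A) (H : Gr k Γ V) (t : ℕ)
    (h : ∀ γ v, (t : ℤ) < C.dg γ → H.p γ v = 0) : (hp C H).natDegree ≤ t := by
  unfold hp hw CA.w
  refine natDegree_sum_le_of_forall_le _ _ fun γ _ => ?_
  by_cases hm : (t : ℤ) < C.dg γ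
  · rw [dm_zero H (fun v => h γ v hm), Nat.cast_zero, zero_mul, natDegree_zero]
    exact Nat.zero_le _
  · refine natDegree_mul_le.trans ?_
    rw [natDegree_natCast, zero_add, natDegree_X_pow]
    omega

theorem hq_deg_hp (C : CA k Γ A) (H : Gr k Γ V) :
    (hq C H).natDegree ≤ 2 * (hp C H).natDegree := by
  rw [natDegree_le_iff_coeff_eq_zero]
  intro N hN
  unfold hq hw CA.w'
  rw [finsetSum_coeff]
  refine Finset.sum_eq_zero fun γ hγ => ?_
  rw [coeff_natCast_mul, coeff_intCast_mul, coeff_X_pow]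
  by_cases hd : dm H γ = 0
  · rw [hd, Nat.cast_zero, zero_mul]
  · by_cases he : N = 2 * (C.dg γ).toNat
    · exfalso
      have h1 : (hp C H).coeff (C.dg γ).toNat = 0 := coeff_eq_zero_of_natDegree_lt (by omega)
      rw [hp_coeff] at h1
      have h2 := Finset.single_le_sum (f := fun δ => (dm H δ : ℤ) *
        (if (C.dg γ).toNat = (C.dg δ).toNat then 1 else 0)) (fun δ _ =>
          mul_nonneg (Int.natCast_nonneg _) (by split_ifs <;> norm_num)) hγ
      rw [h1] at h2
      simp only [if_true, mul_one] at h2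
      omega
    · rw [if_neg he, mul_zero, mul_zero]

end

end Pool.Agent.TGC
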