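import Pool.Agent.TGC.Free
import Pool.Agent.TGC.Hp

/-!
# TGC-BFR: forms on `N × A^r`

PLAN.  Adapt `Pool/Agent/TG/BFr.lean`.  Linear equivalence `Bil N F ≃ Π t : Fin r, Du k N.X`,
`F = frM C d`: `B ↦ (t ↦ (n ↦ B(n, e_t)))`, `e_t = sgl C d t 1`.  Inverse:
`(ψ_t) ↦ ((n, v) ↦ ∑ t, ψ_t (C.tw (d t) (v t) • n))`.  It is balanced: `frM_R`, `C.tw_mul`,
`C.tw_tw`, `C.tw_zero`.  Injective: `B(n, a e_t) = B(n, R_b e_t) = B(b n, e_t)` where
`b = C.tw (d t) a`, because `R_b e_t = sgl t (1 * C.tw (-d t) b) = sgl t a` (`sgl_R`); `sgl_sum`.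
It respects the gradings `bilG N F` and `Gr.pi (fun _ => N.H.dual) d`:
`(B_δ)(n, e_t) = B(N.H.p (δ - d t) n, e_t)` (`bilp_apply`, `sgl_one_in`; or `Gr.ind` for `n` and
`bilp_hom`).  Then `hw_iso`, `hw_pi`, `dm_dual`, `CA.w_add`
(for `dm N.H γ ≠ 0` we have `0 ≤ deg γ` by `hl`).
-/

set_option autoImplicit false

noncomputable section

universe u v

namespace Pool.Agent.TGC

open Polynomial
open Pool.Agent.TG (Du BF ev bcomp ev_bcomp ev_add ev_smul ev_sub ev_zero_left ev_zero_right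
  ev_add_left ev_add_right ev_smul_left ev_smul_right ev_sum_left ev_sum_right ev_sum)

variable {k A : Type u} {Γ : Type v} [Field k] [AddCommGroup Γ] [Ring A] [Algebra k A]
  {C : CA k Γ A}

/-- `B ↦ (t ↦ (n ↦ B(n, e_t)))` -/
private def bfrMap [Module.Finite k A] (N : GM C) {r : ℕ} (d : Fin r → Γ) :
    Bil N (frM C d) →ₗ[k] (Fin r → Du k N.X) where
  toFun B := fun t => Du.mk
    { toFun := fun n => ev B.1 n (sgl C d t 1)
      map_add' := fun n n' => ev_add_left _ _ _ _
      map_smul' := fun c n => ev_smul_left _ _ _ _ }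
  map_add' B B' := by
    funext t
    exact Du.ext (fun n => rfl)
  map_smul' c B := by
    funext t
    exact Du.ext (fun n => rfl)

private theorem bfrMap_ev [Module.Finite k A] (N : GM C) {r : ℕ} (d : Fin r → Γ)
    (B : Bil N (frM C d)) (t : Fin r) (n : N.X) :
    Du.fn (bfrMap N d B t) n = ev B.1 n (sgl C d t 1) := rfl

private theorem bfr_one [Module.Finite k A] (N : GM C) {r : ℕ} (d : Fin r → Γ)
    (B : Bil N (frM C d)) (t : Fin r) (n : N.X) (a : A) :
    ev B.1 n (sgl C d t a) = ev B.1 (C.tw (d t) a • n) (sgl C d t 1) := by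
  rw [B.2 (C.tw (d t) a) n (sgl C d t 1), sgl_R, one_mul, C.tw_tw, neg_add_cancel, C.tw_zero]

private theorem bfr_sum [Module.Finite k A] (N : GM C) {r : ℕ} (d : Fin r → Γ)
    (B : Bil N (frM C d)) (n : N.X) (v : (frM C d).X) :
    ev B.1 n v = ∑ t, ev B.1 (C.tw (d t) (v t) • n) (sgl C d t 1) := by
  conv_lhs => rw [← sgl_sum C d v]
  rw [ev_sum_right]
  exact Finset.sum_congr rfl fun t _ => bfr_one N d B t n (v t)

private theorem bfrMap_bij [Module.Finite k A] (N : GM C) {r : ℕ} (d : Fin r → Γ) :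
    Function.Bijective (bfrMap N d) := by
  constructor
  · rw [← LinearMap.ker_eq_bot, LinearMap.ker_eq_bot']
    intro B hB
    refine Subtype.ext (BF.ext fun n v => ?_)
    rw [bfr_sum N d B n v]
    refine Finset.sum_eq_zero fun t _ => ?_
    rw [← bfrMap_ev, hB]
    rfl
  · intro ψ
    refine ⟨⟨BF.mk (fun n v => ∑ t, Du.fn (ψ t) (C.tw (d t) (v t) • n)) ?_ ?_ ?_ ?_, ?_⟩, ?_⟩
    · intro n n' v
      rw [← Finset.sum_add_distrib]
      exact Finset.sum_congr rfl fun t _ => by rw [smul_add, map_add]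
    · intro c n v
      rw [Finset.mul_sum]
      exact Finset.sum_congr rfl fun t _ => by
        rw [smul_comm (C.tw (d t) (v t)) c n, map_smul, smul_eq_mul]
    · intro n v v'
      rw [← Finset.sum_add_distrib]
      exact Finset.sum_congr rfl fun t _ => by
        rw [Pi.add_apply, map_add, add_smul, map_add]
    · intro c n v
      rw [Finset.mul_sum]
      exact Finset.sum_congr rfl fun t _ => by
        rw [Pi.smul_apply, (C.tw (d t)).map_smul c (v t), smul_assoc, (Du.fn (ψ t)).map_smul,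
          smul_eq_mul]
    · intro a n v
      rw [BF.ev_mk, BF.ev_mk]
      refine Finset.sum_congr rfl fun t _ => ?_
      rw [frM_R, C.tw_mul, C.tw_tw, add_neg_cancel, C.tw_zero, mul_smul]
    · funext t
      refine Du.ext fun n => ?_
      rw [bfrMap_ev, BF.ev_mk, Finset.sum_eq_single t]
      · rw [sgl_same, C.tw_one, one_smul]
      · intro s _ hst
        rw [sgl_ne C d hst, map_zero, zero_smul, map_zero]
      · intro h
        exact absurd (Finset.mem_univ t) h

private theorem bfr_hom [Module.Finite k A] (N : GM C) {r : ℕ} (d : Fin r → Γ) :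
    Hom0 (bilG N (frM C d)) (Gr.pi (fun _ => N.H.dual) d)
      (LinearEquiv.ofBijective (bfrMap N d) (bfrMap_bij N d)).toLinearMap := by
  classical
  intro δ B
  change bfrMap N d ((bilG N (frM C d)).p δ B) =
    (Gr.pi (fun _ => N.H.dual) d).p δ (bfrMap N d B)
  funext t
  rw [Gr.pi_p]
  refine Du.ext fun n => ?_
  rw [bfrMap_ev, bilG_p, bilp_apply, Gr.dual_p, bfrMap_ev]
  have h1 : ∀ α ∈ N.H.supp, ev B.1 (N.H.p α n) ((frM C d).H.p (δ - α) (sgl C d t 1)) =
      if α = δ - d t then ev B.1 (N.H.p (δ - d t) n) (sgl C d t 1) else 0 := by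
    intro α _
    rw [(sgl_one_in C d t).ite (δ - α)]
    by_cases h2 : α = δ - d t
    · rw [if_pos h2, if_pos (by rw [h2]; abel), h2]
    · rw [if_neg h2, if_neg (fun h3 => h2 (by rw [← h3]; abel)), ev_zero_right]
  rw [Finset.sum_congr rfl h1, Finset.sum_ite_eq']
  split_ifs with h2
  · rfl
  · rw [N.H.p_notMem h2, ev_zero_left]

theorem hp_bil_fr [Module.Finite k A] (N : GM C) (hl : N.low 0) {r : ℕ} (d : Fin r → Γ)
    (hd : ∀ t, 0 ≤ C.dg (d t)) :
    hp C (bilG N (frM C d)) = hp C N.H * ∑ t, C.w (d t) := by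
  have h1 : hp C (bilG N (frM C d)) = hw C.w (Gr.pi (fun _ : Fin r => N.H.dual) d) :=
    hw_iso C.w _ _ _ (bfr_hom N d)
  rw [h1, hw_pi, Finset.mul_sum]
  refine Finset.sum_congr rfl fun t _ => ?_
  rw [hp, hw, Finset.sum_mul]
  refine Finset.sum_congr rfl fun γ _ => ?_
  rw [dm_dual]
  by_cases h2 : dm N.H γ = 0
  · rw [h2, Nat.cast_zero, zero_mul, zero_mul, zero_mul]
  · have h3 : 0 ≤ C.dg γ := by
      by_contra hc
      exact h2 (dm_zero _ (fun x => hl γ x (by push_cast; omega)))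
    rw [C.w_add h3 (hd t), mul_assoc]

end Pool.Agent.TGC
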