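import Pool.Agent.TGC.Wt

/-!
# TGC-BAS: homogeneous bases

A basis of `range (H.p γ)` for every `γ ∈ H.supp`; together they form a basis of `V`.
-/

set_option autoImplicit false

noncomputable section

universe u v

namespace Pool.Agent.TGC

open Polynomial

variable {k V : Type u} {Γ : Type v} [Field k] [AddCommGroup Γ] [AddCommGroup V] [Module k V]

private def basE (H : Gr k Γ V) :
    V →ₗ[k] (∀ i : {γ // γ ∈ H.supp}, LinearMap.range (H.p i.1)) where
  toFun v i := ⟨H.p i.1 v, LinearMap.mem_range_self _ _⟩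
  map_add' v w := by
    funext i
    exact Subtype.ext (map_add _ _ _)
  map_smul' c v := by
    funext i
    exact Subtype.ext (map_smul _ _ _)

private theorem basE_apply (H : Gr k Γ V) (v : V) (i : {γ // γ ∈ H.supp}) :
    (basE H v i).1 = H.p i.1 v := rfl

private theorem basE_bij (H : Gr k Γ V) : Function.Bijective (basE H) := by
  constructor
  · rw [injective_iff_map_eq_zero]
    intro v hv
    rw [← H.total v]
    refine Finset.sum_eq_zero (fun i hi => ?_)
    have h := congrFun hv ⟨i, hi⟩
    have h' := congrArg Subtype.val h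
    exact h'
  · intro f
    refine ⟨∑ i, (f i).1, ?_⟩
    funext i
    apply Subtype.ext
    rw [basE_apply, map_sum, Finset.sum_eq_single i]
    · obtain ⟨y, hy⟩ := (f i).2
      rw [← hy, H.idem]
    · intro j _ hj
      obtain ⟨y, hy⟩ := (f j).2
      rw [← hy, H.orth _ _ _ (fun h => hj (Subtype.ext h.symm))]
    · intro h
      exact absurd (Finset.mem_univ _) h

theorem exists_hom_basis [Module.Finite k V] (H : Gr k Γ V) :
    ∃ (r : ℕ) (d : Fin r → Γ) (b : Module.Basis (Fin r) k V),
      (∀ t, H.In (d t) (b t)) ∧ ∀ w : Γ → ℤ[X], hw w H = ∑ t, w (d t) := by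
  classical
  let e : V ≃ₗ[k] (∀ i : {γ // γ ∈ H.supp}, LinearMap.range (H.p i.1)) :=
    LinearEquiv.ofBijective (basE H) (basE_bij H)
  let b0 : Module.Basis (Σ i : {γ // γ ∈ H.supp},
      Fin (Module.finrank k (LinearMap.range (H.p i.1)))) k V :=
    (Pi.basis (fun i : {γ // γ ∈ H.supp} =>
      Module.finBasis k (LinearMap.range (H.p i.1)))).map e.symm
  have hb0 : ∀ s, H.p s.1.1 (b0 s) = b0 s := by
    intro s
    have h1 : e (b0 s) = Pi.single s.1 (Module.finBasis k (LinearMap.range (H.p s.1.1)) s.2) := by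
      simp only [b0, Module.Basis.map_apply, LinearEquiv.apply_symm_apply]
      rw [Pi.basis_apply]
    have h2 : ∀ i : {γ // γ ∈ H.supp}, i ≠ s.1 → H.p i.1 (b0 s) = 0 := by
      intro i hi
      have h3 := congrFun h1 i
      rw [Pi.single_eq_of_ne hi] at h3
      exact congrArg Subtype.val h3
    conv_rhs => rw [← H.total (b0 s)]
    rw [Finset.sum_eq_single (s.1 : Γ)]
    · intro i hi hne
      exact h2 ⟨i, hi⟩ (fun h => hne (congrArg Subtype.val h))
    · intro h
      exact absurd s.1.2 h
  let q := Fintype.equivFin (Σ i : {γ // γ ∈ H.supp},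
    Fin (Module.finrank k (LinearMap.range (H.p i.1))))
  refine ⟨_, fun t => ((q.symm t).1 : Γ), b0.reindex q, ?_, ?_⟩
  · intro t
    rw [Module.Basis.reindex_apply]
    exact hb0 _
  · intro w
    rw [Equiv.sum_comp q.symm (fun s => w (s.1 : Γ)), Fintype.sum_sigma, hw, ← Finset.sum_attach]
    apply Finset.sum_congr rfl
    intro i _
    change _ = ∑ _y : Fin (Module.finrank k (LinearMap.range (H.p i.1))), w i.1
    rw [Finset.sum_const, Finset.card_univ, Fintype.card_fin, nsmul_eq_mul]
    rfl

end Pool.Agent.TGC
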