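import Pool.Agent.TGC.Maps
import Pool.Agent.TGC.Hp

/-!
# TGC-BLA: balanced forms and exact sequences (any characteristic)

PLAN.  `hp_flip`: `fl M N` restricts to a linear equivalence `Bil N M ≃ Bil M N` (`fl_mem`,
`fl_fl`), graded by `fl_bilp`; `hw_iso`.
`hp_bil_left`: the sequence `0 → Bil M X → Bil F X → Bil N X → 0` (maps `bcomp E.πk id`,
`bcomp E.ik id`) is exact: injective because `π` is surjective; a form `B ∈ Bil F X` with
`B(i n, x) = 0` descends to `M × X` (as in `exB_desc` of `Pool/Agent/TG/ExB.lean`, or by `fl` and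
the second variable); surjective by `LA`.  The maps respect the gradings (`bilG_p`,
`bilp_apply` or `bf_ext`, `bilp_hom`); `hw_short`.
`hp_bil_right`: the same for `0 → Bil X M → Bil X F → Bil X N → 0` with `LB`.
-/

set_option autoImplicit false

noncomputable section

universe u v

namespace Pool.Agent.TGC

open Polynomial
open Pool.Agent.TG (Du BF ev bcomp ev_bcomp ev_add ev_smul ev_sub ev_zero_left ev_zero_right
  ev_add_left ev_add_right ev_smul_left ev_smul_right ev_sum_left ev_sum_right ev_sum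
  ev_sub_left ev_sub_right)

variable {k A : Type u} {Γ : Type v} [Field k] [AddCommGroup Γ] [Ring A] [Algebra k A]
  {C : CA k Γ A}

private def blaFlip (M N : GM C) : Bil M N ≃ₗ[k] Bil N M where
  toFun B := ⟨fl N M B.1, fl_mem B.2⟩
  invFun B := ⟨fl M N B.1, fl_mem B.2⟩
  map_add' B B' := Subtype.ext (map_add _ _ _)
  map_smul' c B := Subtype.ext (map_smul _ _ _)
  left_inv B := Subtype.ext (fl_fl M N B.1)
  right_inv B := Subtype.ext (fl_fl N M B.1)

private theorem blaFlip_val (M N : GM C) (B : Bil M N) : (blaFlip M N B).1 = fl N M B.1 := rfl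

private theorem blaFlip_hom (M N : GM C) :
    Hom0 (bilG M N) (bilG N M) (blaFlip M N).toLinearMap := by
  intro δ B
  refine Subtype.ext ?_
  change (blaFlip M N ((bilG M N).p δ B)).1 = ((bilG N M).p δ (blaFlip M N B)).1
  rw [blaFlip_val, bilG_p, bilG_p, blaFlip_val, fl_bilp]

theorem hp_flip (M N : GM C) : hp C (bilG M N) = hp C (bilG N M) :=
  hw_iso C.w _ _ (blaFlip M N) (blaFlip_hom M N)

variable {N F M : GM C} (E : Ex N F M)

private theorem bla_bilp {M N M' N' : GM C} (f : M'.X →ₗ[k] M.X) (g : N'.X →ₗ[k] N.X)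
    (hf : Hom0 M'.H M.H f) (hg : Hom0 N'.H N.H g) (δ : Γ) (B : BF k M.X N.X) :
    bcomp f g (bilp M.H N.H δ B) = bilp M'.H N'.H δ (bcomp f g B) := by
  classical
  refine bf_ext M'.H N'.H (fun α β v w hv hw => ?_)
  rw [ev_bcomp, bilp_hom _ _ _ _ (hf.in hv) (hg.in hw), bilp_hom _ _ _ _ hv hw, ev_bcomp]

private theorem bla_pull_mem (X : GM C) {B : BF k M.X X.X} (hB : B ∈ Bil M X) :
    bcomp E.πk LinearMap.id B ∈ Bil F X := by
  intro a m n
  simp only [ev_bcomp, E.πk_apply, map_smul, LinearMap.id_apply]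
  exact hB a _ _

private def blaP (X : GM C) : Bil M X →ₗ[k] Bil F X where
  toFun B := ⟨bcomp E.πk LinearMap.id B.1, bla_pull_mem E X B.2⟩
  map_add' B B' := Subtype.ext (map_add _ _ _)
  map_smul' c B := Subtype.ext (map_smul _ _ _)

private theorem blaP_val (X : GM C) (B : Bil M X) :
    (blaP E X B).1 = bcomp E.πk LinearMap.id B.1 := rfl

private def blaR (X : GM C) : Bil F X →ₗ[k] Bil N X where
  toFun B := ⟨bcomp E.ik LinearMap.id B.1, E.restr_mem B.2⟩
  map_add' B B' := Subtype.ext (map_add _ _ _)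
  map_smul' c B := Subtype.ext (map_smul _ _ _)

private theorem blaR_val (X : GM C) (B : Bil F X) :
    (blaR E X B).1 = bcomp E.ik LinearMap.id B.1 := rfl

private theorem blaP_inj (X : GM C) : Function.Injective (blaP E X) := by
  intro B B' h
  refine Subtype.ext (BF.ext (fun m x => ?_))
  obtain ⟨f, rfl⟩ := E.hπ m
  have h1 := congrArg (fun D : Bil F X => ev D.1 f x) h
  exact h1

private theorem bla_desc (X : GM C) {D : BF k F.X X.X} (hD : D ∈ Bil F X)
    (h0 : ∀ f x, E.π f = 0 → ev D f x = 0) :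
    ∃ D' ∈ Bil M X, bcomp E.πk LinearMap.id D' = D := by
  have hw : ∀ f f' x, E.π f = E.π f' → ev D f x = ev D f' x := by
    intro f f' x h
    have h1 := h0 (f - f') x (by rw [map_sub, h, sub_self])
    rw [ev_sub_left] at h1
    exact sub_eq_zero.mp h1
  have hs : ∀ m, E.π (Function.surjInv E.hπ m) = m := Function.surjInv_eq E.hπ
  have hk : ∀ (c : k) (f : F.X), E.π (c • f) = c • E.π f := fun c f => E.πk.map_smul c f
  refine ⟨BF.mk (fun m x => ev D (Function.surjInv E.hπ m) x) ?_ ?_ ?_ ?_, ?_, ?_⟩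
  · intro v v' w
    rw [← ev_add_left]
    exact hw _ _ _ (by rw [map_add, hs, hs, hs])
  · intro c v w
    rw [← ev_smul_left]
    exact hw _ _ _ (by rw [hk, hs, hs])
  · intro v w w'
    exact ev_add_right _ _ _ _
  · intro c v w
    exact ev_smul_right _ _ _ _
  · intro a m n
    rw [BF.ev_mk, BF.ev_mk, ← hD a]
    exact hw _ _ _ (by rw [map_smul, hs, hs])
  · refine BF.ext (fun f x => ?_)
    rw [ev_bcomp, BF.ev_mk]
    exact hw _ _ _ (hs _)

private theorem bla_exact (X : GM C) :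
    LinearMap.range (blaP E X) = LinearMap.ker (blaR E X) := by
  refine le_antisymm ?_ ?_
  · rintro _ ⟨B, rfl⟩
    rw [LinearMap.mem_ker]
    refine Subtype.ext (BF.ext (fun n x => ?_))
    rw [blaR_val, ev_bcomp, blaP_val, ev_bcomp, E.ik_apply, E.πk_apply, E.π_i, ev_zero_left]
    rfl
  · intro B hB
    rw [LinearMap.mem_ker] at hB
    obtain ⟨D, hD, hDe⟩ := bla_desc E X B.2 (by
      intro f x hf
      obtain ⟨n, rfl⟩ := E.exists_i hf
      have h1 := congrArg (fun D : Bil N X => ev D.1 n x) hB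
      exact h1)
    exact ⟨⟨D, hD⟩, Subtype.ext hDe⟩

private theorem blaP_hom (X : GM C) : Hom0 (bilG M X) (bilG F X) (blaP E X) := by
  intro δ B
  refine Subtype.ext ?_
  rw [blaP_val, bilG_p, bilG_p, blaP_val]
  exact bla_bilp E.πk LinearMap.id E.gπk (hom0_id X.H) δ B.1

private theorem blaR_hom (X : GM C) : Hom0 (bilG F X) (bilG N X) (blaR E X) := by
  intro δ B
  refine Subtype.ext ?_
  rw [blaR_val, bilG_p, bilG_p, blaR_val]
  exact bla_bilp E.ik LinearMap.id E.gik (hom0_id X.H) δ B.1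

theorem hp_bil_left (X : GM C)
    (LA : ∀ B ∈ Bil N X, ∃ B' ∈ Bil F X, ∀ n x, ev B' (E.i n) x = ev B n x) :
    hp C (bilG F X) = hp C (bilG M X) + hp C (bilG N X) := by
  refine hw_short C.w (bilG M X) (bilG F X) (bilG N X) (blaP E X) (blaR E X) (blaP_inj E X) ?_
    (bla_exact E X) (blaP_hom E X) (blaR_hom E X)
  intro B
  obtain ⟨B', hB', hBe⟩ := LA B.1 B.2
  exact ⟨⟨B', hB'⟩, Subtype.ext (BF.ext (fun n x => hBe n x))⟩

theorem hp_bil_right (X : GM C)
    (LB : ∀ K ∈ Bil X N, ∃ B ∈ Bil X F, ∀ x n, ev B x (E.i n) = ev K x n) :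
    hp C (bilG X F) = hp C (bilG X M) + hp C (bilG X N) := by
  rw [hp_flip X F, hp_flip X M, hp_flip X N]
  refine hp_bil_left E X ?_
  intro B hB
  obtain ⟨B', hB', hBe⟩ := LB (fl X N B) (fl_mem hB)
  have h1 : bcomp LinearMap.id E.ik B' = fl X N B := BF.ext (fun x n => hBe x n)
  have h2 : bcomp E.ik LinearMap.id (fl F X B') = B := by
    rw [← fl_bcomp LinearMap.id E.ik (hom0_id X.H) E.gik, h1, fl_fl]
  refine ⟨fl F X B', fl_mem hB', ?_⟩
  intro n x
  rw [← h2]
  rfl

end Pool.Agent.TGC
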