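import Pool.Agent.TGC.FreeB
import Pool.Agent.TGC.Bas

/-!
# TGC-KER: the graded syzygy

PLAN.  Adapt `Pool/Agent/TG/Ker.lean`.  `b` from `exists_hom_basis`, `π = cov b`,
`N = LinearMap.ker (cov b)` with the grading `Gr.pull` along its inclusion.
`m ≤ deg (d t)`: `M.H.p (d t) (b t) = b t ≠ 0` and `hl`.
-/

set_option autoImplicit false

noncomputable section

universe u v

namespace Pool.Agent.TGC

open Polynomial

variable {k A : Type u} {Γ : Type v} [Field k] [AddCommGroup Γ] [Ring A] [Algebra k A]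
  {C : CA k Γ A}

/-- The kernel of an `A`-linear graded map is a graded module. -/
private theorem ker_graded (F : GM C) {M : Type u} [AddCommGroup M]
    [Module A M] (π : F.X →ₗ[A] M) (h : ∀ γ f, π f = 0 → π (F.H.p γ f) = 0) :
    ∃ (N : GM C) (i : N.X →ₗ[A] F.X), Function.Injective i ∧
      LinearMap.range i = LinearMap.ker π ∧ (∀ γ n, i (N.H.p γ n) = F.H.p γ (i n)) := by
  let K : Submodule A F.X := LinearMap.ker π
  let f : K →ₗ[k] F.X := K.subtype.restrictScalars k
  have hf : Function.Injective f := Subtype.val_injective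
  have hr : ∀ γ u, F.H.p γ (f u) ∈ LinearMap.range f := by
    intro γ u
    exact ⟨⟨F.H.p γ (f u), h γ (f u) u.2⟩, rfl⟩
  let H : Gr k Γ K := F.H.pull f hf hr
  have hH : ∀ γ u, f (H.p γ u) = F.H.p γ (f u) := F.H.pull_p f hf hr
  have hsmul : ∀ (a : A) (u : K), f (a • u) = a • f u := fun a u => rfl
  have hc : ∀ α μ (a : A) (x : K), C.p α a = a → H.p μ x = x → H.p (α + μ) (a • x) = a • x := by
    intro α μ a x ha hx
    apply hf
    rw [hH, hsmul]
    exact F.hc α μ a (f x) ha (by rw [← hH, hx])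
  have : Module.Finite k K := Module.Finite.of_injective f hf
  refine ⟨{ X := K, H := H, hc := hc }, K.subtype, Subtype.val_injective, ?_, ?_⟩
  · exact K.range_subtype
  · intro γ n
    exact hH γ n

theorem exists_cover [Module.Finite k A] (M : GM C) (m : ℕ) (hl : M.low m) :
    ∃ (r : ℕ) (d : Fin r → Γ) (N : GM C) (i : N.X →ₗ[A] (frM C d).X)
      (π : (frM C d).X →ₗ[A] M.X),
      Function.Injective i ∧ Function.Surjective π ∧ LinearMap.range i = LinearMap.ker π ∧
      (∀ γ n, i (N.H.p γ n) = (frM C d).H.p γ (i n)) ∧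
      (∀ γ f, π ((frM C d).H.p γ f) = M.H.p γ (π f)) ∧
      N.low (m + 1) ∧ (∀ t, (m : ℤ) ≤ C.dg (d t)) ∧ ∀ w : Γ → ℤ[X], hw w M.H = ∑ t, w (d t) := by
  obtain ⟨r, d, b, hb, hhp⟩ := exists_hom_basis M.H
  have hg : ∀ γ (f : (frM C d).X), cov (b : Fin r → M.X) ((frM C d).H.p γ f) =
      M.H.p γ (cov (b : Fin r → M.X) f) := fun γ f => cov_graded M d b hb γ f
  obtain ⟨N, i, hi, hrange, hig⟩ := ker_graded (frM C d) (cov (A := A) (b : Fin r → M.X))
    (fun γ f h0 => by rw [hg, h0, map_zero])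
  refine ⟨r, d, N, i, cov (A := A) (b : Fin r → M.X), hi, cov_surj b, hrange, hig, hg, ?_, ?_, hhp⟩
  · intro γ x hγ
    apply hi
    rw [hig, map_zero]
    refine cov_low M d b hb hl (i x) ?_ hγ
    have : i x ∈ LinearMap.range i := ⟨x, rfl⟩
    rw [hrange] at this
    exact this
  · intro t
    by_contra hlt
    push Not at hlt
    have h1 := hl (d t) (b t) hlt
    have h2 : M.H.p (d t) (b t) = b t := hb t
    rw [h2] at h1
    exact b.ne_zero t h1

end Pool.Agent.TGC
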