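import Pool.Agent.TGC.Free

/-!
# TGC-INJ: the dual of a free module is injective

PLAN.  Adapt `Pool/Agent/TG/Inj.lean`.  Let `f : X → Y` be an injective `A`-linear map
and `g : X → D'F` `A`-linear, `F = frM C d`.  Make `X`, `Y` into `k`-modules
(`Module.compHom _ (algebraMap k A)`).  For each `t` the functional `g_t : x ↦ (g x)(e_t)`,
`e_t = sgl C d t 1`, is `k`-linear (`Dp` is a tower); extend it to `h_t : Y → k` with
`h_t ∘ f = g_t` (`linv`).  Put `(h y)(v) = ∑ t, h_t (C.tw (d t) (v t) • y)`.
`A`-linear: `(a • h y)(v) = (h y)(R_a v)`, `frM_R`, `C.tw_mul`, `C.tw_tw`, `C.tw_zero`: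
`C.tw (d t) (v t * C.tw (-d t) a) = C.tw (d t) (v t) * a`.
`h (f x) = g x`: `h_t (C.tw (d t) (v t) • f x) = (g (b • x))(e_t) = (b • g x)(e_t) =
(g x)(R_b e_t)` with `b = C.tw (d t) (v t)`, and `R_b e_t = sgl t (v t)` (`sgl_R`,
`C.tw_tw`, `C.tw_zero`); `sgl_sum`.
-/

set_option autoImplicit false

noncomputable section

universe u v

namespace Pool.Agent.TGC

open Pool.Agent.TG (Du BF ev bcomp linv linv_apply)

variable {k A : Type u} {Γ : Type v} [Field k] [AddCommGroup Γ] [Ring A] [Algebra k A]
  {C : CA k Γ A}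

theorem dual_inj [Module.Finite k A] (C : CA k Γ A) {r : ℕ} (d : Fin r → Γ) :
    Module.Injective A (Dp (frM C d)) := by
  classical
  refine ⟨fun X Y _ _ _ _ f hf g => ?_⟩
  letI mX : Module k X := Module.compHom X (algebraMap k A)
  letI mY : Module k Y := Module.compHom Y (algebraMap k A)
  haveI tX : IsScalarTower k A X := IsScalarTower.of_algebraMap_smul (fun r x => rfl)
  haveI tY : IsScalarTower k A Y := IsScalarTower.of_algebraMap_smul (fun r x => rfl)
  have hkX : ∀ (c : k) (x : X), c • x = algebraMap k A c • x := fun c x => rfl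
  have hkY : ∀ (c : k) (y : Y), c • y = algebraMap k A c • y := fun c y => rfl
  let fk : X →ₗ[k] Y := f.restrictScalars k
  have hfk : Function.Injective fk := hf
  let gt : Fin r → X →ₗ[k] k := fun t =>
    { toFun := fun x => Dp.fn (g x) (sgl C d t 1)
      map_add' := fun x x' => by rw [map_add, Dp.fn_add]
      map_smul' := fun c x => by
        rw [hkX, map_smul, algebraMap_smul, Dp.fn_smul, RingHom.id_apply, smul_eq_mul] }
  let ht : Fin r → Y →ₗ[k] k := fun t => (gt t).comp (linv fk hfk)
  have hht : ∀ t x, ht t (f x) = Dp.fn (g x) (sgl C d t 1) := by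
    intro t x
    change gt t (linv fk hfk (fk x)) = _
    rw [linv_apply]
    rfl
  let h : Y →ₗ[A] Dp (frM C d) :=
    { toFun := fun y => Dp.mk (M := frM C d)
        { toFun := fun v => ∑ t, ht t (C.tw (d t) (v t) • y)
          map_add' := fun v w => by
            rw [← Finset.sum_add_distrib]
            refine Finset.sum_congr rfl (fun t _ => ?_)
            rw [Pi.add_apply, map_add, add_smul, map_add]
          map_smul' := fun c v => by
            rw [RingHom.id_apply, Finset.smul_sum]
            refine Finset.sum_congr rfl (fun t _ => ?_)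
            rw [Pi.smul_apply, (C.tw (d t)).map_smul, smul_assoc, (ht t).map_smul] }
      map_add' := fun y y' => by
        refine Dp.ext (fun v => ?_)
        rw [Dp.fn_add, Dp.fn_mk, Dp.fn_mk, Dp.fn_mk]
        simp only [LinearMap.coe_mk, AddHom.coe_mk]
        rw [← Finset.sum_add_distrib]
        refine Finset.sum_congr rfl (fun t _ => ?_)
        rw [smul_add, map_add]
      map_smul' := fun a y => by
        refine Dp.ext (fun v => ?_)
        rw [RingHom.id_apply, Dp.fn_asmul, Dp.fn_mk, Dp.fn_mk]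
        simp only [LinearMap.coe_mk, AddHom.coe_mk]
        refine Finset.sum_congr rfl (fun t _ => ?_)
        rw [frM_R, C.tw_mul, C.tw_tw, add_neg_cancel, C.tw_zero, mul_smul] }
  refine ⟨h, fun x => ?_⟩
  refine Dp.ext (fun v => ?_)
  change ∑ t, ht t (C.tw (d t) (v t) • f x) = Dp.fn (g x) v
  conv_rhs => rw [← sgl_sum C d v, map_sum]
  refine Finset.sum_congr rfl (fun t _ => ?_)
  rw [← map_smul, hht, map_smul, Dp.fn_asmul, sgl_R, C.tw_tw, neg_add_cancel, C.tw_zero, one_mul]

end Pool.Agent.TGC
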