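import Pool.Agent.TGC.Alg

/-!
# TGC-LES: long exact sequences of Ext for modules over a ring
-/

set_option autoImplicit false

noncomputable section

universe u

namespace Pool.Agent.TGC

open CategoryTheory

variable {R : Type u} [Ring R]
variable {X Y Z W : Type u} [AddCommGroup X] [Module R X] [AddCommGroup Y] [Module R Y]
  [AddCommGroup Z] [Module R Z] [AddCommGroup W] [Module R W]

/-- the short complex of two linear maps -/
def sc (f : X →ₗ[R] Y) (g : Y →ₗ[R] Z) (hfg : LinearMap.range f = LinearMap.ker g) :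
    ShortComplex (ModuleCat.{u} R) :=
  ShortComplex.mk (ModuleCat.ofHom f) (ModuleCat.ofHom g) (by
    ext x
    have : f x ∈ LinearMap.ker g := hfg ▸ LinearMap.mem_range_self f x
    exact this)

theorem sc_exact (f : X →ₗ[R] Y) (g : Y →ₗ[R] Z) (hfg : LinearMap.range f = LinearMap.ker g)
    (hf : Function.Injective f) (hg : Function.Surjective g) : (sc f g hfg).ShortExact := by
  have h1 : Function.Exact f g := by
    intro y
    constructor
    · intro hy
      have h2 : y ∈ LinearMap.range f := hfg ▸ (LinearMap.mem_ker.mpr hy)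
      exact h2
    · intro hy
      have h2 : y ∈ LinearMap.range f := hy
      rw [hfg] at h2
      exact h2
  exact ModuleCat.shortComplex_shortExact _ h1 hf hg

theorem les_extend (f : X →ₗ[R] Y) (g : Y →ₗ[R] Z)
    (hfg : LinearMap.range f = LinearMap.ker g) (hf : Function.Injective f)
    (hg : Function.Surjective g)
    (h : Subsingleton (Abelian.Ext.{u} (ModuleCat.of R Z) (ModuleCat.of R W) 1))
    (φ : X →ₗ[R] W) : ∃ ψ : Y →ₗ[R] W, ∀ x, ψ (f x) = φ x := by
  obtain ⟨x₂, hx⟩ := Abelian.Ext.contravariant_sequence_exact₁ (sc_exact f g hfg hf hg)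
    (ModuleCat.of R W) (Abelian.Ext.mk₀ (ModuleCat.ofHom φ)) (n₁ := 1) rfl
    (@Subsingleton.elim _ h _ _)
  obtain ⟨q, rfl⟩ := Abelian.Ext.addEquiv₀.symm.surjective x₂
  have h2 : (sc f g hfg).f ≫ q = ModuleCat.ofHom φ := by
    apply Abelian.Ext.addEquiv₀.symm.injective
    simp at hx
    exact hx
  refine ⟨q.hom, fun x => ?_⟩
  have h3 := congrArg (fun r => (ModuleCat.Hom.hom r) x) h2
  exact h3

theorem les_lift (f : X →ₗ[R] Y) (g : Y →ₗ[R] Z)
    (hfg : LinearMap.range f = LinearMap.ker g) (hf : Function.Injective f)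
    (hg : Function.Surjective g)
    (h : Subsingleton (Abelian.Ext.{u} (ModuleCat.of R W) (ModuleCat.of R X) 1))
    (φ : W →ₗ[R] Z) : ∃ ψ : W →ₗ[R] Y, ∀ w, g (ψ w) = φ w := by
  obtain ⟨x₂, hx⟩ := Abelian.Ext.covariant_sequence_exact₃ (ModuleCat.of R W)
    (sc_exact f g hfg hf hg) (Abelian.Ext.mk₀ (ModuleCat.ofHom φ)) (n₁ := 1) rfl
    (@Subsingleton.elim _ h _ _)
  obtain ⟨q, rfl⟩ := Abelian.Ext.addEquiv₀.symm.surjective x₂
  have h2 : q ≫ (sc f g hfg).g = ModuleCat.ofHom φ := by
    apply Abelian.Ext.addEquiv₀.symm.injective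
    simp at hx
    exact hx
  refine ⟨q.hom, fun x => ?_⟩
  have h3 := congrArg (fun r => (ModuleCat.Hom.hom r) x) h2
  exact h3

theorem les_left (f : X →ₗ[R] Y) (g : Y →ₗ[R] Z)
    (hfg : LinearMap.range f = LinearMap.ker g) (hf : Function.Injective f)
    (hg : Function.Surjective g) (i : ℕ)
    (h : Subsingleton (Abelian.Ext.{u} (ModuleCat.of R Z) (ModuleCat.of R W) (i + 1)))
    (h' : Subsingleton (Abelian.Ext.{u} (ModuleCat.of R Y) (ModuleCat.of R W) i)) :
    Subsingleton (Abelian.Ext.{u} (ModuleCat.of R X) (ModuleCat.of R W) i) := by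
  refine subsingleton_of_forall_eq 0 (fun x => ?_)
  obtain ⟨x₂, hx⟩ := Abelian.Ext.contravariant_sequence_exact₁ (sc_exact f g hfg hf hg)
    (ModuleCat.of R W) x (n₁ := i + 1) (by omega) (@Subsingleton.elim _ h _ _)
  have h3 : x₂ = 0 := @Subsingleton.elim _ h' _ _
  rw [← hx, h3]
  simp
  rfl

theorem les_right (f : X →ₗ[R] Y) (g : Y →ₗ[R] Z)
    (hfg : LinearMap.range f = LinearMap.ker g) (hf : Function.Injective f)
    (hg : Function.Surjective g) (i : ℕ)
    (h : Subsingleton (Abelian.Ext.{u} (ModuleCat.of R W) (ModuleCat.of R X) (i + 1)))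
    (h' : Subsingleton (Abelian.Ext.{u} (ModuleCat.of R W) (ModuleCat.of R Y) i)) :
    Subsingleton (Abelian.Ext.{u} (ModuleCat.of R W) (ModuleCat.of R Z) i) := by
  refine subsingleton_of_forall_eq 0 (fun x => ?_)
  obtain ⟨x₂, hx⟩ := Abelian.Ext.covariant_sequence_exact₃ (ModuleCat.of R W)
    (sc_exact f g hfg hf hg) x (n₁ := i + 1) rfl (@Subsingleton.elim _ h _ _)
  have h3 : x₂ = 0 := @Subsingleton.elim _ h' _ _
  rw [← hx, h3]
  simp
  rfl

theorem ext_proj (hY : Module.Projective R Y) (i : ℕ) (hi : 1 ≤ i) :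
    Subsingleton (Abelian.Ext.{u} (ModuleCat.of R Y) (ModuleCat.of R W) i) := by
  obtain ⟨j, rfl⟩ := Nat.exists_eq_add_of_le hi
  have : Projective (ModuleCat.of R Y) := (IsProjective.iff_projective Y).mp hY
  rw [add_comm]
  exact Abelian.Ext.subsingleton_of_projective _ _ j

theorem ext_inj (hY : Module.Injective R Y) (i : ℕ) (hi : 1 ≤ i) :
    Subsingleton (Abelian.Ext.{u} (ModuleCat.of R W) (ModuleCat.of R Y) i) := by
  obtain ⟨j, rfl⟩ := Nat.exists_eq_add_of_le hi
  have : Injective (ModuleCat.of R Y) := Module.injective_object_of_injective_module R Y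
  rw [add_comm]
  exact Abelian.Ext.subsingleton_of_injective _ _ j

end Pool.Agent.TGC
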