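import Pool.Agent.TGC.Maps
import Pool.Agent.TGC.Les
import Pool.Agent.TGC.Inj

/-!
# TGC-VDATA: what the vanishing of Ext gives for `0 → N → F → M → 0`, `F` free

PLAN.  Adapt `Pool/Agent/TG/VData.lean`.  A balanced form `B ∈ Bil X Y` is the same as an
`A`-linear map `X → D'Y`, `x ↦ B(x, -)` (`toA`, `ofA`).
`0 → D'M → D'F → D'N → 0` (maps `φ ↦ φ ∘ π`, `φ ↦ φ ∘ i`) is exact; the maps are `A`-linear
by `E.R_π`, `E.R_i`.
`van_LA`: `les_extend` for `i, π` and `Ext^1(M, D'M) = 0`.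
`van_mid`: `Ext^j(N, D'M) = 0` for `1 ≤ j ≤ q` by `les_left` (with `ext_proj`, `F` is free) and
`Ext^(j+1)(M, D'M) = 0`.
`van_LB`: `les_lift` for `D'π, D'i`, `W = N`, `Ext^1(N, D'M) = 0`.
`van_next`: `les_right` for `D'π, D'i`, `W = N`, with `ext_inj` (`dual_inj`).
`ext_C`: `(dual_inj C d).out` for `E.i`.
-/

set_option autoImplicit false

noncomputable section

universe u v

namespace Pool.Agent.TGC

open CategoryTheory
open Pool.Agent.TG (Du BF ev bcomp linv linv_apply ev_add_left)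

variable {k A : Type u} {Γ : Type v} [Field k] [AddCommGroup Γ] [Ring A] [Algebra k A]
  {C : CA k Γ A}

/-- the `A`-linear map of a balanced form -/
private def toA {X Y : GM C} (B : BF k X.X Y.X) (hB : B ∈ Bil X Y) : X.X →ₗ[A] Dp Y where
  toFun x := Dp.mk (Du.fn (B x))
  map_add' x x' := Dp.ext (fun y => ev_add_left B x x' y)
  map_smul' a x := Dp.ext (fun y => hB a x y)

private theorem toA_ev {X Y : GM C} (B : BF k X.X Y.X) (hB : B ∈ Bil X Y) (x : X.X) (y : Y.X) :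
    Dp.fn (toA B hB x) y = ev B x y := rfl

/-- the balanced form of an `A`-linear map -/
private def ofA {X Y : GM C} (φ : X.X →ₗ[A] Dp Y) : BF k X.X Y.X :=
  BF.mk (fun x y => Dp.fn (φ x) y)
    (by
      intro x x' y
      rw [map_add, Dp.fn_add])
    (by
      intro c x y
      rw [φ.map_smul_of_tower c x, Dp.fn_smul])
    (by
      intro x y y'
      exact map_add (Dp.fn (φ x)) y y')
    (by
      intro c x y
      exact map_smul (Dp.fn (φ x)) c y)

private theorem ofA_ev {X Y : GM C} (φ : X.X →ₗ[A] Dp Y) (x : X.X) (y : Y.X) :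
    ev (ofA φ) x y = Dp.fn (φ x) y := rfl

private theorem ofA_mem {X Y : GM C} (φ : X.X →ₗ[A] Dp Y) : ofA φ ∈ Bil X Y := by
  intro a x y
  rw [ofA_ev, ofA_ev, map_smul, Dp.fn_asmul]

/-- the dual of a linear map which commutes with the right multiplications -/
private def dmap {X Y : GM C} (f : X.X →ₗ[A] Y.X) (hf : ∀ a x, f (X.R a x) = Y.R a (f x)) :
    Dp Y →ₗ[A] Dp X where
  toFun φ := Dp.mk ((Dp.fn φ).comp (f.restrictScalars k))
  map_add' φ ψ := Dp.ext (fun x => rfl)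
  map_smul' a φ := by
    refine Dp.ext (fun x => ?_)
    exact congrArg (Dp.fn φ) (hf a x).symm

private theorem dmap_fn {X Y : GM C} (f : X.X →ₗ[A] Y.X)
    (hf : ∀ a x, f (X.R a x) = Y.R a (f x)) (φ : Dp Y) (x : X.X) :
    Dp.fn (dmap f hf φ) x = Dp.fn φ (f x) := rfl

private theorem dmap_inj {X Y : GM C} (f : X.X →ₗ[A] Y.X)
    (hf : ∀ a x, f (X.R a x) = Y.R a (f x)) (hs : Function.Surjective f) :
    Function.Injective (dmap f hf) := by
  intro φ ψ h
  refine Dp.ext (fun y => ?_)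
  obtain ⟨x, rfl⟩ := hs y
  rw [← dmap_fn f hf, ← dmap_fn f hf, h]

private theorem dmap_surj {X Y : GM C} (f : X.X →ₗ[A] Y.X)
    (hf : ∀ a x, f (X.R a x) = Y.R a (f x)) (hi : Function.Injective f) :
    Function.Surjective (dmap f hf) := by
  intro φ
  have hi' : Function.Injective (f.restrictScalars k : X.X →ₗ[k] Y.X) := hi
  refine ⟨Dp.mk ((Dp.fn φ).comp (linv (f.restrictScalars k) hi')), ?_⟩
  refine Dp.ext (fun n => ?_)
  rw [dmap_fn]
  exact congrArg (Dp.fn φ) (linv_apply (f.restrictScalars k) hi' n)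

private theorem dmap_exact {N F M : GM C} (E : Ex N F M) :
    LinearMap.range (dmap E.π E.R_π) = LinearMap.ker (dmap E.i E.R_i) := by
  apply le_antisymm
  · rintro _ ⟨φ, rfl⟩
    rw [LinearMap.mem_ker]
    refine Dp.ext (fun n => ?_)
    rw [dmap_fn, dmap_fn, E.π_i, map_zero, Dp.fn_zero]
  · intro ψ hψ
    have hψ' : ∀ n, Dp.fn ψ (E.i n) = 0 := by
      intro n
      rw [← dmap_fn E.i E.R_i, LinearMap.mem_ker.1 hψ, Dp.fn_zero]
    obtain ⟨s, hs⟩ := LinearMap.exists_rightInverse_of_surjective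
      (E.π.restrictScalars k : F.X →ₗ[k] M.X) (LinearMap.range_eq_top.2 E.hπ)
    refine ⟨Dp.mk ((Dp.fn ψ).comp s), ?_⟩
    refine Dp.ext (fun p => ?_)
    rw [dmap_fn]
    have h1 : E.π (s (E.π p)) = E.π p := LinearMap.congr_fun hs (E.π p)
    have h2 : E.π (s (E.π p) - p) = 0 := by
      rw [map_sub, h1, sub_self]
    obtain ⟨n, hn⟩ := E.exists_i h2
    have h3 : Dp.fn ψ (s (E.π p) - p) = 0 := by
      rw [← hn]
      exact hψ' n
    rw [map_sub] at h3
    exact sub_eq_zero.1 h3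

variable [Module.Finite k A] {N M : GM C} {r : ℕ} {d : Fin r → Γ} (E : Ex N (frM C d) M)

include E

theorem van_LA (hv : Van M 1) :
    ∀ B ∈ Bil N M, ∃ B' ∈ Bil (frM C d) M, ∀ n m, ev B' (E.i n) m = ev B n m := by
  intro B hB
  obtain ⟨ψ, hψ⟩ := les_extend E.i E.π E.hex E.hi E.hπ (hv 1 le_rfl le_rfl) (toA B hB)
  refine ⟨ofA ψ, ofA_mem ψ, ?_⟩
  intro n m
  rw [ofA_ev, hψ, toA_ev]

private theorem van_mid (q : ℕ) (hv : Van M (q + 1)) (j : ℕ) (hj : 1 ≤ j) (hjq : j ≤ q) :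
    Subsingleton (Abelian.Ext.{u} (ModuleCat.of A N.X) (ModuleCat.of A (Dp M)) j) := by
  have hp : Module.Projective A (frM C d).X := inferInstanceAs (Module.Projective A (Fin r → A))
  exact les_left E.i E.π E.hex E.hi E.hπ j (hv (j + 1) (by omega) (by omega))
    (ext_proj hp j hj)

theorem van_LB (hv : Van M 2) :
    ∀ K ∈ Bil N N, ∃ B ∈ Bil N (frM C d), ∀ n n', ev B n (E.i n') = ev K n n' := by
  intro K hK
  obtain ⟨ψ, hψ⟩ := les_lift (dmap E.π E.R_π) (dmap E.i E.R_i) (dmap_exact E)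
    (dmap_inj E.π E.R_π E.hπ) (dmap_surj E.i E.R_i E.hi) (van_mid E 1 hv 1 le_rfl le_rfl)
    (toA K hK)
  refine ⟨ofA ψ, ofA_mem ψ, ?_⟩
  intro n n'
  rw [ofA_ev, ← dmap_fn E.i E.R_i, hψ, toA_ev]

theorem van_LC :
    ∀ B ∈ Bil N (frM C d), ∃ B' ∈ Bil (frM C d) (frM C d), ∀ n f, ev B' (E.i n) f = ev B n f := by
  intro B hB
  have hinj : Module.Injective A (Dp (frM C d)) := dual_inj C d
  obtain ⟨ψ, hψ⟩ := hinj.out E.i E.hi (toA B hB)
  refine ⟨ofA ψ, ofA_mem ψ, ?_⟩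
  intro n f
  rw [ofA_ev, hψ, toA_ev]

theorem van_next (q : ℕ) (hv : Van M (q + 2)) : Van N q := by
  intro j hj hjq
  exact les_right (dmap E.π E.R_π) (dmap E.i E.R_i) (dmap_exact E)
    (dmap_inj E.π E.R_π E.hπ) (dmap_surj E.i E.R_i E.hi) j
    (van_mid E (q + 1) hv (j + 1) (by omega) (by omega))
    (ext_inj (dual_inj C d) j hj)

end Pool.Agent.TGC
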