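import Pool.Agent.TGC.BlA
import Pool.Agent.TGC.BFr
import Pool.Agent.TGC.Ker
import Pool.Agent.TGC.VData

/-!
# TGC-BLB: the defect of balanced forms (any characteristic)
-/

set_option autoImplicit false

noncomputable section

universe u v

namespace Pool.Agent.TGC

open Polynomial
open Pool.Agent.TG (Du BF ev bcomp ev_bcomp ev_add ev_smul ev_sub ev_zero_left ev_zero_right
  ev_add_left ev_add_right ev_smul_left ev_smul_right ev_sum_left ev_sum_right ev_sum)

variable {k A : Type u} {Γ : Type v} [Field k] [AddCommGroup Γ] [Ring A] [Algebra k A]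
  {C : CA k Γ A}

/-- The defect of the space of balanced forms. -/
def GM.cc (M : GM C) : ℤ[X] := hp C (bilG M M) * hp C C.toGr - hp C M.H ^ 2

theorem cc_step [Module.Finite k A] (M : GM C) (m q : ℕ) (hl : M.low m)
    (hv : Van M (q + 2)) : ∃ N : GM C, N.low (m + 1) ∧ Van N q ∧ M.cc = N.cc := by
  obtain ⟨r, d, N, i, π, hi, hπ, hex, hgi, hgπ, hlow, hd, hw0⟩ := exists_cover M m hl
  let E : Ex N (frM C d) M :=
    { i := i, π := π, hi := hi, hπ := hπ, hex := hex, gi := hgi, gπ := hgπ }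
  have hd0 : ∀ t, 0 ≤ C.dg (d t) := fun t => le_trans (by positivity) (hd t)
  have hv1 : Van M 1 := fun j h1 h1' => hv j h1 (by omega)
  have hv2 : Van M 2 := fun j h1 h1' => hv j h1 (by omega)
  refine ⟨N, hlow, van_next E q hv, ?_⟩
  have hN0 : N.low 0 := fun γ x hγ => hlow γ x (lt_trans hγ (by positivity))
  have hM0 : M.low 0 := fun γ x hγ => hl γ x (lt_of_lt_of_le hγ (by positivity))
  have E1 := hp_bil_left E M (van_LA E hv1)
  have E2 := hp_bil_right E N (van_LB E hv2)
  have E3 := hp_bil_fr N hN0 d hd0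
  have E3' := hp_bil_fr M hM0 d hd0
  have E4 : hp C (frM C d).H = hp C N.H + hp C M.H :=
    hw_short C.w N.H (frM C d).H M.H E.ik E.πk E.hi E.hπ
      (by
        ext x
        exact (Submodule.ext_iff.mp E.hex x))
      E.gik E.gπk
  have E5 := hp_fr C d hd0
  have v1 : ∑ t, C.w (d t) = hp C M.H := (hw0 _).symm
  rw [v1] at E3 E3' E5
  rw [hp_flip, E3'] at E1
  rw [E3, hp_flip N M] at E2
  rw [hp_flip N M] at E1
  have hN : hp C N.H = hp C C.toGr * hp C M.H - hp C M.H := by
    rw [← E5, E4]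
    ring
  unfold GM.cc
  rw [hN] at E2 ⊢
  linear_combination (E2 - E1) * hp C C.toGr

private theorem blb_zero (M : GM C) (δ : Γ)
    (h : ∀ α, (∀ x, M.H.p α x = 0) ∨ ∀ x, M.H.p (δ - α) x = 0)
    (B : Bil M M) : (bilG M M).p δ B = 0 := by
  refine Subtype.ext ?_
  rw [bilG_p]
  refine BF.ext (fun v w => ?_)
  rw [bilp_apply]
  have hz : ev ((0 : Bil M M) : BF k M.X M.X) v w = 0 := rfl
  rw [hz]
  refine Finset.sum_eq_zero (fun α _ => ?_)
  rcases h α with h1 | h1
  · rw [h1, ev_zero_left]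
  · rw [h1, ev_zero_right]

theorem cc_low (M : GM C) (m : ℕ) (hl : M.low m) : X ^ (2 * m) ∣ M.cc := by
  have hs : X ^ (2 * m) ∣ hp C (bilG M M) := by
    refine hp_dvd C (bilG M M) (2 * m) (fun δ B hδ => ?_)
    refine blb_zero M δ (fun α => ?_) B
    by_cases h : C.dg α < m
    · exact Or.inl (fun x => hl α x h)
    · refine Or.inr (fun x => hl (δ - α) x ?_)
      rw [map_sub]
      push_cast at hδ
      omega
  have hv : X ^ m ∣ hp C M.H := hp_dvd C M.H m hl
  have hv2 : X ^ (2 * m) ∣ hp C M.H ^ 2 := by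
    have := pow_dvd_pow_of_dvd hv 2
    rwa [← pow_mul, mul_comm m 2] at this
  unfold GM.cc
  exact dvd_sub (hs.mul_right _) hv2

theorem cc_rec [Module.Finite k A] (n : ℕ) :
    ∀ (M : GM C) (m : ℕ), M.low m → Van M (2 * n) → X ^ (2 * (m + n)) ∣ M.cc := by
  induction n with
  | zero =>
    intro M m hl _
    exact cc_low M m hl
  | succ n ih =>
    intro M m hl hv
    obtain ⟨N, h1, h3, h4⟩ := cc_step M m (2 * n) hl hv
    have h6 := ih N (m + 1) h1 h3
    have e : 2 * (m + (n + 1)) = 2 * (m + 1 + n) := by omega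
    rw [e, h4]
    exact h6

theorem cc_zero [Module.Finite k A] (M : GM C) (s t : ℕ)
    (hs : ∀ γ a, (s : ℤ) < C.dg γ → C.p γ a = 0) (hl : M.low 0) (ht : M.up t)
    (hv : Van M (2 * t + s + 2)) : M.cc = 0 := by
  have hd := cc_rec (t + s / 2 + 1) M 0 hl (fun i h1 hi => hv i h1 (by omega))
  have hh : (hp C C.toGr).natDegree ≤ s := hp_deg C C.toGr s hs
  have hvd : (hp C M.H).natDegree ≤ t := hp_deg C M.H t ht
  have hs1 : (hp C (bilG M M)).natDegree ≤ 2 * t := by
    refine hp_deg C (bilG M M) (2 * t) (fun δ B hδ => ?_)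
    refine blb_zero M δ (fun α => ?_) B
    by_cases h : (t : ℤ) < C.dg α
    · exact Or.inl (fun x => ht α x h)
    · refine Or.inr (fun x => ht (δ - α) x ?_)
      rw [map_sub]
      push_cast at hδ
      omega
  refine eq_zero_of_dvd_of_natDegree_lt hd ?_
  rw [natDegree_X_pow]
  have h1 : M.cc.natDegree ≤ 2 * t + s := by
    unfold GM.cc
    refine (natDegree_sub_le _ _).trans (max_le ?_ ?_)
    · have h3 := natDegree_mul_le_of_le hs1 hh
      omega
    · have h3 := natDegree_pow_le_of_le 2 hvd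
      omega
  omega

end Pool.Agent.TGC
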