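import Pool.Agent.TGC.Alg

/-!
# TGC-BRG: gradings in the sense of Mathlib

PLAN.  Adapt `Pool/Agent/TG/Brg.lean` and `exists_top` in `Pool/Agent/TG/Main.lean`.
-/

set_option autoImplicit false

noncomputable section

universe u v

namespace Pool.Agent.TGC

variable {k A : Type u} {Γ : Type v} [Field k] [AddCommGroup Γ] [Ring A] [Algebra k A]

/-- The projections of a decomposition of a vector space. -/
def dproj [DecidableEq Γ] {V : Type u} [AddCommGroup V] [Module k V] (ℳ : Γ → Submodule k V)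
    [DirectSum.Decomposition ℳ] (γ : Γ) : V →ₗ[k] V where
  toFun v := (DirectSum.decompose ℳ v γ : V)
  map_add' v w := by simp
  map_smul' c v := by
    rw [DirectSum.decompose_smul]
    rfl

theorem dproj_mem [DecidableEq Γ] {V : Type u} [AddCommGroup V] [Module k V]
    (ℳ : Γ → Submodule k V) [DirectSum.Decomposition ℳ] (γ : Γ) (v : V) :
    dproj ℳ γ v ∈ ℳ γ := (DirectSum.decompose ℳ v γ).2

theorem dproj_of_mem [DecidableEq Γ] {V : Type u} [AddCommGroup V] [Module k V]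
    (ℳ : Γ → Submodule k V) [DirectSum.Decomposition ℳ] (α β : Γ) {v : V} (hv : v ∈ ℳ β) :
    dproj ℳ α v = if α = β then v else 0 := by
  split_ifs with h
  · subst h
    exact DirectSum.decompose_of_mem_same ℳ hv
  · exact DirectSum.decompose_of_mem_ne ℳ hv (fun h' => h h'.symm)

/-- A finite decomposition has finite support. -/
theorem exists_supp [DecidableEq Γ] {V : Type u} [AddCommGroup V] [Module k V]
    [Module.Finite k V] (ℳ : Γ → Submodule k V) [DirectSum.Decomposition ℳ] :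
    ∃ T : Finset Γ, ∀ γ, γ ∉ T → ∀ v, dproj ℳ γ v = 0 := by
  classical
  obtain ⟨S, hS⟩ := (inferInstance : Module.Finite k V).fg_top
  refine ⟨S.biUnion (fun a => (DirectSum.decompose ℳ a).support), fun γ hγ v => ?_⟩
  have h1 : v ∈ Submodule.span k (S : Set V) := by
    rw [hS]
    exact Submodule.mem_top
  refine Submodule.span_induction (p := fun x _ => dproj ℳ γ x = 0) ?_ ?_ ?_ ?_ h1
  · intro x hx
    by_contra hc
    apply hγ
    rw [Finset.mem_biUnion]
    refine ⟨x, hx, ?_⟩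
    rw [DFinsupp.mem_support_iff]
    intro h4
    apply hc
    change (DirectSum.decompose ℳ x γ : V) = 0
    rw [h4]
    rfl
  · simp
  · intro x y _ _ hx hy
    rw [map_add, hx, hy, add_zero]
  · intro c x _ hx
    rw [map_smul, hx, smul_zero]

/-- The grading given by a decomposition with finite support. -/
def toGr [DecidableEq Γ] {V : Type u} [AddCommGroup V] [Module k V]
    (ℳ : Γ → Submodule k V) [DirectSum.Decomposition ℳ] (T : Finset Γ)
    (hT : ∀ γ, γ ∉ T → ∀ v, dproj ℳ γ v = 0) : Gr k Γ V where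
  p γ := dproj ℳ γ
  supp := T
  idem γ v := by
    rw [dproj_of_mem ℳ γ γ (dproj_mem ℳ γ v), if_pos rfl]
  orth α β v hab := by
    rw [dproj_of_mem ℳ α β (dproj_mem ℳ β v), if_neg hab]
  total v := by
    classical
    conv_rhs => rw [← DirectSum.sum_support_decompose ℳ v]
    symm
    refine Finset.sum_subset (fun i hi => ?_) (fun i _ hi => ?_)
    · by_contra hc
      rw [DFinsupp.mem_support_iff] at hi
      exact hi (Subtype.ext (hT i hc v))
    · rw [DFinsupp.notMem_support_iff] at hi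
      rw [hi]
      rfl

/-- Every graded colour commutative algebra in the sense of Mathlib gives a `CA`. -/
theorem exists_CA [Module.Finite k A] [DecidableEq Γ] (𝒜 : Γ → Submodule k A) [GradedAlgebra 𝒜]
    (ε : Γ → Γ → k) (hε : ∀ α β γ, ε (α + β) γ = ε α γ * ε β γ)
    (hε' : ∀ α β, ε α β * ε β α = 1) (dg : Γ →+ ℤ)
    (h0 : ∀ a ∈ 𝒜 0, ∃ c : k, a = algebraMap k A c)
    (hpos : ∀ γ, γ ≠ 0 → dg γ ≤ 0 → 𝒜 γ = ⊥)
    (hcomm : ∀ α β, ∀ a ∈ 𝒜 α, ∀ b ∈ 𝒜 β, a * b = ε α β • (b * a)) :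
    ∃ C : CA k Γ A, C.dg = dg ∧ ∀ γ a, C.p γ a ∈ 𝒜 γ := by
  obtain ⟨T, hT⟩ := exists_supp (k := k) 𝒜
  have hin : ∀ γ a, dproj 𝒜 γ a = a → a ∈ 𝒜 γ := by
    intro γ a h
    rw [← h]
    exact dproj_mem 𝒜 γ a
  refine ⟨{
    toGr := toGr 𝒜 T hT
    ε := ε
    dg := dg
    ε_add := hε
    ε_symm := hε'
    mul_in := ?_
    comm := ?_
    one_in := ?_
    conn := ?_
    pos := ?_ }, rfl, fun γ a => dproj_mem 𝒜 γ a⟩
  · intro α β a b ha hb
    have h1 : a * b ∈ 𝒜 (α + β) := SetLike.GradedMul.mul_mem (hin α a ha) (hin β b hb)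
    change dproj 𝒜 (α + β) (a * b) = a * b
    rw [dproj_of_mem 𝒜 (α + β) (α + β) h1, if_pos rfl]
  · intro α β a b ha hb
    exact hcomm α β a (hin α a ha) b (hin β b hb)
  · have h1 : (1 : A) ∈ 𝒜 0 := SetLike.GradedOne.one_mem
    change dproj 𝒜 0 1 = 1
    rw [dproj_of_mem 𝒜 0 0 h1, if_pos rfl]
  · intro a
    exact h0 _ (dproj_mem 𝒜 0 a)
  · intro α a hα hd
    have h1 : dproj 𝒜 α a ∈ 𝒜 α := dproj_mem 𝒜 α a
    rw [hpos α hα hd] at h1
    exact (Submodule.mem_bot k).mp h1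

/-- There is a nonzero component of maximal degree. -/
theorem exists_top [Module.Finite k A] [Nontrivial A] (C : CA k Γ A) :
    ∃ c : Γ, 0 ≤ C.dg c ∧ (∃ a, C.p c a ≠ 0) ∧ ∀ γ a, C.dg c < C.dg γ → C.p γ a = 0 := by
  classical
  have hmem : ∀ γ a, C.p γ a ≠ 0 → γ ∈ C.supp.filter (fun γ => ∃ a, C.p γ a ≠ 0) := by
    intro γ a h
    rw [Finset.mem_filter]
    refine ⟨?_, a, h⟩
    by_contra hc
    exact h (C.toGr.p_notMem hc a)
  have h0 : (0 : Γ) ∈ C.supp.filter (fun γ => ∃ a, C.p γ a ≠ 0) := by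
    refine hmem 0 1 ?_
    rw [C.one_in]
    exact one_ne_zero
  obtain ⟨c, hc, hmax⟩ := Finset.exists_max_image (C.supp.filter (fun γ => ∃ a, C.p γ a ≠ 0))
    C.dg ⟨0, h0⟩
  refine ⟨c, ?_, (Finset.mem_filter.mp hc).2, fun γ a hlt => ?_⟩
  · have h1 := hmax 0 h0
    rwa [map_zero] at h1
  · by_contra h
    exact absurd (hmax γ (hmem γ a h)) (not_le.mpr hlt)

end Pool.Agent.TGC
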