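import Pool.Agent.TGC.Hp

/-!
# TGC-COARSE: the coefficients of the Hilbert polynomial

PLAN.  `cp_in`: `Finset.sum_eq_single`, `Gr.In.ite`, `Gr.In.eq_zero`.
`coeff_hp`: the coefficient is `∑ dm H γ` over the `γ ∈ H.supp` with `deg γ = n` (for the `γ`
with `dm H γ ≠ 0` we have `0 ≤ deg γ` by `hl`, `dm_zero`, so `(deg γ).toNat = n ↔ deg γ = n`).
The range `W` of `cp C H n` has the grading `Gr.pull` along its inclusion, whose component of
degree `γ` is the one of `H` if `deg γ = n` and zero otherwise (as submodules of `V`; the ranges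
have the same dimension); `dm_total`.
-/

set_option autoImplicit false

noncomputable section

universe u v

namespace Pool.Agent.TGC

open Polynomial

variable {k A V : Type u} {Γ : Type v} [Field k] [AddCommGroup Γ] [Ring A] [Algebra k A]
  [AddCommGroup V] [Module k V]

/-- The projection to the sum of the components of integer degree `n`. -/
def cp (C : CA k Γ A) (H : Gr k Γ V) (n : ℤ) : V →ₗ[k] V :=
  ∑ γ ∈ H.supp.filter (fun γ => C.dg γ = n), H.p γ

theorem cp_in (C : CA k Γ A) {H : Gr k Γ V} {γ : Γ} {v : V} (hv : H.In γ v) (n : ℤ) :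
    cp C H n v = if C.dg γ = n then v else 0 := by
  unfold cp
  rw [LinearMap.sum_apply]
  split_ifs with h
  · rw [Finset.sum_eq_single γ]
    · exact hv.eq
    · intro β _ hβ
      exact hv.ne hβ
    · intro hγ
      have h1 : γ ∉ H.supp := fun h2 => hγ (Finset.mem_filter.mpr ⟨h2, h⟩)
      rw [hv.eq_zero h1, map_zero]
  · refine Finset.sum_eq_zero (fun β hβ => hv.ne ?_)
    rintro rfl
    exact h (Finset.mem_filter.mp hβ).2

theorem p_cp (C : CA k Γ A) (H : Gr k Γ V) (γ : Γ) (n : ℤ) (v : V) :
    H.p γ (cp C H n v) = if C.dg γ = n then H.p γ v else 0 := by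
  refine H.ind (P := fun v => H.p γ (cp C H n v) = if C.dg γ = n then H.p γ v else 0) ?_ ?_ ?_ v
  · simp
  · intro x y hx hy
    rw [map_add, map_add, hx, hy]
    split_ifs
    · rw [map_add]
    · rw [add_zero]
  · intro α x hx
    rw [cp_in C hx]
    by_cases hγ : γ = α
    · subst hγ
      split_ifs
      · rfl
      · rw [map_zero]
    · rw [hx.ne hγ]
      split_ifs
      · exact hx.ne hγ
      · exact hx.ne hγ
      · exact map_zero _
      · exact map_zero _

theorem coeff_hp [Module.Finite k V] (C : CA k Γ A) (H : Gr k Γ V)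
    (hl : ∀ γ v, C.dg γ < 0 → H.p γ v = 0) (n : ℕ) :
    (hp C H).coeff n = (Module.finrank k (LinearMap.range (cp C H n)) : ℤ) := by
  have hW : ∀ γ (u : LinearMap.range (cp C H n)),
      H.p γ ((LinearMap.range (cp C H n)).subtype u) ∈
        LinearMap.range (LinearMap.range (cp C H n)).subtype := by
    rintro γ ⟨_, v, rfl⟩
    rw [Submodule.range_subtype]
    refine ⟨H.p γ v, ?_⟩
    change _ = H.p γ (cp C H n v)
    rw [cp_in C (H.in_p γ v), p_cp]
  have hinj : Function.Injective (LinearMap.range (cp C H n)).subtype :=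
    Submodule.injective_subtype _
  have e1 := dm_total (H.pull (LinearMap.range (cp C H n)).subtype hinj hW)
  have e2 : ∀ γ, dm (H.pull (LinearMap.range (cp C H n)).subtype hinj hW) γ =
      if C.dg γ = n then dm H γ else 0 := by
    intro γ
    have e3 : (LinearMap.range ((H.pull (LinearMap.range (cp C H n)).subtype hinj hW).p γ)).map
        (LinearMap.range (cp C H n)).subtype =
        if C.dg γ = n then LinearMap.range (H.p γ) else ⊥ := by
      apply le_antisymm
      · rintro _ ⟨_, ⟨⟨_, v, rfl⟩, rfl⟩, rfl⟩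
        rw [Gr.pull_p]
        change H.p γ (cp C H n v) ∈ _
        rw [p_cp]
        split_ifs
        · exact ⟨v, rfl⟩
        · exact Submodule.zero_mem _
      · split_ifs with h
        · rintro _ ⟨v, rfl⟩
          refine ⟨_, ⟨⟨H.p γ v, ⟨H.p γ v, ?_⟩⟩, rfl⟩, ?_⟩
          · rw [cp_in C (H.in_p γ v), if_pos h]
          · rw [Gr.pull_p]
            exact H.idem γ v
        · exact bot_le
    have e4 := (Submodule.equivMapOfInjective (LinearMap.range (cp C H n)).subtype hinj
      (LinearMap.range ((H.pull (LinearMap.range (cp C H n)).subtype hinj hW).p γ))).finrank_eq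
    rw [e3] at e4
    rw [dm, e4]
    by_cases h : C.dg γ = n
    · rw [if_pos h, if_pos h]
      rfl
    · rw [if_neg h, if_neg h]
      exact finrank_bot k V
  rw [← e1]
  push_cast
  unfold hp hw
  rw [finsetSum_coeff]
  refine Finset.sum_congr rfl (fun γ _ => ?_)
  rw [e2]
  unfold CA.w
  rw [show (dm H γ : ℤ[X]) = Polynomial.C ((dm H γ : ℤ)) by simp, coeff_C_mul_X_pow]
  by_cases hγ : C.dg γ < 0
  · have h4 : dm H γ = 0 := dm_zero _ (fun a => hl γ a hγ)
    rw [h4]
    simp
  · by_cases h : C.dg γ = n
    · rw [if_pos h, if_pos (by omega)]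
    · rw [if_neg h, if_neg (by omega)]
      rfl

end Pool.Agent.TGC
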