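import Pool.Agent.TGC.Brg
import Pool.Agent.TGC.Coarse

/-!
# TGC-BRGH: the Hilbert function in the sense of Mathlib

The projections of a colour commutative graded algebra are the ones of the decomposition in the
sense of Mathlib, the coefficient of `X ^ n` in the Hilbert polynomial is the dimension of the
sum of the components of integer degree `n`, and the degree of the Hilbert polynomial is the
largest integer degree with a nonzero component.
-/

set_option autoImplicit false

noncomputable section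

universe u v

namespace Pool.Agent.TGC

open Polynomial

variable {k A : Type u} {Γ : Type v} [Field k] [AddCommGroup Γ] [Ring A] [Algebra k A]

theorem CA_p [DecidableEq Γ] (𝒜 : Γ → Submodule k A) [GradedAlgebra 𝒜] (C : CA k Γ A)
    (hp : ∀ γ a, C.p γ a ∈ 𝒜 γ) (γ : Γ) (a : A) : C.p γ a = dproj 𝒜 γ a := by
  conv_rhs => rw [← C.toGr.total a]
  rw [map_sum, Finset.sum_congr rfl (fun α _ => dproj_of_mem 𝒜 γ α (hp α a)),
    Finset.sum_ite_eq]
  split_ifs with h
  · rfl
  · exact C.toGr.p_notMem h a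

private theorem low_zero (C : CA k Γ A) (γ : Γ) (a : A) (h : C.dg γ < 0) : C.p γ a = 0 := by
  refine C.pos γ a ?_ h.le
  rintro rfl
  rw [map_zero] at h
  exact lt_irrefl _ h

theorem coeff_H [Module.Finite k A] [DecidableEq Γ] (𝒜 : Γ → Submodule k A) [GradedAlgebra 𝒜]
    (C : CA k Γ A) (hpp : ∀ γ a, C.p γ a ∈ 𝒜 γ) (n : ℕ) : (hp C C.toGr).coeff n =
      (Module.finrank k (⨆ (γ : Γ) (_ : C.dg γ = n), 𝒜 γ : Submodule k A) : ℤ) := by
  have hR : LinearMap.range (cp C C.toGr (n : ℤ)) =
      (⨆ (γ : Γ) (_ : C.dg γ = n), 𝒜 γ : Submodule k A) := by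
    apply le_antisymm
    · rintro x ⟨a, rfl⟩
      unfold cp
      rw [LinearMap.sum_apply]
      refine Submodule.sum_mem _ (fun γ hγ => ?_)
      exact Submodule.mem_iSup_of_mem γ
        (Submodule.mem_iSup_of_mem (Finset.mem_filter.mp hγ).2 (hpp γ a))
    · refine iSup₂_le (fun γ hγ x hx => ?_)
      have hin : C.toGr.In γ x := by
        change C.p γ x = x
        rw [CA_p 𝒜 C hpp γ x, dproj_of_mem 𝒜 γ γ hx, if_pos rfl]
      refine ⟨x, ?_⟩
      rw [cp_in C hin, if_pos hγ]
  rw [coeff_hp C C.toGr (low_zero C) n, hR]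

theorem natDegree_H [Module.Finite k A] (C : CA k Γ A) (c : Γ) (s : ℕ) (hc : C.dg c = s)
    (hcn : ∃ a, C.p c a ≠ 0) (hs : ∀ γ a, (s : ℤ) < C.dg γ → C.p γ a = 0) :
    (hp C C.toGr).natDegree = s := by
  obtain ⟨a, ha⟩ := hcn
  refine le_antisymm (hp_deg C C.toGr s hs) (le_natDegree_of_ne_zero ?_)
  rw [coeff_hp C C.toGr (low_zero C) s]
  intro h0
  have h1 : Module.finrank k (LinearMap.range (cp C C.toGr (s : ℤ))) = 0 := by exact_mod_cast h0
  rw [Submodule.finrank_eq_zero] at h1
  have h2 : C.p c a ∈ LinearMap.range (cp C C.toGr (s : ℤ)) :=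
    ⟨C.p c a, by rw [cp_in C (C.toGr.in_p c a), if_pos hc]⟩
  rw [h1] at h2
  exact ha ((Submodule.mem_bot k).mp h2)

end Pool.Agent.TGC
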