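import Pool.Agent.TGC.Wt

/-!
# TGC-CYC: a graded module without symmetric or without antisymmetric forms is cyclic

PLAN.  Adapt `Pool/Agent/TG/Cyc.lean`, but the algebra is not commutative.
Let `P` be the `k`-subspace of `M` spanned by all `a • m` with `a ∈ A_α`, `α ≠ 0` (or
`C.p 0 a = 0`).  It is graded (`M.H.p γ` maps `P` to `P`).
For functionals `φ`, `ψ` on `M` which vanish on `P`: `a • m - c • m ∈ P` for
`C.p 0 a = algebraMap k A c`, so `T(m, n) = φ(m) ψ(n)` is in `Bil M M` (`bil_of`).
Suppose `φ` is homogeneous of degree `μ` (`φ (M.H.p μ m) = φ m` for all `m`) and `ψ` of degree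
`ν`.  Then `(fl T)(m, n) = ε(μ, ν) φ(n) ψ(m)` (check it on homogeneous elements: `fl_hom`; it is zero
unless `m ∈ M_ν`, `n ∈ M_μ`), and `T + e (fl T) ∈ Sy M e` (`fl_fl`, `he`), so it is `0`:
`φ(m) ψ(n) = - e ε(μ, ν) ψ(m) φ(n)` for all `m, n`.
If `P = ⊤` then `M = 0` by the last step (`x = 0`).  Otherwise there is a homogeneous
`x ∈ M_μ`, `x ∉ P`, and a functional `φ` with `φ(P) = 0`, `φ x ≠ 0`, and
`φ ∘ M.H.p μ` has the same properties.  For a homogeneous `y ∈ M_ν`, `y ∉ P + k x`, take `ψ` with
`ψ(P + k x) = 0`, `ψ y ≠ 0`, and `ψ ∘ M.H.p ν` has the same properties; contradiction with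
`m = x`, `n = y`.  So every homogeneous `y` is in `P + k x`, hence `M = P + k x`.
Last step: `M = A x` where `M = P + k x`: by induction on `n` all
`y ∈ M_γ` with `deg γ < n` are in `A x` (the homogeneous component of degree `γ` of an element of
`P` is a sum of elements `a • m` with `a ∈ A_α`, `m ∈ M_(γ - α)`, `deg α > 0` or `a = 0`
(`C.pos`)); all degrees of `M` are nonnegative (`hl`).
-/

set_option autoImplicit false

noncomputable section

universe u v

namespace Pool.Agent.TGC

open Pool.Agent.TG (Du BF ev bcomp ev_bcomp ev_add ev_smul ev_sub ev_zero_left ev_zero_right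
  ev_add_left ev_add_right ev_smul_left ev_smul_right ev_sum_left ev_sum_right ev_sum)

variable {k A : Type u} {Γ : Type v} [Field k] [AddCommGroup Γ] [Ring A] [Algebra k A]
  {C : CA k Γ A}

/-- the span of all products `a • m` with `a` without component of degree `0` -/
private def cycP (M : GM C) : Submodule k M.X :=
  Submodule.span k {y | ∃ (a : A) (m : M.X), C.p 0 a = 0 ∧ y = a • m}

private theorem cycP_smul (M : GM C) {a : A} (ha : C.p 0 a = 0) (m : M.X) : a • m ∈ cycP M :=
  Submodule.subset_span ⟨a, m, ha, rfl⟩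

private theorem cyc_expand (M : GM C) (a : A) (m : M.X) (γ : Γ) :
    M.H.p γ (a • m) = ∑ α ∈ C.supp, ∑ ν ∈ M.H.supp, M.H.p γ (C.p α a • M.H.p ν m) := by
  have h1 : a • m = ∑ α ∈ C.supp, ∑ ν ∈ M.H.supp, C.p α a • M.H.p ν m := by
    conv_lhs => rw [← C.total a, ← M.H.total m]
    rw [Finset.sum_smul]
    exact Finset.sum_congr rfl (fun α _ => Finset.smul_sum)
  rw [h1, map_sum]
  exact Finset.sum_congr rfl (fun α _ => map_sum _ _ _)

private theorem cycP_graded (M : GM C) (γ : Γ) {y : M.X} (hy : y ∈ cycP M) :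
    M.H.p γ y ∈ cycP M := by
  classical
  unfold cycP at hy
  induction hy using Submodule.span_induction with
  | mem y hy =>
    obtain ⟨a, m, ha, rfl⟩ := hy
    rw [cyc_expand]
    refine Submodule.sum_mem _ (fun α _ => Submodule.sum_mem _ (fun ν _ => ?_))
    have h1 : M.H.In (α + ν) (C.p α a • M.H.p ν m) :=
      M.smul_in (C.toGr.in_p α a) (M.H.in_p ν m)
    rw [h1.ite γ]
    split_ifs
    · refine cycP_smul M ?_ _
      by_cases h0 : (0 : Γ) = α
      · rw [← h0, ha, map_zero]
      · exact C.orth 0 α a h0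
    · exact Submodule.zero_mem _
  | zero => rw [map_zero]; exact Submodule.zero_mem _
  | add x y _ _ hx hy => rw [map_add]; exact Submodule.add_mem _ hx hy
  | smul c x _ hx => rw [map_smul]; exact Submodule.smul_mem _ _ hx

private theorem cyc_fun (M : GM C) (φ : M.X →ₗ[k] k) (hφ : ∀ m ∈ cycP M, φ m = 0) (a : A) (c : k)
    (hc : C.p 0 a = algebraMap k A c) (m : M.X) : φ (a • m) = c * φ m := by
  have h1 : C.p 0 (a - algebraMap k A c) = 0 := by
    rw [map_sub, ← hc, C.idem, sub_self]
  have h3 := hφ _ (cycP_smul M h1 m)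
  rw [sub_smul, map_sub, algebraMap_smul, φ.map_smul, smul_eq_mul] at h3
  exact sub_eq_zero.mp h3

private theorem cyc_fhom (M : GM C) (φ : M.X →ₗ[k] k) {μ ν : Γ} (hμ : ∀ m, φ (M.H.p μ m) = φ m)
    {m : M.X} (hm : M.H.In ν m) (h : μ ≠ ν) : φ m = 0 := by
  rw [← hμ m, hm.ne h, map_zero]

private theorem cyc_key (M : GM C) (e : k) (he : e * e = 1)
    (hS : Module.finrank k (Sy M e) = 0) (φ ψ : M.X →ₗ[k] k)
    (hφ : ∀ m ∈ cycP M, φ m = 0) (hψ : ∀ m ∈ cycP M, ψ m = 0) (μ ν : Γ)
    (hμ : ∀ m, φ (M.H.p μ m) = φ m) (hν : ∀ m, ψ (M.H.p ν m) = ψ m) {α β : Γ} {m n : M.X}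
    (hm : M.H.In α m) (hn : M.H.In β n) :
    φ m * ψ n + e * (C.ε β α * (φ n * ψ m)) = 0 := by
  let T : BF k M.X M.X := BF.mk (fun m n => φ m * ψ n)
    (by intro v v' w; simp only [map_add]; ring)
    (by intro c v w; simp only [map_smul, smul_eq_mul]; ring)
    (by intro v w w'; simp only [map_add]; ring)
    (by intro c v w; simp only [map_smul, smul_eq_mul]; ring)
  have hT : T ∈ Bil M M := by
    refine bil_of (fun α μ' ν' a m n ha _ _ => ?_)
    change φ (a • m) * ψ n = C.ε ν' α * (φ m * ψ (a • n))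
    by_cases h0 : (0 : Γ) = α
    · obtain ⟨c, hc⟩ := C.conn a
      rw [cyc_fun M φ hφ a c hc, cyc_fun M ψ hψ a c hc, ← h0, C.ε_zero']
      ring
    · have h1 : C.p 0 a = 0 := ha.ne h0
      rw [hφ _ (cycP_smul M h1 m), hψ _ (cycP_smul M h1 n)]
      ring
  have hB : T + e • fl M M T ∈ Sy M e := by
    refine ⟨Submodule.add_mem _ hT (Submodule.smul_mem _ _ (fl_mem hT)), ?_⟩
    rw [map_add, map_smul, fl_fl, smul_add, smul_smul, he, one_smul, add_comm]
  have hfS : Module.Finite k (Sy M e) := by
    have : Module.Finite k (BF k M.X M.X) := inferInstance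
    infer_instance
  have hsub : Subsingleton (Sy M e) := Module.finrank_zero_iff.mp hS
  have h0 : (⟨T + e • fl M M T, hB⟩ : Sy M e) = 0 := Subsingleton.elim _ _
  have h1 : T + e • fl M M T = 0 := congrArg Subtype.val h0
  have h2 : ev (T + e • fl M M T) m n = 0 := by rw [h1]; rfl
  rw [ev_add, ev_smul, fl_hom M M T hm hn] at h2
  exact h2

private theorem cyc_last (M : GM C) (hl : M.low 0) (x : M.X) (μ : Γ) (hx : M.H.In μ x)
    (hall : ∀ y : M.X, y ∈ cycP M ⊔ Submodule.span k {x}) :
    ∀ m : M.X, ∃ a : A, a • x = m := by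
  classical
  have key : ∀ (n : ℕ) (γ : Γ) (y : M.X), M.H.In γ y → C.dg γ < n →
      y ∈ Submodule.span A {x} := by
    intro n
    induction n with
    | zero =>
      intro γ y hy hd
      have h1 : y = 0 := by
        rw [← hy.eq]
        exact hl γ y (by exact_mod_cast hd)
      rw [h1]
      exact Submodule.zero_mem _
    | succ n ih =>
      intro γ y hy hd
      have hP : ∀ z ∈ cycP M, M.H.p γ z ∈ Submodule.span A {x} := by
        intro z hz
        unfold cycP at hz
        induction hz using Submodule.span_induction with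
        | mem z hz =>
          obtain ⟨a, m, ha, rfl⟩ := hz
          rw [cyc_expand]
          refine Submodule.sum_mem _ (fun α _ => Submodule.sum_mem _ (fun ν _ => ?_))
          have h1 : M.H.In (α + ν) (C.p α a • M.H.p ν m) :=
            M.smul_in (C.toGr.in_p α a) (M.H.in_p ν m)
          rw [h1.ite γ]
          split_ifs with hγ
          · by_cases h0 : α = 0
            · rw [h0, ha, zero_smul]
              exact Submodule.zero_mem _
            · by_cases hdα : C.dg α ≤ 0
              · rw [C.pos α a h0 hdα, zero_smul]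
                exact Submodule.zero_mem _
              · refine Submodule.smul_mem _ _ (ih ν _ (M.H.in_p ν m) ?_)
                rw [hγ, map_add] at hd
                push_cast at hd
                omega
          · exact Submodule.zero_mem _
        | zero => rw [map_zero]; exact Submodule.zero_mem _
        | add x y _ _ hx hy => rw [map_add]; exact Submodule.add_mem _ hx hy
        | smul c x' _ hx' =>
          rw [map_smul, ← algebraMap_smul A c]
          exact Submodule.smul_mem _ _ hx'
      obtain ⟨z, hz, w, hw, hzw⟩ := Submodule.mem_sup.mp (hall y)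
      obtain ⟨c, hc⟩ := Submodule.mem_span_singleton.mp hw
      rw [← hy.eq, ← hzw, ← hc, map_add, map_smul, hx.ite γ]
      refine Submodule.add_mem _ (hP z hz) ?_
      split_ifs
      · rw [← algebraMap_smul A c]
        exact Submodule.smul_mem _ _ (Submodule.mem_span_singleton_self x)
      · rw [smul_zero]
        exact Submodule.zero_mem _
  intro m
  refine Submodule.mem_span_singleton.mp ?_
  refine M.H.ind (P := fun m => m ∈ Submodule.span A {x}) (Submodule.zero_mem _)
    (fun y z hy hz => Submodule.add_mem _ hy hz) ?_ m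
  intro γ y hy
  refine key ((C.dg γ).toNat + 1) γ y hy ?_
  push_cast
  have := Int.self_le_toNat (C.dg γ)
  omega

theorem cyc_gen (M : GM C) (hl : M.low 0) (e : k) (he : e * e = 1)
    (hS : Module.finrank k (Sy M e) = 0) : ∃ x : M.X, ∀ m : M.X, ∃ a : A, a • x = m := by
  classical
  by_cases htop : ∀ y : M.X, y ∈ cycP M
  · exact ⟨0, cyc_last M hl 0 0 (M.H.in_zero 0) (fun y => Submodule.mem_sup_left (htop y))⟩
  obtain ⟨μ, x, hx, hxP⟩ : ∃ (μ : Γ) (x : M.X), M.H.In μ x ∧ x ∉ cycP M := by
    by_contra hcon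
    push Not at hcon
    exact htop (fun y => M.H.ind (P := fun y => y ∈ cycP M) (Submodule.zero_mem _)
      (fun y z hy hz => Submodule.add_mem _ hy hz) (fun γ y hy => hcon γ y hy) y)
  refine ⟨x, cyc_last M hl x μ hx (fun y => ?_)⟩
  refine M.H.ind (P := fun y => y ∈ cycP M ⊔ Submodule.span k {x}) (Submodule.zero_mem _)
    (fun y z hy hz => Submodule.add_mem _ hy hz) ?_ y
  intro ν y hy
  by_contra hyP
  obtain ⟨φ, hφx, hφ⟩ := Submodule.exists_dual_map_eq_bot_of_notMem (p := cycP M) hxP inferInstance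
  have hφ' : ∀ m ∈ cycP M, φ m = 0 := by
    intro m hm
    have : φ m ∈ (cycP M).map φ := Submodule.mem_map_of_mem hm
    rw [hφ] at this
    exact (Submodule.mem_bot k).mp this
  obtain ⟨ψ, hψy, hψ⟩ := Submodule.exists_dual_map_eq_bot_of_notMem
    (p := cycP M ⊔ Submodule.span k {x}) hyP inferInstance
  have hψ0 : ∀ m ∈ cycP M ⊔ Submodule.span k {x}, ψ m = 0 := by
    intro m hm
    have : ψ m ∈ (cycP M ⊔ Submodule.span k {x}).map ψ := Submodule.mem_map_of_mem hm
    rw [hψ] at this
    exact (Submodule.mem_bot k).mp this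
  have h := cyc_key M e he hS (φ.comp (M.H.p μ)) (ψ.comp (M.H.p ν))
    (fun m hm => hφ' _ (cycP_graded M μ hm))
    (fun m hm => hψ0 _ (Submodule.mem_sup_left (cycP_graded M ν hm))) μ ν
    (fun m => congrArg φ (M.H.idem μ m)) (fun m => congrArg ψ (M.H.idem ν m)) hx hy
  have hψx : ψ (M.H.p ν x) = 0 := by
    rw [hx.ite ν]
    split_ifs
    · exact hψ0 x (Submodule.mem_sup_right (Submodule.mem_span_singleton_self x))
    · exact map_zero ψ
  simp only [LinearMap.comp_apply] at h
  rw [hψx, hx.eq, hy.eq, mul_zero, mul_zero, mul_zero, add_zero] at h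
  exact absurd h (mul_ne_zero hφx hψy)

end Pool.Agent.TGC
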