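import Pool.Agent.TGC.Fin
import Pool.Agent.TGC.Cyc

/-!
# TGC-CORE: the theorem in the language of the project
-/

set_option autoImplicit false

noncomputable section

universe u v

namespace Pool.Agent.TGC

open CategoryTheory

variable {k A : Type u} {Γ : Type v} [Field k] [AddCommGroup Γ] [Ring A] [Algebra k A]
  {C : CA k Γ A}

theorem core_alg [Module.Finite k A] (C : CA k Γ A) (h2 : (2 : k) ≠ 0) (c : Γ) (s : ℕ)
    (hc : C.dg c = s) (hs : ∀ γ a, (s : ℤ) < C.dg γ → C.p γ a = 0)
    (hv : ∀ i : ℕ, 1 ≤ i → i ≤ 3 * s + 2 →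
      Subsingleton (Abelian.Ext.{u} (ModuleCat.of A (Da k A)) (ModuleCat.of A A) i)) :
    Module.Injective A A := by
  by_cases hA : Subsingleton A
  · exact ⟨fun X Y _ _ _ _ f hf g => ⟨0, fun x => Subsingleton.elim _ _⟩⟩
  have hA' : Nontrivial A := not_subsingleton_iff_nontrivial.mp hA
  obtain ⟨e⟩ := dbl (k := k) C c
  have hv' : Van (daM C c) (3 * s + 2) := by
    intro i h1 hi
    have h3 := hv i h1 (by omega)
    let E : ModuleCat.of A A ≅ ModuleCat.of A (Dp (daM C c)) := e.toModuleIso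
    refine subsingleton_of_forall_eq 0 (fun x => ?_)
    have h4 : x.comp (Abelian.Ext.mk₀ E.inv) (add_zero i) = 0 := @Subsingleton.elim _ h3 _ _
    have h5 : (x.comp (Abelian.Ext.mk₀ E.inv) (add_zero i)).comp (Abelian.Ext.mk₀ E.hom)
        (add_zero i) = x := by
      rw [Abelian.Ext.comp_assoc_of_second_deg_zero, Abelian.Ext.mk₀_comp_mk₀, E.inv_hom_id,
        Abelian.Ext.comp_mk₀_id]
    rw [← h5, h4, Abelian.Ext.zero_comp]
  have hl : (daM C c).low 0 := by
    intro γ φ hγ
    refine Da.ext (fun x => ?_)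
    change Da.fn φ (C.p (c - γ) x) = 0
    rw [hs (c - γ) x (by rw [map_sub, hc]; push_cast at hγ; omega), map_zero]
  have hcyc : ∃ x : Da k A, ∀ m : Da k A, ∃ a : A, a • x = m := by
    rcases sy_zero h2 C c s hc hs hv' with h | h
    · exact cyc_gen (daM C c) hl 1 (by ring) h
    · exact cyc_gen (daM C c) hl (-1) (by ring) h
  obtain ⟨x, hx⟩ := hcyc
  let f : A →ₗ[A] Da k A := LinearMap.toSpanSingleton A (Da k A) x
  have hsurj : Function.Surjective f := by
    intro m
    obtain ⟨a, ha⟩ := hx m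
    exact ⟨a, by rw [← ha]; rfl⟩
  have hinj : Function.Injective f := by
    have h1 : Function.Surjective (f.restrictScalars k) := hsurj
    have h2 : Function.Injective (f.restrictScalars k) :=
      (LinearMap.injective_iff_surjective_of_finrank_eq_finrank finrank_da.symm).mpr h1
    exact h2
  let φ : A ≃ₗ[A] Da k A := LinearEquiv.ofBijective f ⟨hinj, hsurj⟩
  have hI : Module.Injective A (Da k A) := da_inj
  refine ⟨fun X Y _ _ _ _ f hf g => ?_⟩
  obtain ⟨h, hh⟩ := hI.out f hf (φ.toLinearMap ∘ₗ g)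
  refine ⟨φ.symm.toLinearMap ∘ₗ h, fun x => ?_⟩
  rw [LinearMap.comp_apply, hh]
  simp

end Pool.Agent.TGC
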