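import Pool.Agent.TGC.DualH
import Pool.Agent.TGC.Hp

/-!
# TGC-COREA: auxiliary results on the dual of the algebra

PLAN.  `coeff_zero_A`: unfold `hp`, `hw`, `C.w`; a term with `(deg γ).toNat = 0` and
`dm C.toGr γ ≠ 0` has `γ = 0` (`C.pos`, `C.dm_nonneg`, `dm_zero`); and `dm C.toGr 0 = 1`: the
range of `C.p 0` is the line spanned by `1` (`C.conn`, `C.one_in`).
-/

set_option autoImplicit false

noncomputable section

universe u v

namespace Pool.Agent.TGC

open CategoryTheory Polynomial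

variable {k A : Type u} {Γ : Type v} [Field k] [AddCommGroup Γ] [Ring A] [Algebra k A]

theorem van_da [Module.Finite k A] (C : CA k Γ A) (c : Γ) (s : ℕ)
    (hv : ∀ i : ℕ, 1 ≤ i → i ≤ 3 * s + 2 →
      Subsingleton (Abelian.Ext.{u} (ModuleCat.of A (Da k A)) (ModuleCat.of A A) i)) :
    Van (daM C c) (3 * s + 2) := by
  obtain ⟨e⟩ := dbl (k := k) C c
  intro i h1 hi
  have h3 := hv i h1 (by omega)
  let E : ModuleCat.of A A ≅ ModuleCat.of A (Dp (daM C c)) := e.toModuleIso
  refine subsingleton_of_forall_eq 0 (fun x => ?_)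
  have h4 : x.comp (Abelian.Ext.mk₀ E.inv) (add_zero i) = 0 := @Subsingleton.elim _ h3 _ _
  have h5 : (x.comp (Abelian.Ext.mk₀ E.inv) (add_zero i)).comp (Abelian.Ext.mk₀ E.hom)
      (add_zero i) = x := by
    rw [Abelian.Ext.comp_assoc_of_second_deg_zero, Abelian.Ext.mk₀_comp_mk₀, E.inv_hom_id,
      Abelian.Ext.comp_mk₀_id]
  rw [← h5, h4, Abelian.Ext.zero_comp]

/-- If `A^*` is cyclic then `A` is injective. -/
theorem inj_of_cyc [Module.Finite k A] (C : CA k Γ A)
    (hcyc : ∃ x : Da k A, ∀ m : Da k A, ∃ a : A, a • x = m) : Module.Injective A A := by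
  obtain ⟨x, hx⟩ := hcyc
  let f : A →ₗ[A] Da k A := LinearMap.toSpanSingleton A (Da k A) x
  have hsurj : Function.Surjective f := by
    intro m
    obtain ⟨a, ha⟩ := hx m
    exact ⟨a, by rw [← ha]; rfl⟩
  have hinj : Function.Injective f := by
    have h1 : Function.Surjective (f.restrictScalars k) := hsurj
    have h2 : Function.Injective (f.restrictScalars k) :=
      (LinearMap.injective_iff_surjective_of_finrank_eq_finrank finrank_da.symm).mpr h1
    exact h2
  let φ : A ≃ₗ[A] Da k A := LinearEquiv.ofBijective f ⟨hinj, hsurj⟩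
  have hI : Module.Injective A (Da k A) := da_inj
  refine ⟨fun X Y _ _ _ _ f hf g => ?_⟩
  obtain ⟨h, hh⟩ := hI.out f hf (φ.toLinearMap ∘ₗ g)
  refine ⟨φ.symm.toLinearMap ∘ₗ h, fun x => ?_⟩
  rw [LinearMap.comp_apply, hh]
  simp

theorem coeff_zero_A [Module.Finite k A] [Nontrivial A] (C : CA k Γ A) :
    (hp C C.toGr).coeff 0 = 1 := by
  have hd0 : dm C.toGr 0 = 1 := by
    have h1 : LinearMap.range (C.p 0) = k ∙ (1 : A) := by
      apply le_antisymm
      · rintro _ ⟨a, rfl⟩
        obtain ⟨c, hc⟩ := C.conn a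
        rw [hc, Submodule.mem_span_singleton]
        exact ⟨c, (Algebra.algebraMap_eq_smul_one c).symm⟩
      · rw [Submodule.span_singleton_le_iff_mem]
        exact ⟨1, C.one_in⟩
    rw [dm, h1, finrank_span_singleton one_ne_zero]
  classical
  have h2 : hp C C.toGr = ∑ γ ∈ insert 0 C.supp, (dm C.toGr γ : ℤ[X]) * C.w γ :=
    hw_eq _ _ _ (fun γ hγ => dm_notMem _ (fun h => hγ (Finset.mem_insert_of_mem h)))
  have h3 : ∀ γ ∈ insert 0 C.supp, ((dm C.toGr γ : ℤ[X]) * C.w γ).coeff 0 =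
      if γ = 0 then 1 else 0 := by
    intro γ _
    unfold CA.w
    rw [show (dm C.toGr γ : ℤ[X]) = Polynomial.C ((dm C.toGr γ : ℤ)) by simp, coeff_C_mul_X_pow]
    by_cases hγ : γ = 0
    · rw [hγ, map_zero, Int.toNat_zero, if_pos rfl, if_pos rfl, hd0]
      rfl
    · rw [if_neg hγ]
      split_ifs with h
      · have h4 : dm C.toGr γ = 0 := dm_zero _ (fun a => C.pos γ a hγ (by omega))
        rw [h4]
        rfl
      · rfl
  rw [h2, finsetSum_coeff, Finset.sum_congr rfl h3, Finset.sum_ite_eq',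
    if_pos (Finset.mem_insert_self 0 _)]

end Pool.Agent.TGC
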