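import Pool.Agent.TGC.Alg

/-!
# TGC-MAPS: the maps of the four term sequence

For a graded exact sequence `0 → N → F → M → 0` the maps are
`mA : S^e(M) → S^e(F)` (pull back), `mB : S^e(F) → Bil(N, F)` (restriction),
`mC : Bil(N, F) → S^(-e)(N)`, `C ↦ K - e (fl K)` with `K(n, n') = C(n, i n')`.
-/

set_option autoImplicit false

noncomputable section

universe u v

namespace Pool.Agent.TGC

open Pool.Agent.TG (Du BF ev bcomp ev_bcomp ev_add ev_smul ev_sub)

variable {k A : Type u} {Γ : Type v} [Field k] [AddCommGroup Γ] [Ring A] [Algebra k A]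
  {C : CA k Γ A}

/-- A short exact sequence `0 → N → F → M → 0` of graded modules. -/
structure Ex (N F M : GM C) where
  /-- the inclusion -/
  i : N.X →ₗ[A] F.X
  /-- the projection -/
  π : F.X →ₗ[A] M.X
  hi : Function.Injective i
  hπ : Function.Surjective π
  hex : LinearMap.range i = LinearMap.ker π
  gi : ∀ γ n, i (N.H.p γ n) = F.H.p γ (i n)
  gπ : ∀ γ f, π (F.H.p γ f) = M.H.p γ (π f)

/-- `i` as a `k`-linear map -/
def Ex.ik {N F M : GM C} (E : Ex N F M) : N.X →ₗ[k] F.X := E.i.restrictScalars k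

/-- `π` as a `k`-linear map -/
def Ex.πk {N F M : GM C} (E : Ex N F M) : F.X →ₗ[k] M.X := E.π.restrictScalars k

section

variable {N F M : GM C} (E : Ex N F M)

theorem Ex.ik_apply (n : N.X) : E.ik n = E.i n := rfl

theorem Ex.πk_apply (f : F.X) : E.πk f = E.π f := rfl

theorem Ex.gik : Hom0 N.H F.H E.ik := E.gi

theorem Ex.gπk : Hom0 F.H M.H E.πk := E.gπ

theorem Ex.R_i (a : A) (n : N.X) : E.i (N.R a n) = F.R a (E.i n) := R_map E.i E.gi a n

theorem Ex.R_π (a : A) (f : F.X) : E.π (F.R a f) = M.R a (E.π f) := R_map E.π E.gπ a f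

theorem Ex.π_i (n : N.X) : E.π (E.i n) = 0 :=
  LinearMap.mem_ker.mp (E.hex ▸ LinearMap.mem_range_self E.i n)

theorem Ex.exists_i {f : F.X} (h : E.π f = 0) : ∃ n, E.i n = f := by
  have h1 : f ∈ LinearMap.range E.i := by
    rw [E.hex]
    exact h
  exact h1

/-- pull back of a balanced form along `π` in both variables -/
theorem Ex.pull_mem {B : BF k M.X M.X} (hB : B ∈ Bil M M) : bcomp E.πk E.πk B ∈ Bil F F := by
  intro a m n
  simp only [ev_bcomp, E.πk_apply, map_smul, E.R_π]
  exact hB a _ _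

/-- restriction of a balanced form to `N` in the first variable -/
theorem Ex.restr_mem {P : GM C} {B : BF k F.X P.X} (hB : B ∈ Bil F P) :
    bcomp E.ik LinearMap.id B ∈ Bil N P := by
  intro a m n
  simp only [ev_bcomp, E.ik_apply, map_smul, LinearMap.id_apply]
  exact hB a _ _

/-- restriction of a balanced form to `N` in the second variable -/
theorem Ex.restr_mem' {P : GM C} {B : BF k P.X F.X} (hB : B ∈ Bil P F) :
    bcomp LinearMap.id E.ik B ∈ Bil P N := by
  intro a m n
  simp only [ev_bcomp, E.ik_apply, LinearMap.id_apply, E.R_i]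
  exact hB a _ _

/-- pull back of a balanced form along `π` in the second variable -/
theorem Ex.pull_mem' {P : GM C} {B : BF k P.X M.X} (hB : B ∈ Bil P M) :
    bcomp LinearMap.id E.πk B ∈ Bil P F := by
  intro a m n
  simp only [ev_bcomp, E.πk_apply, LinearMap.id_apply, E.R_π]
  exact hB a _ _

theorem hom0_id {V : Type u} [AddCommGroup V] [Module k V] (G : Gr k Γ V) :
    Hom0 G G LinearMap.id := fun _ _ => rfl

/-- pull back of forms -/
def mA (e : k) : Sy M e →ₗ[k] Sy F e where
  toFun B := ⟨bcomp E.πk E.πk B.1, by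
    refine ⟨E.pull_mem B.2.1, ?_⟩
    rw [fl_bcomp E.πk E.πk E.gπk E.gπk, B.2.2, map_smul]⟩
  map_add' B B' := Subtype.ext (BF.ext (fun v w => by simp))
  map_smul' c B := Subtype.ext (BF.ext (fun v w => by simp))

theorem mA_ev (e : k) (B : Sy M e) (f f' : F.X) :
    ev (mA E e B).1 f f' = ev B.1 (E.π f) (E.π f') := rfl

theorem mA_val (e : k) (B : Sy M e) : (mA E e B).1 = bcomp E.πk E.πk B.1 := rfl

/-- restriction of forms -/
def mB (e : k) : Sy F e →ₗ[k] Bil N F where
  toFun B := ⟨bcomp E.ik LinearMap.id B.1, E.restr_mem B.2.1⟩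
  map_add' B B' := Subtype.ext (BF.ext (fun v w => by simp))
  map_smul' c B := Subtype.ext (BF.ext (fun v w => by simp))

theorem mB_ev (e : k) (B : Sy F e) (n : N.X) (f : F.X) :
    ev (mB E e B).1 n f = ev B.1 (E.i n) f := rfl

theorem mB_val (e : k) (B : Sy F e) : (mB E e B).1 = bcomp E.ik LinearMap.id B.1 := rfl

/-- `C ↦ K - e (fl K)`, `K(n, n') = C(n, i n')` -/
def mC (e : k) (he : e * e = 1) : Bil N F →ₗ[k] Sy N (-e) where
  toFun B := ⟨bcomp LinearMap.id E.ik B.1 - e • fl N N (bcomp LinearMap.id E.ik B.1), by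
    have h1 := E.restr_mem' B.2
    refine ⟨Submodule.sub_mem _ h1 (Submodule.smul_mem _ _ (fl_mem h1)), ?_⟩
    rw [map_sub, map_smul, fl_fl, smul_sub, smul_smul, neg_mul, he, neg_smul, neg_smul, one_smul]
    abel⟩
  map_add' B B' := Subtype.ext (by
    simp only [Submodule.coe_add, map_add, smul_add]
    abel)
  map_smul' c B := Subtype.ext (by
    simp only [Submodule.coe_smul, map_smul, smul_sub, RingHom.id_apply]
    rw [smul_comm c e])

theorem mC_val (e : k) (he : e * e = 1) (B : Bil N F) : (mC E e he B).1 =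
    bcomp LinearMap.id E.ik B.1 - e • fl N N (bcomp LinearMap.id E.ik B.1) := rfl

end

end Pool.Agent.TGC
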