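import Pool.Agent.TGC.Coarse
import Pool.Agent.TGC.Maps

/-!
# TGC-CYCS: cyclic modules by counting balanced forms (any characteristic)

PLAN.  Write `M_(n)` for the sum of the `M_γ` with `deg γ = n` (the range of `cp C M.H n`).
The coefficient of `X ^ 0` in `hp C C.toGr` is `1` (only `γ = 0` has `deg γ = 0` and a nonzero
component, which is `k`; `C.pos`, `C.conn`, `C.one_in`).  By `h1`, `coeff_hp` the space `M_(0)` is
one-dimensional, so it is spanned by a homogeneous `ω ∈ M_(γ0)`, `deg γ0 = 0`, `ω ≠ 0`.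
Claim by strong induction on `n`: every homogeneous `x ∈ M_γ`, `deg γ = n` is of the form `a ω`
with `a ∈ A_(γ - γ0)`.  This gives the theorem (`M.H.total`, `hl`).
`n = 0`: clear.  Let `n > 0` and let the claim be true for all `i < n`.
(F1) For `i < n` the map `A_(i) → M_(i)`, `a ↦ a ω` is surjective and the dimensions agree
(`h1`, `coeff_hp`), so it is injective.
(F2) Let `ψ : M → k` be a functional which vanishes on all `M_γ` with `deg γ ≠ n`.  There is
`B ∈ Bil M M` with `bilp .. δ B = 0` for `deg δ ≠ n` and `B(ω, y) = ψ y`.  Proof: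
if `a ω = 0` then `ψ(R_a y) = 0` for all `y` (first `a`, `y` homogeneous; if `deg a < n` then
`a = 0` by (F1); if `deg a = n` and `deg y = 0` then `y = c ω`, `R_a y` is a multiple of
`a ω = 0`; otherwise `deg (R_a y) ≠ n`; the components of `a` also annihilate `ω`).  So there is
a `k`-linear `B0 : M → Du k M` with `B0(a ω, y) = ψ(R_a y)` (extension from the range of
`a ↦ a ω`; `LinearMap.exists_extend`).  Let `B` be the sum of the components
`bilp M.H M.H δ B0` over the `δ` with `deg δ = n` (equivalently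
`B(x, y) = B0(x, y)` for `deg x + deg y = n` and `0` otherwise).  Balanced (`bil_of`):
both sides vanish unless `deg a + deg x + deg y = n`; if `deg x < n` then `x = b ω`,
`B0(a b ω, y) = ψ(R_(a b) y) = ψ(R_b (R_a y)) = B0(b ω, R_a y)`; if `deg x = n` then
`deg a = 0`, so `a` is a scalar (or zero).
(F3) Let `Φ : Bil_(n) → {ψ as in (F2)}`, `B ↦ B(ω, -)` (`Bil_(n)` = range of
`cp C (bilG M M) n`).  It is surjective by (F2), and the dimensions agree by
`h2`, `h1`, `coeff_hp` (the space of the `ψ` is dual to `M_(n)`).  So `Φ` is injective.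
If some `x ∈ M_γ`, `deg γ = n` is not in `A ω`, take a functional `χ` with `χ x ≠ 0` which
vanishes on `A ω` and on all `M_γ'` with `deg γ' ≠ n`
(compose with the projection `cp C M.H n`; `A ω` is graded) and `ω' : M → k` the functional
with `ω'(ω) = 1` which vanishes on `M_γ` for `deg γ ≠ 0`.  Then `B(x, y) = χ(x) ω'(y)` is in
`Bil M M` (`a x` for `deg a > 0`: `χ(a x) = 0` because for `deg (a x) = n` we have
`deg x < n`, `x ∈ A ω`; and `ω'(a y) = 0`), it is of degree `n`, nonzero, and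
`B(ω, -) = 0` since `χ(ω) = 0` (`n > 0`).  Contradiction.
-/

set_option autoImplicit false

noncomputable section

universe u v

namespace Pool.Agent.TGC

open Polynomial
open Pool.Agent.TG (Du BF ev bcomp ev_bcomp ev_add ev_smul ev_sub ev_zero_left ev_zero_right
  ev_add_left ev_add_right ev_smul_left ev_smul_right ev_sum_left ev_sum_right ev_sum)

variable {k A : Type u} {Γ : Type v} [Field k] [AddCommGroup Γ] [Ring A] [Algebra k A]
  {C : CA k Γ A}

section aux1

variable {V W : Type u} [AddCommGroup V] [Module k V] [AddCommGroup W] [Module k W]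

private theorem cs_cpi (H : Gr k Γ V) (n : ℤ) (v : V) :
    cp C H n (cp C H n v) = cp C H n v := by
  refine H.ind (P := fun v => cp C H n (cp C H n v) = cp C H n v) ?_ ?_ ?_ v
  · simp
  · intro x y hx hy
    simp only [map_add, hx, hy]
  · intro γ x hx
    rw [cp_in C hx]
    split_ifs with h
    · rw [cp_in C hx, if_pos h]
    · exact map_zero _

private theorem cs_hom {G : Gr k Γ V} {G' : Gr k Γ W} {f : V →ₗ[k] W} (hf : Hom0 G G' f)
    (n : ℤ) (v : V) : f (cp C G n v) = cp C G' n (f v) := by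
  refine G.ind (P := fun v => f (cp C G n v) = cp C G' n (f v)) ?_ ?_ ?_ v
  · simp
  · intro x y hx hy
    simp only [map_add, hx, hy]
  · intro γ x hx
    rw [cp_in C hx, cp_in C (hf.in hx)]
    split_ifs
    · rfl
    · exact map_zero _

private theorem cs_p (H : Gr k Γ V) (n : ℤ) (v : V) {γ : Γ} (hγ : C.dg γ ≠ n) :
    H.p γ (cp C H n v) = 0 := by
  refine H.ind (P := fun v => H.p γ (cp C H n v) = 0) ?_ ?_ ?_ v
  · simp
  · intro x y hx hy
    rw [map_add, map_add, hx, hy, add_zero]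
  · intro β x hx
    rw [cp_in C hx]
    split_ifs with h
    · exact hx.ne (fun h' => hγ (by rw [h', h]))
    · exact map_zero _

end aux1

private theorem cs_ev (M : GM C) (n : ℤ) (B : BF k M.X M.X) {μ ν : Γ} {x y : M.X}
    (hx : M.H.In μ x) (hy : M.H.In ν y) :
    ev (cp C (M.H.bil M.H) n B) x y = if C.dg (μ + ν) = n then ev B x y else 0 := by
  refine (M.H.bil M.H).ind (P := fun B => ev (cp C (M.H.bil M.H) n B) x y =
    if C.dg (μ + ν) = n then ev B x y else 0) ?_ ?_ ?_ B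
  · rw [map_zero]
    split_ifs <;> rfl
  · intro B B' h h'
    rw [map_add, ev_add, h, h', ev_add]
    split_ifs
    · rfl
    · exact add_zero _
  · intro δ B hB
    rw [cp_in C hB]
    by_cases h : μ + ν = δ
    · rw [h]
      split_ifs <;> rfl
    · have h3 : ev (bilp M.H M.H δ B) x y = 0 := bilp_ne M.H M.H B hx hy h
      have h4 : bilp M.H M.H δ B = B := hB
      rw [h4] at h3
      rw [h3]
      split_ifs
      · exact h3
      · exact h3
      · rfl
      · rfl

private theorem cs_low (M : GM C) (hl : M.low 0) {μ : Γ} {x : M.X} (hx : M.H.In μ x)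
    (h : C.dg μ < 0) : x = 0 := by
  rw [← hx.eq]
  exact hl μ x (by simpa using h)

private theorem cs_apos {α : Γ} {a : A} (ha : C.toGr.In α a) (h0 : α ≠ 0) (h : C.dg α ≤ 0) :
    a = 0 := by
  rw [← ha.eq]
  exact C.pos α a h0 h

private theorem cs_scal {a : A} (ha : C.toGr.In 0 a) : ∃ c : k, a = algebraMap k A c := by
  obtain ⟨c, hc⟩ := C.conn a
  exact ⟨c, ha.eq.symm.trans hc⟩

/-- `a ↦ a ω` -/
private def csu (M : GM C) (ω : M.X) : A →ₗ[k] M.X where
  toFun a := a • ω
  map_add' a b := add_smul a b ω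
  map_smul' c a := smul_assoc c a ω

private theorem csu_apply (M : GM C) (ω : M.X) (a : A) : csu M ω a = a • ω := rfl

private theorem cs_up (M : GM C) {γ0 : Γ} {ω : M.X} (hω : M.H.In γ0 ω) (α : Γ) (a : A) :
    csu M ω (C.p α a) = M.H.p (α + γ0) (csu M ω a) := by
  refine C.toGr.ind (P := fun a => csu M ω (C.p α a) = M.H.p (α + γ0) (csu M ω a)) ?_ ?_ ?_ a
  · simp
  · intro a b ha hb
    simp only [map_add, ha, hb]
  · intro β b hb
    have h1 : M.H.In (β + γ0) (csu M ω b) := M.smul_in hb hω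
    rw [hb.ite α, h1.ite (α + γ0)]
    by_cases h : α = β
    · rw [if_pos h, if_pos (by rw [h])]
    · rw [if_neg h, if_neg (fun h' => h (add_right_cancel h')), map_zero]

private theorem cs_ucp (M : GM C) {γ0 : Γ} {ω : M.X} (hω : M.H.In γ0 ω) (h0 : C.dg γ0 = 0)
    (n : ℤ) (a : A) : csu M ω (cp C C.toGr n a) = cp C M.H n (csu M ω a) := by
  refine C.toGr.ind (P := fun a => csu M ω (cp C C.toGr n a) = cp C M.H n (csu M ω a))
    ?_ ?_ ?_ a
  · simp
  · intro a b ha hb
    simp only [map_add, ha, hb]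
  · intro β b hb
    have h1 : M.H.In (β + γ0) (csu M ω b) := M.smul_in hb hω
    rw [cp_in C hb, cp_in C h1, map_add, h0, add_zero]
    split_ifs
    · rfl
    · exact map_zero _

private theorem cs_ih (M : GM C) (hl : M.low 0) {ω : M.X} {n : ℕ}
    (ih : ∀ i : ℕ, i < n → ∀ y, ∃ a : A, a • ω = cp C M.H i y) {μ : Γ} {x : M.X}
    (hx : M.H.In μ x) (h : C.dg μ < n) : ∃ b : A, b • ω = x := by
  by_cases hn : C.dg μ < 0
  · exact ⟨0, by rw [cs_low M hl hx hn, zero_smul]⟩
  · obtain ⟨b, hb⟩ := ih (C.dg μ).toNat (by omega) x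
    refine ⟨b, hb.trans ?_⟩
    rw [cp_in C hx, if_pos (by omega)]

private theorem cs_alow : ∀ (γ : Γ) (a : A), C.dg γ < 0 → C.p γ a = 0 := by
  intro γ a h
  refine C.pos γ a ?_ h.le
  rintro rfl
  rw [map_zero] at h
  exact lt_irrefl _ h

private theorem cs_mlow (M : GM C) (hl : M.low 0) : ∀ (γ : Γ) (x : M.X), C.dg γ < 0 →
    M.H.p γ x = 0 := fun γ x h => hl γ x (by simpa using h)

private theorem cs_inj [Module.Finite k A] (M : GM C) (hl : M.low 0) {γ0 : Γ} {ω : M.X}
    (hω : M.H.In γ0 ω) (h0 : C.dg γ0 = 0) (h1 : hp C M.H = hp C C.toGr) (i : ℕ)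
    (hi : ∀ y, ∃ a : A, a • ω = cp C M.H i y) {a : A} (ha : cp C C.toGr i a = a)
    (hz : a • ω = 0) : a = 0 := by
  have hm : ∀ b : LinearMap.range (cp C C.toGr (i : ℤ)), csu M ω b.1 ∈
      LinearMap.range (cp C M.H (i : ℤ)) := by
    rintro ⟨_, b, rfl⟩
    exact ⟨csu M ω b, (cs_ucp M hω h0 i b).symm⟩
  obtain ⟨f, hf⟩ : ∃ f : LinearMap.range (cp C C.toGr (i : ℤ)) →ₗ[k]
      LinearMap.range (cp C M.H (i : ℤ)), f = LinearMap.codRestrict _
        ((csu M ω) ∘ₗ (LinearMap.range (cp C C.toGr (i : ℤ))).subtype) hm := ⟨_, rfl⟩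
  have hfv : ∀ b, (f b).1 = b.1 • ω := by
    intro b
    rw [hf]
    rfl
  have e : Module.finrank k (LinearMap.range (cp C C.toGr (i : ℤ))) =
      Module.finrank k (LinearMap.range (cp C M.H (i : ℤ))) := by
    have e1 := coeff_hp C C.toGr cs_alow i
    have e2 := coeff_hp C M.H (cs_mlow M hl) i
    rw [h1, e1] at e2
    exact_mod_cast e2
  have hs : Function.Surjective f := by
    rintro ⟨_, y, rfl⟩
    obtain ⟨b, hb⟩ := hi y
    refine ⟨⟨cp C C.toGr i b, ⟨b, rfl⟩⟩, Subtype.ext ?_⟩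
    rw [hfv]
    change csu M ω (cp C C.toGr i b) = cp C M.H i y
    rw [cs_ucp M hω h0, csu_apply, hb, cs_cpi]
  have hj : Function.Injective f :=
    (LinearMap.injective_iff_surjective_of_finrank_eq_finrank e).mpr hs
  have h3 : f ⟨a, ⟨a, ha⟩⟩ = f 0 := by
    rw [map_zero]
    exact Subtype.ext ((hfv _).trans hz)
  exact congrArg Subtype.val (hj h3)

private theorem cs_ker (M : GM C) (hl : M.low 0) {γ0 : Γ} {ω : M.X}
    (hω : M.H.In γ0 ω) {n : ℕ}
    (hin : ∀ i : ℕ, i < n → ∀ a : A, cp C C.toGr i a = a → a • ω = 0 → a = 0)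
    (hsp : ∀ y, cp C M.H 0 y = y → ∃ c : k, y = c • ω) (ψ : M.X →ₗ[k] k)
    (hψ : ∀ y, ψ (cp C M.H n y) = ψ y) {a : A} (ha : a • ω = 0) (y : M.X) :
    ψ (M.R a y) = 0 := by
  have key : ∀ (α : Γ) (b : A), C.toGr.In α b → b • ω = 0 → ψ (M.R b y) = 0 := by
    intro α b hb hbω
    refine M.H.ind (P := fun y => ψ (M.R b y) = 0) ?_ ?_ ?_ y
    · simp
    · intro x y hx hy
      rw [map_add, map_add, hx, hy, add_zero]
    intro ν y hy
    rw [← hψ, cp_in C (M.R_in hb hy)]
    split_ifs with h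
    · rw [map_add] at h
      by_cases hν : C.dg ν < 0
      · rw [cs_low M hl hy hν, map_zero, map_zero]
      by_cases hα : C.dg α < n
      · have hb0 : b = 0 := by
          by_cases hα0 : C.dg α < 0
          · rw [← hb.eq]
            exact cs_alow α b hα0
          · exact hin (C.dg α).toNat (by omega) b (by rw [cp_in C hb, if_pos (by omega)]) hbω
        rw [hb0, map_zero, LinearMap.zero_apply, map_zero]
      · have hν0 : C.dg ν = 0 := by omega
        obtain ⟨c, hc⟩ := hsp y (by rw [cp_in C hy, if_pos hν0])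
        rw [hc, map_smul, M.R_hom hb hω, hbω, smul_zero, smul_zero, map_zero]
    · exact map_zero ψ
  rw [← C.total a, map_sum, LinearMap.sum_apply, map_sum]
  refine Finset.sum_eq_zero (fun α _ => key α _ (C.toGr.in_p α a) ?_)
  have h5 := cs_up M hω α a
  rw [csu_apply, csu_apply, ha, map_zero] at h5
  exact h5

private theorem cs_ext (M : GM C) (ω : M.X) (ψ : M.X →ₗ[k] k)
    (hker : ∀ a : A, a • ω = 0 → ∀ y, ψ (M.R a y) = 0) :
    ∃ B0 : BF k M.X M.X, ∀ (a : A) (y : M.X), ev B0 (a • ω) y = ψ (M.R a y) := by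
  obtain ⟨r, hr⟩ : ∃ r : A →ₗ[k] Du k M.X, ∀ a y, Du.fn (r a) y = ψ (M.R a y) := by
    refine ⟨{ toFun := fun a => Du.mk (ψ.comp (M.R a)), map_add' := ?_, map_smul' := ?_ },
      fun a y => rfl⟩
    · intro a b
      refine Du.ext (fun y => ?_)
      rw [Du.fn_add, Du.fn_mk, Du.fn_mk, Du.fn_mk]
      simp only [LinearMap.comp_apply, map_add, LinearMap.add_apply]
    · intro c a
      refine Du.ext (fun y => ?_)
      rw [RingHom.id_apply, Du.fn_smul, Du.fn_mk, Du.fn_mk]
      simp only [LinearMap.comp_apply, map_smul, LinearMap.smul_apply, smul_eq_mul]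
  obtain ⟨s, hs⟩ := LinearMap.exists_rightInverse_of_surjective (csu M ω).rangeRestrict
    (LinearMap.range_rangeRestrict _)
  obtain ⟨g, hg⟩ := LinearMap.exists_leftInverse_of_injective
    (LinearMap.range (csu M ω)).subtype (Submodule.ker_subtype _)
  refine ⟨r ∘ₗ s ∘ₗ g, fun a y => ?_⟩
  have h1 : g (a • ω) = (csu M ω).rangeRestrict a := LinearMap.congr_fun hg
    ((csu M ω).rangeRestrict a)
  have h2 : (csu M ω).rangeRestrict (s ((csu M ω).rangeRestrict a)) =
      (csu M ω).rangeRestrict a := LinearMap.congr_fun hs _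
  have h3 : s ((csu M ω).rangeRestrict a) • ω = a • ω := congrArg Subtype.val h2
  change Du.fn (r (s (g (a • ω)))) y = _
  rw [h1, hr]
  have h4 := hker (s ((csu M ω).rangeRestrict a) - a) (by rw [sub_smul, h3, sub_self]) y
  rw [map_sub, LinearMap.sub_apply, map_sub] at h4
  exact sub_eq_zero.mp h4

private theorem cs_form (M : GM C) (hl : M.low 0) {γ0 : Γ} {ω : M.X} (hω : M.H.In γ0 ω)
    (h0 : C.dg γ0 = 0) {n : ℕ} (ih : ∀ i : ℕ, i < n → ∀ y, ∃ a : A, a • ω = cp C M.H i y)
    (ψ : M.X →ₗ[k] k) (hψ : ∀ y, ψ (cp C M.H n y) = ψ y)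
    (hker : ∀ a : A, a • ω = 0 → ∀ y, ψ (M.R a y) = 0) :
    ∃ B ∈ Bil M M, cp C (M.H.bil M.H) n B = B ∧ ∀ y, ev B ω y = ψ y := by
  obtain ⟨B0, hB0⟩ := cs_ext M ω ψ hker
  refine ⟨cp C (M.H.bil M.H) n B0, ?_, cs_cpi _ _ _, ?_⟩
  · refine bil_of (fun α μ ν a x y ha hx hy => ?_)
    rw [cs_ev M n B0 (M.smul_in ha hx) hy, cs_ev M n B0 hx (M.smul_in ha hy),
      show μ + (α + ν) = α + μ + ν by abel]
    split_ifs with h
    · rw [map_add, map_add] at h
      by_cases hμ : C.dg μ < n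
      · obtain ⟨b, rfl⟩ := cs_ih M hl ih hx hμ
        rw [← mul_smul, hB0, hB0, M.R_mul, M.R_hom ha hy, map_smul, map_smul, smul_eq_mul]
      · by_cases hν : C.dg ν < 0
        · rw [cs_low M hl hy hν, smul_zero, ev_zero_right, ev_zero_right, mul_zero]
        · by_cases hα : α = 0
          · subst hα
            obtain ⟨c, rfl⟩ := cs_scal ha
            rw [algebraMap_smul, algebraMap_smul, ev_smul_left, ev_smul_right, C.ε_zero', one_mul]
          · have ha0 : a = 0 := cs_apos ha hα (by omega)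
            rw [ha0, zero_smul, zero_smul, ev_zero_left, ev_zero_right, mul_zero]
    · exact (mul_zero _).symm
  · intro y
    refine M.H.ind (P := fun y => ev (cp C (M.H.bil M.H) n B0) ω y = ψ y) ?_ ?_ ?_ y
    · rw [ev_zero_right, map_zero]
    · intro x y hx hy
      rw [ev_add_right, hx, hy, map_add]
    · intro ν y hy
      rw [cs_ev M n B0 hω hy, ← hψ y, cp_in C hy, map_add, h0, zero_add]
      split_ifs
      · have h5 := hB0 1 y
        rw [one_smul, M.R_one] at h5
        exact h5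
      · exact (map_zero ψ).symm

private theorem cs_bsub (M : GM C) : Hom0 (bilG M M) (M.H.bil M.H) (Bil M M).subtype :=
  fun δ B => bilG_p M M δ B

private theorem cs_blow (M : GM C) (hl : M.low 0) : ∀ (δ : Γ) (B : Bil M M), C.dg δ < 0 →
    (bilG M M).p δ B = 0 := by
  intro δ B hδ
  refine Subtype.ext ?_
  rw [bilG_p]
  refine bf_ext M.H M.H (fun μ ν x y hx hy => ?_)
  by_cases h : μ + ν = δ
  · by_cases hμ : C.dg μ < 0
    · rw [cs_low M hl hx hμ, ev_zero_left, ev_zero_left]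
    · have h3 : C.dg ν < 0 := by
        have h4 : C.dg μ + C.dg ν = C.dg δ := by rw [← h, map_add]
        omega
      rw [cs_low M hl hy h3, ev_zero_right, ev_zero_right]
  · exact bilp_ne M.H M.H B.1 hx hy h

private theorem cs_phi [Module.Finite k A] (M : GM C) (hl : M.low 0)
    (h1 : hp C M.H = hp C C.toGr) (h2 : hp C (bilG M M) = hp C C.toGr) {ω : M.X} {n : ℕ}
    (hform : ∀ ψ : M.X →ₗ[k] k, (∀ y, ψ (cp C M.H n y) = ψ y) →
      ∃ B ∈ Bil M M, cp C (M.H.bil M.H) n B = B ∧ ∀ y, ev B ω y = ψ y)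
    {B : BF k M.X M.X} (hB : B ∈ Bil M M) (hBn : cp C (M.H.bil M.H) n B = B)
    (hz : ∀ y, ev B ω y = 0) : B = 0 := by
  have hfin : Module.Finite k (Bil M M) := by
    have : Module.Finite k (BF k M.X M.X) := inferInstance
    infer_instance
  have hmem : ∀ (B : BF k M.X M.X) (hB : B ∈ Bil M M), cp C (M.H.bil M.H) n B = B →
      (⟨B, hB⟩ : Bil M M) ∈ LinearMap.range (cp C (bilG M M) (n : ℤ)) := by
    intro B hB hBn
    refine ⟨⟨B, hB⟩, Subtype.ext ?_⟩
    exact (cs_hom (cs_bsub M) (n : ℤ) ⟨B, hB⟩).trans hBn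
  obtain ⟨f, hf⟩ : ∃ f : LinearMap.range (cp C (bilG M M) (n : ℤ)) →ₗ[k]
      Module.Dual k (LinearMap.range (cp C M.H (n : ℤ))), ∀ b y, f b y = ev b.1.1 ω y.1 := by
    refine ⟨{ toFun := fun b => (Du.fn (b.1.1 ω)).comp
                (LinearMap.range (cp C M.H (n : ℤ))).subtype
              map_add' := fun b b' => LinearMap.ext (fun y => rfl)
              map_smul' := fun c b => LinearMap.ext (fun y => rfl) }, fun b y => rfl⟩
  have hy0 : ∀ y : LinearMap.range (cp C M.H (n : ℤ)), cp C M.H n y.1 = y.1 := by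
    rintro ⟨_, y, rfl⟩
    exact cs_cpi _ _ _
  have hs : Function.Surjective f := by
    intro θ
    obtain ⟨B', hB', hB'n, hB'e⟩ := hform (θ.comp (cp C M.H (n : ℤ)).rangeRestrict) (by
      intro y
      exact congrArg θ (Subtype.ext (cs_cpi _ _ _)))
    refine ⟨⟨⟨B', hB'⟩, hmem B' hB' hB'n⟩, LinearMap.ext (fun y => ?_)⟩
    rw [hf]
    refine (hB'e y.1).trans ?_
    exact congrArg θ (Subtype.ext (hy0 y))
  have e : Module.finrank k (LinearMap.range (cp C (bilG M M) (n : ℤ))) =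
      Module.finrank k (Module.Dual k (LinearMap.range (cp C M.H (n : ℤ)))) := by
    have e1 := coeff_hp C (bilG M M) (cs_blow M hl) n
    have e2 := coeff_hp C M.H (cs_mlow M hl) n
    rw [h1, ← h2, e1] at e2
    rw [Subspace.dual_finrank_eq]
    exact_mod_cast e2
  have hj : Function.Injective f := by
    have i1 : FiniteDimensional k (LinearMap.range (cp C (bilG M M) (n : ℤ))) := inferInstance
    have i2 : FiniteDimensional k (Module.Dual k (LinearMap.range (cp C M.H (n : ℤ)))) :=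
      inferInstance
    have h5 := @LinearMap.injective_iff_surjective_of_finrank_eq_finrank k
      (LinearMap.range (cp C (bilG M M) (n : ℤ))) _ _ _
      (Module.Dual k (LinearMap.range (cp C M.H (n : ℤ)))) _ _ i1 i2 e f
    exact h5.mpr hs
  have h3 : f ⟨⟨B, hB⟩, hmem B hB hBn⟩ = f 0 := by
    rw [map_zero]
    refine LinearMap.ext (fun y => ?_)
    rw [hf]
    exact hz y.1
  exact congrArg (fun b => b.1.1) (hj h3)

private theorem cs_step [Module.Finite k A] (M : GM C) (hl : M.low 0)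
    (h1 : hp C M.H = hp C C.toGr) (h2 : hp C (bilG M M) = hp C C.toGr) {γ0 : Γ} {ω : M.X}
    (hω : M.H.In γ0 ω) (h0 : C.dg γ0 = 0) (hω0 : ω ≠ 0)
    (hsp : ∀ y, cp C M.H 0 y = y → ∃ c : k, y = c • ω) {n : ℕ}
    (ih : ∀ i : ℕ, i < n → ∀ y, ∃ a : A, a • ω = cp C M.H i y) (y : M.X) :
    ∃ a : A, a • ω = cp C M.H n y := by
  by_contra hcon
  push Not at hcon
  have hin : ∀ i : ℕ, i < n → ∀ a : A, cp C C.toGr i a = a → a • ω = 0 → a = 0 :=
    fun i hi a ha hz => cs_inj M hl hω h0 h1 i (ih i hi) ha hz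
  have hform : ∀ ψ : M.X →ₗ[k] k, (∀ y, ψ (cp C M.H n y) = ψ y) →
      ∃ B ∈ Bil M M, cp C (M.H.bil M.H) n B = B ∧ ∀ y, ev B ω y = ψ y :=
    fun ψ hψ => cs_form M hl hω h0 ih ψ hψ
      (fun a ha y => cs_ker M hl hω hin hsp ψ hψ ha y)
  have hyP : cp C M.H n y ∉ LinearMap.range (csu M ω) := by
    rintro ⟨a, ha⟩
    exact hcon a ha
  obtain ⟨χ0, hχy, hχ⟩ := Submodule.exists_dual_map_eq_bot_of_notMem
    (p := LinearMap.range (csu M ω)) hyP inferInstance
  have hχ0 : ∀ a : A, χ0 (a • ω) = 0 := by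
    intro a
    have : χ0 (csu M ω a) ∈ (LinearMap.range (csu M ω)).map χ0 :=
      Submodule.mem_map_of_mem (LinearMap.mem_range_self _ a)
    rw [hχ] at this
    exact (Submodule.mem_bot k).mp this
  obtain ⟨χ, hχd⟩ : ∃ χ : M.X →ₗ[k] k, χ = χ0.comp (cp C M.H (n : ℤ)) := ⟨_, rfl⟩
  have hχa : ∀ a : A, χ (a • ω) = 0 := by
    intro a
    have h3 := cs_ucp M hω h0 n a
    rw [csu_apply, csu_apply] at h3
    rw [hχd, LinearMap.comp_apply, ← h3, hχ0]
  have hχh : ∀ {μ : Γ} {x : M.X}, M.H.In μ x → C.dg μ ≠ n → χ x = 0 := by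
    intro μ x hx hμ
    rw [hχd, LinearMap.comp_apply, cp_in C hx, if_neg hμ, map_zero]
  obtain ⟨w0, hw0, -⟩ := Submodule.exists_dual_map_eq_bot_of_notMem
    (p := (⊥ : Submodule k M.X)) (x := ω) (by simpa using hω0) inferInstance
  obtain ⟨w, hwd⟩ : ∃ w : M.X →ₗ[k] k, w = w0.comp (cp C M.H 0) := ⟨_, rfl⟩
  have hwω : w ω ≠ 0 := by
    rw [hwd, LinearMap.comp_apply, cp_in C hω, if_pos h0]
    exact hw0
  have hwh : ∀ {μ : Γ} {x : M.X}, M.H.In μ x → C.dg μ ≠ 0 → w x = 0 := by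
    intro μ x hx hμ
    rw [hwd, LinearMap.comp_apply, cp_in C hx, if_neg hμ, map_zero]
  obtain ⟨B, hBe⟩ : ∃ B : BF k M.X M.X, ∀ x y, ev B x y = χ x * w y :=
    ⟨BF.mk (fun x y => χ x * w y)
      (by intro v v' w; simp only [map_add]; ring)
      (by intro c v w; simp only [map_smul, smul_eq_mul]; ring)
      (by intro v w w'; simp only [map_add]; ring)
      (by intro c v w; simp only [map_smul, smul_eq_mul]; ring), fun x y => rfl⟩
  have hB : B ∈ Bil M M := by
    refine bil_of (fun α μ ν a x y ha hx hy => ?_)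
    rw [hBe, hBe]
    by_cases hα : α = 0
    · subst hα
      obtain ⟨c, rfl⟩ := cs_scal ha
      rw [algebraMap_smul, algebraMap_smul, map_smul, map_smul, C.ε_zero', smul_eq_mul,
        smul_eq_mul]
      ring
    by_cases hα0 : C.dg α ≤ 0
    · rw [cs_apos ha hα hα0, zero_smul, zero_smul, map_zero, map_zero]
      ring
    have e1 : χ (a • x) = 0 := by
      by_cases hd : C.dg (α + μ) = n
      · rw [map_add] at hd
        obtain ⟨b, rfl⟩ := cs_ih M hl ih hx (by omega)
        rw [← mul_smul]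
        exact hχa _
      · exact hχh (M.smul_in ha hx) hd
    have e2 : w (a • y) = 0 := by
      by_cases hν : C.dg ν < 0
      · rw [cs_low M hl hy hν, smul_zero, map_zero]
      · exact hwh (M.smul_in ha hy) (by rw [map_add]; omega)
    rw [e1, e2]
    ring
  have hBn : cp C (M.H.bil M.H) n B = B := by
    refine bf_ext M.H M.H (fun μ ν x y hx hy => ?_)
    rw [cs_ev M n B hx hy]
    split_ifs with h
    · rfl
    · rw [hBe]
      by_cases hμ : C.dg μ = n
      · rw [hwh hy (fun hν => h (by rw [map_add, hμ, hν, add_zero])), mul_zero]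
      · rw [hχh hx hμ, zero_mul]
  have hBz : B = 0 := cs_phi M hl h1 h2 hform hB hBn (by
    intro y
    have h5 := hχa 1
    rw [one_smul] at h5
    rw [hBe, h5, zero_mul])
  have h6 : ev B (cp C M.H n y) ω = 0 := by
    rw [hBz]
    rfl
  rw [hBe, hχd, LinearMap.comp_apply, cs_cpi] at h6
  exact mul_ne_zero hχy hwω h6

private theorem cs_zero [Module.Finite k A] [Nontrivial A] (M : GM C) (hl : M.low 0)
    (h1 : hp C M.H = hp C C.toGr) : ∃ (γ0 : Γ) (ω : M.X), M.H.In γ0 ω ∧ C.dg γ0 = 0 ∧ ω ≠ 0 ∧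
      ∀ y, cp C M.H 0 y = y → ∃ c : k, y = c • ω := by
  have hA : LinearMap.range (cp C C.toGr ((0 : ℕ) : ℤ)) = Submodule.span k {(1 : A)} := by
    refine le_antisymm ?_ ?_
    · rintro _ ⟨a, rfl⟩
      refine C.toGr.ind (P := fun a => cp C C.toGr ((0 : ℕ) : ℤ) a ∈ Submodule.span k {(1 : A)})
        ?_ ?_ ?_ a
      · rw [map_zero]
        exact Submodule.zero_mem _
      · intro x y hx hy
        rw [map_add]
        exact Submodule.add_mem _ hx hy
      · intro α x hx
        rw [cp_in C hx]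
        split_ifs with h
        · by_cases hα : α = 0
          · subst hα
            obtain ⟨c, rfl⟩ := cs_scal hx
            rw [Algebra.algebraMap_eq_smul_one]
            exact Submodule.smul_mem _ _ (Submodule.mem_span_singleton_self _)
          · rw [cs_apos hx hα (by rw [h]; norm_num)]
            exact Submodule.zero_mem _
        · exact Submodule.zero_mem _
    · rw [Submodule.span_singleton_le_iff_mem]
      refine ⟨1, ?_⟩
      rw [cp_in C (show C.toGr.In 0 1 from C.one_in), if_pos (by rw [map_zero]; rfl)]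
  have hf : Module.finrank k (LinearMap.range (cp C M.H ((0 : ℕ) : ℤ))) = 1 := by
    have e1 := coeff_hp C C.toGr cs_alow 0
    have e2 := coeff_hp C M.H (cs_mlow M hl) 0
    rw [h1, e1, hA, finrank_span_singleton one_ne_zero] at e2
    exact_mod_cast e2.symm
  obtain ⟨v, hv, hvs⟩ := finrank_eq_one_iff'.mp hf
  have hvc : cp C M.H 0 v.1 = v.1 := by
    obtain ⟨z, hz⟩ := v.2
    rw [← hz]
    exact cs_cpi _ _ _
  have hv1 : v.1 ≠ 0 := fun h => hv (Subtype.ext h)
  obtain ⟨γ0, hγ⟩ : ∃ γ0, M.H.p γ0 v.1 ≠ 0 := by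
    by_contra hcon
    push Not at hcon
    exact hv1 (by
      rw [← M.H.total v.1]
      exact Finset.sum_eq_zero (fun γ _ => hcon γ))
  have hγ0 : C.dg γ0 = 0 := by
    by_contra hcon
    refine hγ ?_
    rw [← hvc]
    exact cs_p M.H 0 v.1 hcon
  have hω : M.H.In γ0 (M.H.p γ0 v.1) := M.H.in_p γ0 v.1
  obtain ⟨c, hc⟩ := hvs ⟨M.H.p γ0 v.1, ⟨M.H.p γ0 v.1, by
    rw [cp_in C hω, if_pos (by rw [hγ0]; rfl)]⟩⟩
  have hc1 : c • v.1 = M.H.p γ0 v.1 := congrArg Subtype.val hc
  have hc0 : c ≠ 0 := by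
    rintro rfl
    rw [zero_smul] at hc1
    exact hγ hc1.symm
  refine ⟨γ0, M.H.p γ0 v.1, hω, hγ0, hγ, fun y hy => ?_⟩
  obtain ⟨d, hd⟩ := hvs ⟨y, ⟨y, hy⟩⟩
  have hd1 : d • v.1 = y := congrArg Subtype.val hd
  refine ⟨d * c⁻¹, ?_⟩
  rw [← hc1, smul_smul, mul_assoc, inv_mul_cancel₀ hc0, mul_one, hd1]

theorem cyc_sym [Module.Finite k A] [Nontrivial A] (M : GM C) (hl : M.low 0)
    (h1 : hp C M.H = hp C C.toGr) (h2 : hp C (bilG M M) = hp C C.toGr) :
    ∃ x : M.X, ∀ m : M.X, ∃ a : A, a • x = m := by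
  obtain ⟨γ0, ω, hω, h0, hω0, hsp⟩ := cs_zero M hl h1
  have key : ∀ n : ℕ, ∀ y, ∃ a : A, a • ω = cp C M.H n y := by
    intro n
    induction n using Nat.strong_induction_on with
    | _ n ih => exact fun y => cs_step M hl h1 h2 hω h0 hω0 hsp ih y
  refine ⟨ω, fun m => ?_⟩
  refine M.H.ind (P := fun m => ∃ a : A, a • ω = m) ⟨0, zero_smul _ _⟩ ?_ ?_ m
  · rintro _ _ ⟨a, rfl⟩ ⟨b, rfl⟩
    exact ⟨a + b, add_smul _ _ _⟩
  · intro γ x hx
    exact cs_ih M hl (n := (C.dg γ).toNat + 1) (fun i _ => key i) hx (by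
      push_cast
      have := Int.self_le_toNat (C.dg γ)
      omega)

end Pool.Agent.TGC
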