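import Pool.Agent.TGC.BlB
import Pool.Agent.TGC.CycS
import Pool.Agent.TGC.CoreA
import Pool.Agent.TGC.Arith

/-!
# TGC-COREB: the theorem in any characteristic under a condition on the Hilbert polynomial
-/

set_option autoImplicit false

noncomputable section

universe u v

namespace Pool.Agent.TGC

open CategoryTheory Polynomial

variable {k A : Type u} {Γ : Type v} [Field k] [AddCommGroup Γ] [Ring A] [Algebra k A]
  {C : CA k Γ A}

theorem core_any [Module.Finite k A] [Nontrivial A] (C : CA k Γ A) (c : Γ) (s : ℕ)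
    (hc : C.dg c = s) (hs : ∀ γ a, (s : ℤ) < C.dg γ → C.p γ a = 0)
    (hcs : hp C C.toGr = 0 ∨ (hp C C.toGr).natDegree = s)
    (hH : s ≤ 8 ∨ Squarefree (hp C C.toGr) ∨ reflect s (hp C C.toGr) = hp C C.toGr)
    (hv : ∀ i : ℕ, 1 ≤ i → i ≤ 3 * s + 2 →
      Subsingleton (Abelian.Ext.{u} (ModuleCat.of A (Da k A)) (ModuleCat.of A A) i)) :
    Module.Injective A A := by
  have hv' : Van (daM C c) (3 * s + 2) := van_da C c s hv
  have hl : (daM C c).low 0 := by
    intro γ φ hγ
    refine Da.ext (fun x => ?_)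
    change Da.fn φ (C.p (c - γ) x) = 0
    rw [hs (c - γ) x (by rw [map_sub, hc]; push_cast at hγ; omega), map_zero]
  have hu : (daM C c).up s := by
    intro γ φ hγ
    refine Da.ext (fun x => ?_)
    change Da.fn φ (C.p (c - γ) x) = 0
    rw [C.pos (c - γ) x (fun h => ?_) (by rw [map_sub, hc]; omega), map_zero]
    rw [← sub_eq_zero.mp h, hc] at hγ
    omega
  have hz : (daM C c).cc = 0 := cc_zero (daM C c) s s hs hl hu
    (fun i h1 hi => hv' i h1 (by omega))
  have hz' : hp C (bilG (daM C c) (daM C c)) * hp C C.toGr = (reflect s (hp C C.toGr)) ^ 2 := by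
    have h3 := sub_eq_zero.mp hz
    rw [hp_da C c s hc hs] at h3
    exact h3
  have h0 : (hp C C.toGr).coeff 0 = 1 := coeff_zero_A C
  have hne : hp C C.toGr ≠ 0 := by
    intro h
    rw [h, coeff_zero] at h0
    exact zero_ne_one h0
  have hnd : (hp C C.toGr).natDegree = s := hcs.resolve_left hne
  have hsym : reflect s (hp C C.toGr) = hp C C.toGr := by
    rcases hH with h | h | h
    · exact arith _ _ s h0 (hp_nonneg C _) hnd hz' (Or.inl h)
    · exact arith _ _ s h0 (hp_nonneg C _) hnd hz' (Or.inr h)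
    · exact h
  have hb : hp C (bilG (daM C c) (daM C c)) = hp C C.toGr := by
    rw [hsym, sq] at hz'
    exact mul_right_cancel₀ hne hz'
  refine inj_of_cyc C (cyc_sym (daM C c) hl ?_ hb)
  rw [hp_da C c s hc hs, hsym]

end Pool.Agent.TGC
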