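import Pool.Agent.TG.Defs

/-!
# Tachikawa's first conjecture for colour commutative graded algebras: definitions

Project TGC (MP_95779f_al).  `k` is a field, `Γ` an abelian group, `A` a finite dimensional
`Γ`-graded `k`-algebra which is colour commutative: `a b = ε(α, β) b a` for `a ∈ A_α`, `b ∈ A_β`,
where `ε` is a commutation factor.  Gradings are given by their projections.

A graded left module `M` has the right multiplication `R_a m = ε(μ, α) a m` (`a ∈ A_α`,
`m ∈ M_μ`), and the dual `D'M = Hom_k(M, k)` is the left module `(a φ)(m) = φ(R_a m)`.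
-/

set_option autoImplicit false

noncomputable section

universe u v

namespace Pool.Agent.TGC

open Polynomial CategoryTheory
open Pool.Agent.TG (Du BF ev bcomp linv linv_apply linv_apply' ev_bcomp ev_add ev_smul
  ev_sum ev_sum_left ev_sum_right ev_add_left ev_add_right ev_smul_left ev_smul_right
  ev_zero_left ev_zero_right)

/-! ### graded vector spaces -/

/-- A grading `V = ⊕ V_γ` of a vector space by an abelian group with finite support, given by
the projections. -/
structure Gr (k : Type u) (Γ : Type v) (V : Type u) [Field k] [AddCommGroup Γ] [AddCommGroup V]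
    [Module k V] where
  /-- projection to the component of degree `γ` -/
  p : Γ → V →ₗ[k] V
  /-- a finite set which contains all degrees with nonzero component -/
  supp : Finset Γ
  idem : ∀ α v, p α (p α v) = p α v
  orth : ∀ α β v, α ≠ β → p α (p β v) = 0
  total : ∀ v, ∑ α ∈ supp, p α v = v

section

variable {k U V W : Type u} {Γ : Type v} [Field k] [AddCommGroup Γ] [AddCommGroup U] [Module k U]
  [AddCommGroup V] [Module k V] [AddCommGroup W] [Module k W]

/-- `v` is homogeneous of degree `α`. -/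
def Gr.In (H : Gr k Γ V) (α : Γ) (v : V) : Prop := H.p α v = v

theorem Gr.In.eq {H : Gr k Γ V} {α : Γ} {v : V} (h : H.In α v) : H.p α v = v := h

theorem Gr.in_p (H : Gr k Γ V) (α : Γ) (v : V) : H.In α (H.p α v) := H.idem α v

theorem Gr.in_zero (H : Gr k Γ V) (α : Γ) : H.In α 0 := map_zero _

theorem Gr.In.add {H : Gr k Γ V} {α : Γ} {v w : V} (h : H.In α v) (h' : H.In α w) :
    H.In α (v + w) := by
  unfold Gr.In
  rw [map_add, h.eq, h'.eq]

theorem Gr.In.smul {H : Gr k Γ V} {α : Γ} {v : V} (h : H.In α v) (c : k) :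
    H.In α (c • v) := by
  unfold Gr.In
  rw [map_smul, h.eq]

theorem Gr.In.ne {H : Gr k Γ V} {α β : Γ} {v : V} (h : H.In α v) (hb : β ≠ α) :
    H.p β v = 0 := by
  rw [← h.eq]
  exact H.orth β α v hb

open Classical in
theorem Gr.In.ite {H : Gr k Γ V} {α : Γ} {v : V} (h : H.In α v) (β : Γ) :
    H.p β v = if β = α then v else 0 := by
  split_ifs with hb
  · rw [hb, h.eq]
  · exact h.ne hb

theorem Gr.p_notMem (H : Gr k Γ V) {α : Γ} (h : α ∉ H.supp) (v : V) : H.p α v = 0 := by
  conv_lhs => rw [← H.total v]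
  rw [map_sum]
  refine Finset.sum_eq_zero (fun β hβ => H.orth α β v ?_)
  rintro rfl
  exact h hβ

theorem Gr.In.eq_zero {H : Gr k Γ V} {α : Γ} {v : V} (h : H.In α v) (ha : α ∉ H.supp) :
    v = 0 := by
  rw [← h.eq]
  exact H.p_notMem ha v

theorem Gr.total_of_subset (H : Gr k Γ V) {T : Finset Γ} (hT : H.supp ⊆ T) (v : V) :
    ∑ α ∈ T, H.p α v = v := by
  conv_rhs => rw [← H.total v]
  symm
  exact Finset.sum_subset hT (fun α _ hα => H.p_notMem hα v)

/-- To prove a statement about all vectors it is enough to prove it for homogeneous vectors. -/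
theorem Gr.ind (H : Gr k Γ V) {P : V → Prop} (h0 : P 0) (ha : ∀ x y, P x → P y → P (x + y))
    (hh : ∀ α x, H.In α x → P x) (v : V) : P v := by
  classical
  rw [← H.total v]
  have h1 : ∀ s : Finset Γ, P (∑ α ∈ s, H.p α v) := by
    intro s
    induction s using Finset.induction_on with
    | empty => simpa using h0
    | insert a s hs ih =>
      rw [Finset.sum_insert hs]
      exact ha _ _ (hh a _ (H.in_p a v)) ih
  exact h1 _

/-- A linear map which respects the gradings. -/
def Hom0 (G : Gr k Γ V) (G' : Gr k Γ W) (f : V →ₗ[k] W) : Prop :=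
  ∀ γ v, f (G.p γ v) = G'.p γ (f v)

theorem Hom0.in {G : Gr k Γ V} {G' : Gr k Γ W} {f : V →ₗ[k] W} (h : Hom0 G G' f) {γ : Γ} {v : V}
    (hv : G.In γ v) : G'.In γ (f v) := by
  unfold Gr.In
  rw [← h γ v, hv.eq]

/-- A linear map respects the gradings if it does so on homogeneous elements. -/
theorem hom0_of (G : Gr k Γ V) (G' : Gr k Γ W) (f : V →ₗ[k] W)
    (h : ∀ γ v, G.In γ v → G'.In γ (f v)) : Hom0 G G' f := by
  classical
  intro γ v
  refine G.ind (P := fun v => f (G.p γ v) = G'.p γ (f v)) ?_ ?_ ?_ v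
  · simp
  · intro x y hx hy
    simp only [map_add, hx, hy]
  · intro α x hx
    rw [hx.ite γ, (h α x hx).ite γ]
    split_ifs
    · rfl
    · exact map_zero f

/-- The grading of a graded subspace (given by an injective map). -/
def Gr.pull (G : Gr k Γ V) (f : U →ₗ[k] V) (hf : Function.Injective f)
    (h : ∀ γ u, G.p γ (f u) ∈ LinearMap.range f) : Gr k Γ U where
  p γ := linv f hf ∘ₗ G.p γ ∘ₗ f
  supp := G.supp
  idem γ u := by
    apply hf
    simp only [LinearMap.comp_apply]
    rw [linv_apply' f hf (h γ u), linv_apply' f hf, G.idem]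
    rw [G.idem]
    exact h γ u
  orth α β u hab := by
    apply hf
    simp only [LinearMap.comp_apply]
    rw [linv_apply' f hf (h β u), G.orth α β _ hab, map_zero, map_zero]
  total u := by
    apply hf
    simp only [LinearMap.comp_apply]
    rw [map_sum]
    rw [Finset.sum_congr rfl (fun i _ => linv_apply' f hf (h i u))]
    exact G.total (f u)

theorem Gr.pull_p (G : Gr k Γ V) (f : U →ₗ[k] V) (hf : Function.Injective f)
    (h : ∀ γ u, G.p γ (f u) ∈ LinearMap.range f) (γ : Γ) (u : U) :
    f ((G.pull f hf h).p γ u) = G.p γ (f u) :=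
  linv_apply' f hf (h γ u)

open Classical in
/-- The grading of a product of shifted graded spaces. -/
def Gr.pi {ι : Type} [Fintype ι] {V : ι → Type u} [∀ t, AddCommGroup (V t)]
    [∀ t, Module k (V t)] (G : ∀ t, Gr k Γ (V t)) (d : ι → Γ) : Gr k Γ (∀ t, V t) where
  p γ := LinearMap.pi (fun t => (G t).p (γ - d t) ∘ₗ LinearMap.proj t)
  supp := (Finset.univ : Finset ι).biUnion (fun t => (G t).supp.image (fun α => α + d t))
  idem γ v := by
    funext t
    exact (G t).idem _ _
  orth α β v hab := by
    funext t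
    exact (G t).orth _ _ _ (fun h => hab (sub_left_injective h))
  total v := by
    funext t
    rw [Finset.sum_apply]
    change ∑ γ ∈ _, (G t).p (γ - d t) (v t) = v t
    have h1 : (G t).supp.image (fun α => α + d t) ⊆
        (Finset.univ : Finset ι).biUnion (fun t => (G t).supp.image (fun α => α + d t)) :=
      Finset.subset_biUnion_of_mem (fun t => (G t).supp.image (fun α => α + d t))
        (Finset.mem_univ t)
    rw [← Finset.sum_subset h1]
    · rw [Finset.sum_image (fun x _ y _ h => add_right_cancel h)]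
      simp only [add_sub_cancel_right]
      exact (G t).total (v t)
    · intro γ _ hγ
      refine (G t).p_notMem (fun hc => hγ ?_) _
      exact Finset.mem_image.mpr ⟨γ - d t, hc, sub_add_cancel _ _⟩

theorem Gr.pi_p {ι : Type} [Fintype ι] {V : ι → Type u} [∀ t, AddCommGroup (V t)]
    [∀ t, Module k (V t)] (G : ∀ t, Gr k Γ (V t)) (d : ι → Γ) (γ : Γ) (v : ∀ t, V t) (t : ι) :
    (Gr.pi G d).p γ v t = (G t).p (γ - d t) (v t) := rfl

/-- The grading of the dual space. -/
def Gr.dual (G : Gr k Γ V) : Gr k Γ (Du k V) where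
  p γ :=
    { toFun := fun φ => Du.mk ((Du.fn φ).comp (G.p γ))
      map_add' := fun φ ψ => Du.ext (fun v => by simp)
      map_smul' := fun c φ => Du.ext (fun v => by simp) }
  supp := G.supp
  idem γ φ := Du.ext (fun v => congrArg (Du.fn φ) (G.idem γ v))
  orth α β φ hab := by
    refine Du.ext (fun v => ?_)
    refine (congrArg (Du.fn φ) (G.orth β α v (fun h => hab h.symm))).trans ?_
    exact map_zero _
  total φ := by
    refine Du.ext (fun v => ?_)
    have h1 : ∀ (s : Finset Γ) (F : Γ → Du k V),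
        Du.fn (∑ i ∈ s, F i) v = ∑ i ∈ s, Du.fn (F i) v := by
      classical
      intro s F
      induction s using Finset.induction_on with
      | empty => simp
      | insert a s ha ih => rw [Finset.sum_insert ha, Finset.sum_insert ha, Du.fn_add, ih]
    rw [h1]
    simp only [LinearMap.coe_mk, AddHom.coe_mk, Du.fn_mk, LinearMap.comp_apply]
    rw [← map_sum, G.total]

theorem Gr.dual_p (G : Gr k Γ V) (γ : Γ) (φ : Du k V) (v : V) :
    Du.fn (G.dual.p γ φ) v = Du.fn φ (G.p γ v) := rfl

/-! ### bilinear forms on graded spaces -/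

theorem bf_ext (G : Gr k Γ V) (G' : Gr k Γ W) {B B' : BF k V W}
    (h : ∀ α β v w, G.In α v → G'.In β w → ev B v w = ev B' v w) : B = B' := by
  refine BF.ext (fun v w => ?_)
  rw [← G.total v, ← G'.total w]
  simp only [ev_sum_left, ev_sum_right]
  exact Finset.sum_congr rfl (fun _ _ => Finset.sum_congr rfl
    (fun _ _ => h _ _ _ _ (G.in_p _ _) (G'.in_p _ _)))

/-- The component of degree `δ` of a bilinear form. -/
def bilp (G : Gr k Γ V) (G' : Gr k Γ W) (δ : Γ) : BF k V W →ₗ[k] BF k V W :=
  ∑ α ∈ G.supp, bcomp (G.p α) (G'.p (δ - α))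

theorem bilp_apply (G : Gr k Γ V) (G' : Gr k Γ W) (δ : Γ) (B : BF k V W) (v : V) (w : W) :
    ev (bilp G G' δ B) v w = ∑ α ∈ G.supp, ev B (G.p α v) (G'.p (δ - α) w) := by
  simp only [bilp, LinearMap.sum_apply, ev_sum, ev_bcomp]

/-- `B_δ(v, w) = B(v, w)` if `deg v + deg w = δ` -/
theorem bilp_eq (G : Gr k Γ V) (G' : Gr k Γ W) (B : BF k V W) {α β : Γ}
    {v : V} {w : W} (hv : G.In α v) (hw : G'.In β w) :
    ev (bilp G G' (α + β) B) v w = ev B v w := by
  rw [bilp_apply, Finset.sum_eq_single α]
  · rw [hv.eq, add_sub_cancel_left, hw.eq]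
  · intro γ _ hγ
    rw [hv.ne hγ, ev_zero_left]
  · intro ha
    rw [hv.eq_zero ha, map_zero, ev_zero_left]

/-- `B_δ(v, w) = 0` if `deg v + deg w ≠ δ` -/
theorem bilp_ne (G : Gr k Γ V) (G' : Gr k Γ W) {δ : Γ} (B : BF k V W) {α β : Γ}
    {v : V} {w : W} (hv : G.In α v) (hw : G'.In β w) (h : α + β ≠ δ) :
    ev (bilp G G' δ B) v w = 0 := by
  rw [bilp_apply]
  refine Finset.sum_eq_zero (fun γ _ => ?_)
  by_cases hγ : γ = α
  · subst hγ
    rw [hw.ne (fun h' => h (by rw [← h']; abel)), ev_zero_right]
  · rw [hv.ne hγ, ev_zero_left]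

open Classical in
theorem bilp_hom (G : Gr k Γ V) (G' : Gr k Γ W) (δ : Γ) (B : BF k V W) {α β : Γ}
    {v : V} {w : W} (hv : G.In α v) (hw : G'.In β w) :
    ev (bilp G G' δ B) v w = if α + β = δ then ev B v w else 0 := by
  split_ifs with h
  · subst h
    exact bilp_eq G G' B hv hw
  · exact bilp_ne G G' B hv hw h

open Classical in
/-- The grading of the space of bilinear forms: a form of degree `δ` pairs the components of
degree `α` and `β` to zero unless `α + β = δ`. -/
def Gr.bil (G : Gr k Γ V) (G' : Gr k Γ W) : Gr k Γ (BF k V W) where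
  p δ := bilp G G' δ
  supp := (G.supp ×ˢ G'.supp).image (fun q => q.1 + q.2)
  idem δ B := by
    refine bf_ext G G' (fun α β v w hv hw => ?_)
    rw [bilp_hom G G' _ _ hv hw, bilp_hom G G' _ _ hv hw]
    split_ifs <;> rfl
  orth γ δ B hgd := by
    refine bf_ext G G' (fun α β v w hv hw => ?_)
    rw [bilp_hom G G' _ _ hv hw, bilp_hom G G' _ _ hv hw]
    by_cases h : α + β = γ
    · rw [if_pos h, if_neg (fun h' => hgd (h ▸ h'))]
      rfl
    · rw [if_neg h]
      rfl
  total B := by
    refine bf_ext G G' (fun α β v w hv hw => ?_)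
    rw [ev_sum]
    by_cases ha : α ∈ G.supp
    · by_cases hb : β ∈ G'.supp
      · rw [Finset.sum_eq_single (α + β)]
        · exact bilp_eq G G' B hv hw
        · intro δ _ hδ
          exact bilp_ne G G' B hv hw (fun h => hδ h.symm)
        · intro h
          exact absurd (Finset.mem_image.mpr ⟨(α, β), Finset.mem_product.mpr ⟨ha, hb⟩, rfl⟩) h
      · rw [hw.eq_zero hb]
        simp
    · rw [hv.eq_zero ha]
      simp

theorem Gr.bil_p (G : Gr k Γ V) (G' : Gr k Γ W) (δ : Γ) (B : BF k V W) :
    (G.bil G').p δ B = bilp G G' δ B := rfl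

end

end Pool.Agent.TGC
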