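import Pool.Agent.TGC.Wt
import Pool.Agent.TG.HPb

/-!
# TGC-DMA: dimensions of the homogeneous components
-/

set_option autoImplicit false

noncomputable section

universe u v

namespace Pool.Agent.TGC

variable {k U V W : Type u} {Γ : Type v} [Field k] [AddCommGroup Γ] [AddCommGroup U] [Module k U]
  [AddCommGroup V] [Module k V] [AddCommGroup W] [Module k W]

/-- the decomposition of `V` into its components. -/
private def dmaMap (H : Gr k Γ V) : V →ₗ[k] (∀ γ : H.supp, LinearMap.range (H.p (γ : Γ))) :=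
  LinearMap.pi (fun γ => (H.p (γ : Γ)).rangeRestrict)

private theorem dmaMap_bij (H : Gr k Γ V) : Function.Bijective (dmaMap H) := by
  constructor
  · rw [← LinearMap.ker_eq_bot, LinearMap.ker_eq_bot']
    intro v hv
    rw [← H.total v]
    refine Finset.sum_eq_zero fun γ hγ => ?_
    have h1 := congrFun hv ⟨γ, hγ⟩
    exact congrArg Subtype.val h1
  · intro w
    refine ⟨∑ γ : H.supp, (w γ : V), ?_⟩
    funext j
    refine Subtype.ext ?_
    change H.p (j : Γ) (∑ γ : H.supp, (w γ : V)) = (w j : V)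
    rw [map_sum, Finset.sum_eq_single j]
    · obtain ⟨u, hu⟩ := (w j).2
      rw [← hu, H.idem]
    · intro i _ hij
      obtain ⟨u, hu⟩ := (w i).2
      rw [← hu, H.orth _ _ _ (fun h => hij (Subtype.ext h.symm))]
    · intro h
      exact absurd (Finset.mem_univ _) h

theorem dm_total [Module.Finite k V] (H : Gr k Γ V) :
    ∑ γ ∈ H.supp, dm H γ = Module.finrank k V := by
  have h1 := (LinearEquiv.ofBijective (dmaMap H) (dmaMap_bij H)).finrank_eq
  rw [Module.finrank_pi_fintype] at h1
  rw [h1]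
  exact (Finset.sum_coe_sort H.supp (fun γ => dm H γ)).symm

theorem dm_iso (G : Gr k Γ V) (G' : Gr k Γ W) (e : V ≃ₗ[k] W) (h : Hom0 G G' e.toLinearMap)
    (γ : Γ) : dm G γ = dm G' γ := by
  have h1 : e.toLinearMap ∘ₗ G.p γ = G'.p γ ∘ₗ e.toLinearMap := LinearMap.ext fun v => h γ v
  have h2 : LinearMap.range (G'.p γ) = (LinearMap.range (G.p γ)).map e.toLinearMap := by
    rw [← LinearMap.range_comp, h1, LinearMap.range_comp, LinearEquiv.range, Submodule.map_top]
  unfold dm
  rw [h2]
  have h3 : Module.finrank k ((LinearMap.range (G.p γ)).map e.toLinearMap) =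
      Module.finrank k (LinearMap.range (G.p γ)) := LinearEquiv.finrank_map_eq e _
  rw [h3]

theorem dm_dual [Module.Finite k V] (G : Gr k Γ V) (γ : Γ) : dm G.dual γ = dm G γ := by
  exact LinearMap.finrank_range_dualMap_eq_finrank_range (G.p γ)

theorem dm_short [Module.Finite k V] (G : Gr k Γ U) (G' : Gr k Γ V) (G'' : Gr k Γ W)
    (f : U →ₗ[k] V) (g : V →ₗ[k] W) (hf : Function.Injective f) (hg : Function.Surjective g)
    (hfg : LinearMap.range f = LinearMap.ker g) (h1 : Hom0 G G' f) (h2 : Hom0 G' G'' g) (γ : Γ) :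
    dm G' γ = dm G γ + dm G'' γ := by
  exact Pool.Agent.TG.hpb_rank (G.p γ) (G'.p γ) (G''.p γ) f g hf hg hfg (h1 γ) (h2 γ)
    (fun v => G'.idem γ v)

end Pool.Agent.TGC
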