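import Pool.Agent.TGC.DmA

/-!
# TGC-DMB: dimensions in a four term sequence and in a product
-/

set_option autoImplicit false

noncomputable section

universe u v

namespace Pool.Agent.TGC

variable {k U V W Z : Type u} {Γ : Type v} [Field k] [AddCommGroup Γ] [AddCommGroup U]
  [Module k U] [AddCommGroup V] [Module k V] [AddCommGroup W] [Module k W] [AddCommGroup Z]
  [Module k Z]

/-- rank of a product of maps -/
private theorem dmb_rank {k : Type u} [Field k] {ι : Type} [Fintype ι] {V : ι → Type u}
    [∀ t, AddCommGroup (V t)]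
    [∀ t, Module k (V t)] [∀ t, Module.Finite k (V t)] (q : ∀ t, V t →ₗ[k] V t)
    (P : (∀ t, V t) →ₗ[k] (∀ t, V t)) (hP : ∀ v t, P v t = q t (v t)) :
    Module.finrank k (LinearMap.range P) = ∑ t, Module.finrank k (LinearMap.range (q t)) := by
  let J : (∀ t, LinearMap.range (q t)) →ₗ[k] (∀ t, V t) :=
    { toFun := fun f t => (f t).1
      map_add' := fun f g => rfl
      map_smul' := fun c f => rfl }
  have hJ : Function.Injective J := by
    intro f g h
    funext t
    exact Subtype.ext (congrFun h t)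
  have hr : LinearMap.range P = LinearMap.range J := by
    apply le_antisymm
    · rintro _ ⟨v, rfl⟩
      refine ⟨fun t => ⟨q t (v t), LinearMap.mem_range_self _ _⟩, ?_⟩
      funext t
      exact (hP v t).symm
    · rintro _ ⟨f, rfl⟩
      choose w hw using fun t => (f t).2
      refine ⟨w, ?_⟩
      funext t
      rw [hP, hw]
      rfl
  rw [hr, LinearMap.finrank_range_of_inj hJ, Module.finrank_pi_fintype]

theorem dm_four [Module.Finite k V] [Module.Finite k W] (G1 : Gr k Γ U) (G2 : Gr k Γ V)
    (G3 : Gr k Γ W) (G4 : Gr k Γ Z) (f : U →ₗ[k] V) (g : V →ₗ[k] W) (h : W →ₗ[k] Z)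
    (hf : Function.Injective f) (hfg : LinearMap.range f = LinearMap.ker g)
    (hgh : LinearMap.range g = LinearMap.ker h) (hh : Function.Surjective h)
    (h1 : Hom0 G1 G2 f) (h2 : Hom0 G2 G3 g) (h3 : Hom0 G3 G4 h) (γ : Γ) :
    dm G1 γ + dm G3 γ = dm G2 γ + dm G4 γ := by
  have hK : ∀ i (u : LinearMap.range g), G3.p i ((LinearMap.range g).subtype u) ∈
      LinearMap.range (LinearMap.range g).subtype := by
    rintro i ⟨u, v, rfl⟩
    rw [Submodule.range_subtype]
    exact ⟨G2.p i v, h2 i v⟩
  have hinj : Function.Injective (LinearMap.range g).subtype := Submodule.injective_subtype _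
  have a1 := dm_short G1 G2 (G3.pull (LinearMap.range g).subtype hinj hK) f g.rangeRestrict hf
    g.surjective_rangeRestrict (by rw [hfg, LinearMap.ker_rangeRestrict]) h1
    (fun i v => by
      apply hinj
      rw [Gr.pull_p]
      exact h2 i v) γ
  have a2 := dm_short (G3.pull (LinearMap.range g).subtype hinj hK) G3 G4
    (LinearMap.range g).subtype h hinj hh (by rw [Submodule.range_subtype, hgh])
    (fun i v => Gr.pull_p _ _ _ _ _ _) h3 γ
  rw [a1, a2]
  ring

theorem dm_pi {ι : Type} [Fintype ι] {V : ι → Type u} [∀ t, AddCommGroup (V t)]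
    [∀ t, Module k (V t)] [∀ t, Module.Finite k (V t)] (G : ∀ t, Gr k Γ (V t)) (d : ι → Γ)
    (γ : Γ) : dm (Gr.pi G d) γ = ∑ t, dm (G t) (γ - d t) := by
  exact dmb_rank (fun t => (G t).p (γ - d t)) ((Gr.pi G d).p γ) (fun v t => Gr.pi_p G d γ v t)

end Pool.Agent.TGC
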