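import Pool.Agent.TGC.Wt

/-!
# TGC-DUALG: the dual of the algebra as a graded module

`A^* = Hom_k(A, k)` is the left module `(a φ)(x) = φ(x a)`; a functional which vanishes on all
components but `A_α` has degree `c - α`.
-/

set_option autoImplicit false

noncomputable section

universe u v

namespace Pool.Agent.TGC

open Polynomial

variable {k A : Type u} {Γ : Type v} [Field k] [AddCommGroup Γ] [Ring A] [Algebra k A]

/-- The dual `A^* = Hom_k(A, k)`, a left `A`-module by `(a φ)(x) = φ(x a)`. -/
def Da (k A : Type u) [Field k] [Ring A] [Algebra k A] : Type u := A →ₗ[k] k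

instance : AddCommGroup (Da k A) := inferInstanceAs (AddCommGroup (A →ₗ[k] k))

instance : Module k (Da k A) := inferInstanceAs (Module k (A →ₗ[k] k))

instance [Module.Finite k A] : Module.Finite k (Da k A) :=
  inferInstanceAs (Module.Finite k (A →ₗ[k] k))

/-- The functional. -/
def Da.fn (φ : Da k A) : A →ₗ[k] k := φ

/-- The element of the dual given by a functional. -/
def Da.mk (φ : A →ₗ[k] k) : Da k A := φ

@[simp] theorem Da.fn_mk (φ : A →ₗ[k] k) : Da.fn (Da.mk φ) = φ := rfl

@[ext] theorem Da.ext {φ ψ : Da k A} (h : ∀ v, Da.fn φ v = Da.fn ψ v) : φ = ψ :=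
  LinearMap.ext h

@[simp] theorem Da.fn_add (φ ψ : Da k A) (v : A) : Da.fn (φ + ψ) v = Da.fn φ v + Da.fn ψ v := rfl

@[simp] theorem Da.fn_sub (φ ψ : Da k A) (v : A) : Da.fn (φ - ψ) v = Da.fn φ v - Da.fn ψ v := rfl

@[simp] theorem Da.fn_zero (v : A) : Da.fn (0 : Da k A) v = 0 := rfl

@[simp] theorem Da.fn_smul (c : k) (φ : Da k A) (v : A) : Da.fn (c • φ) v = c * Da.fn φ v := rfl

instance : Module A (Da k A) where
  smul a φ := Da.mk ((Da.fn φ).comp (LinearMap.mulRight k a))
  one_smul φ := Da.ext (fun x => congrArg (Da.fn φ) (mul_one x))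
  mul_smul a b φ := Da.ext (fun x => congrArg (Da.fn φ) (mul_assoc x a b).symm)
  smul_zero a := Da.ext (fun x => rfl)
  smul_add a φ ψ := Da.ext (fun x => rfl)
  add_smul a b φ := by
    refine Da.ext (fun x => ?_)
    refine (congrArg (Da.fn φ) (mul_add x a b)).trans ?_
    exact map_add _ _ _
  zero_smul φ := by
    refine Da.ext (fun x => ?_)
    refine (congrArg (Da.fn φ) (mul_zero x)).trans ?_
    exact map_zero _

theorem Da.fn_asmul (a : A) (φ : Da k A) (x : A) : Da.fn (a • φ) x = Da.fn φ (x * a) := rfl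

instance : IsScalarTower k A (Da k A) where
  smul_assoc c a φ := by
    refine Da.ext (fun x => ?_)
    rw [Da.fn_asmul, Da.fn_smul, Da.fn_asmul, mul_smul_comm, map_smul, smul_eq_mul]

open Classical in
/-- The reversed grading of the dual. -/
def dualGr (G : Gr k Γ A) (c : Γ) : Gr k Γ (Da k A) where
  p γ :=
    { toFun := fun φ => Da.mk ((Da.fn φ).comp (G.p (c - γ)))
      map_add' := fun φ ψ => Da.ext (fun v => by simp)
      map_smul' := fun c φ => Da.ext (fun v => by simp) }
  supp := G.supp.image (fun α => c - α)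
  idem γ φ := Da.ext (fun v => congrArg (Da.fn φ) (G.idem (c - γ) v))
  orth α β φ hab := by
    refine Da.ext (fun v => ?_)
    refine (congrArg (Da.fn φ) (G.orth (c - β) (c - α) v (fun h => hab ?_))).trans ?_
    · exact (sub_right_injective h).symm
    · exact map_zero _
  total φ := by
    refine Da.ext (fun v => ?_)
    have h1 : ∀ (s : Finset Γ) (F : Γ → Da k A),
        Da.fn (∑ i ∈ s, F i) v = ∑ i ∈ s, Da.fn (F i) v := by
      intro s F
      induction s using Finset.induction_on with
      | empty => simp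
      | insert a s ha ih => rw [Finset.sum_insert ha, Finset.sum_insert ha, Da.fn_add, ih]
    rw [h1, Finset.sum_image (fun x _ y _ h => sub_right_injective h)]
    simp only [LinearMap.coe_mk, AddHom.coe_mk, Da.fn_mk, LinearMap.comp_apply, sub_sub_cancel]
    rw [← map_sum, G.total]

theorem dualGr_p (G : Gr k Γ A) (c γ : Γ) (φ : Da k A) (v : A) :
    Da.fn ((dualGr G c).p γ φ) v = Da.fn φ (G.p (c - γ) v) := rfl

/-- A functional of degree `γ` vanishes on `A_α` for `α ≠ c - γ`. -/
theorem dualGr_in {G : Gr k Γ A} {c γ : Γ} {φ : Da k A} (h : (dualGr G c).In γ φ) {α : Γ} {x : A}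
    (hx : G.In α x) (hn : α ≠ c - γ) : Da.fn φ x = 0 := by
  have h1 : Da.fn ((dualGr G c).p γ φ) x = Da.fn φ x := by rw [h.eq]
  rw [← h1, dualGr_p, hx.ne (fun h' => hn h'.symm), map_zero]

/-- `A^*` as a graded module. -/
def daM [Module.Finite k A] (C : CA k Γ A) (c : Γ) : GM C where
  X := Da k A
  H := dualGr C.toGr c
  hc := by
    classical
    intro α μ a φ ha hφ
    refine Da.ext (fun x => ?_)
    rw [dualGr_p, Da.fn_asmul, Da.fn_asmul]
    refine C.toGr.ind (P := fun x => Da.fn φ (C.p (c - (α + μ)) x * a) = Da.fn φ (x * a))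
      ?_ ?_ ?_ x
    · simp
    · intro x y hx hy
      rw [map_add, add_mul, add_mul, map_add, map_add, hx, hy]
    · intro β x hx
      have hxa : C.toGr.In (β + α) (x * a) := C.mul_in β α x a hx ha
      rw [hx.ite]
      split_ifs with h
      · rfl
      · rw [zero_mul, map_zero]
        symm
        refine dualGr_in hφ hxa (fun h' => h ?_)
        rw [← eq_sub_iff_add_eq.mp h']
        abel

end Pool.Agent.TGC
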