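import Pool.Agent.TGC.DualG
import Pool.Agent.TGC.Hp

/-!
# TGC-DUALH: the Hilbert polynomials of the dual; `D'(A^*)` is `A`; `A^*` is injective

PLAN.  `dm_da`: the map `φ ↦ φ ∘ p` has the same rank as `p`
(`LinearMap.finrank_range_dualMap_eq_finrank_range`, as in `hp_dual` of `Pool/Agent/TG/HPa.lean`).
`hp_da`: `hw_eq` with `T = C.supp.image (c - ·)`, so
`hp (A^*) = ∑ α ∈ C.supp, dm α * X ^ (s - deg α).toNat`; `Polynomial.reflect` is additive and
`reflect s (X ^ n) = X ^ (s - n)` for `n ≤ s` (`Polynomial.reflect_C_mul_X_pow`,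
`Polynomial.revAt_le`); terms with `dm = 0` vanish; `0 ≤ deg α` (`C.dm_nonneg`), `deg α ≤ s`
(`hs`, `dm_zero`).  `hq_da`: the same with `C.sg (c - α) = C.sg c * C.sg α`
(`C.sg_add`, `C.sg_neg`), and `2 * (s - n) = 2 * s - 2 * n`.
`da_inj`: let `f : X → Y` be injective `A`-linear, `g : X → A^*`.  Extend the `k`-linear
functional `x ↦ (g x)(1)` along `f` to `h_1 : Y → k` (see `Inj.lean` of `Pool/Agent/TG`); put
`(h y)(v) = h_1 (v • y)`.
`dbl`: the map `θ = ∑ α ∈ C.supp, (ε(c, α) ε(α, α)) • C.p α` is an algebra automorphism with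
`θ a = ε(c, α) ε(α, α) a` for `a ∈ A_α`; the isomorphism is `b ↦ (φ ↦ φ(θ b))`.  It is linear:
for `a ∈ A_α`, `b ∈ A_β`, `φ` of degree `γ` (`γ = c - α - β`, otherwise both sides vanish,
`dualGr_in`): `(a Φ_b)(φ) = Φ_b(R_a φ) = ε(γ, α) (a φ)(θ b) = ε(γ, α) φ(θ(b) a)` and
`Φ_(a b)(φ) = φ(θ(a) θ(b))`; `C.comm`, `C.ε_add`, `C.ε_neg`, `C.ε_symm`.  Injective
(functionals separate points, `θ` injective), and the dimensions agree
(`Subspace.dual_finrank_eq`).
-/

set_option autoImplicit false

noncomputable section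

universe u v

namespace Pool.Agent.TGC

open Polynomial

variable {k A : Type u} {Γ : Type v} [Field k] [AddCommGroup Γ] [Ring A] [Algebra k A]
  {C : CA k Γ A}

theorem finrank_da : Module.finrank k (Da k A) = Module.finrank k A :=
  Subspace.dual_finrank_eq (K := k) (V := A)

private theorem dm_da [Module.Finite k A] (G : Gr k Γ A) (c γ : Γ) :
    dm (dualGr G c) γ = dm G (c - γ) :=
  LinearMap.finrank_range_dualMap_eq_finrank_range (G.p (c - γ))

private theorem reflect_sum_aux {ι : Type v} (s : Finset ι) (N : ℕ) (F : ι → ℤ[X]) :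
    reflect N (∑ i ∈ s, F i) = ∑ i ∈ s, reflect N (F i) := by
  classical
  induction s using Finset.induction_on with
  | empty => simp
  | insert a s ha ih => rw [Finset.sum_insert ha, Finset.sum_insert ha, reflect_add, ih]

private theorem reflect_cm (N n : ℕ) (m : ℤ) (h : n ≤ N) :
    reflect N ((m : ℤ[X]) * X ^ n) = (m : ℤ[X]) * X ^ (N - n) := by
  have h1 : (m : ℤ[X]) = C m := by simp
  rw [h1, reflect_C_mul_X_pow, revAt_le h]

private theorem deg_bd (C : CA k Γ A) (s : ℕ)
    (hs : ∀ γ a, (s : ℤ) < C.dg γ → C.p γ a = 0) {α : Γ} (h : dm C.toGr α ≠ 0) :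
    0 ≤ C.dg α ∧ C.dg α ≤ s := by
  refine ⟨C.dm_nonneg h, ?_⟩
  by_contra hc
  exact h (dm_zero _ (fun a => hs α a (by omega)))

theorem hp_da [Module.Finite k A] (C : CA k Γ A) (c : Γ) (s : ℕ) (hc : C.dg c = s)
    (hs : ∀ γ a, (s : ℤ) < C.dg γ → C.p γ a = 0) :
    hp C (daM C c).H = reflect s (hp C C.toGr) := by
  classical
  unfold hp hw
  rw [reflect_sum_aux]
  have h0 : (daM C c).H.supp = C.supp.image (fun α => c - α) := by
    ext x
    constructor
    · intro h
      exact h
    · intro h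
      exact h
  rw [h0, Finset.sum_image (fun x _ y _ h => sub_right_injective h)]
  refine Finset.sum_congr rfl (fun α _ => ?_)
  have h1 : dm (daM C c).H (c - α) = dm C.toGr α := by
    refine (dm_da C.toGr c (c - α)).trans ?_
    rw [sub_sub_cancel]
  rw [h1]
  by_cases h2 : dm C.toGr α = 0
  · rw [h2]
    simp
  obtain ⟨h3, h4⟩ := deg_bd C s hs h2
  unfold CA.w
  have h5 := reflect_cm s (C.dg α).toNat (dm C.toGr α : ℤ) (by omega)
  rw [Int.cast_natCast] at h5
  rw [h5, map_sub, hc]
  have h6 : ((s : ℤ) - C.dg α).toNat = s - (C.dg α).toNat := by omega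
  rw [h6]

theorem hq_da [Module.Finite k A] (C : CA k Γ A) (c : Γ) (s : ℕ) (hc : C.dg c = s)
    (hs : ∀ γ a, (s : ℤ) < C.dg γ → C.p γ a = 0) :
    hq C (daM C c).H = (C.sg c : ℤ[X]) * reflect (2 * s) (hq C C.toGr) := by
  classical
  unfold hq hw
  rw [reflect_sum_aux]
  have h0 : (daM C c).H.supp = C.supp.image (fun α => c - α) := by
    ext x
    constructor
    · intro h
      exact h
    · intro h
      exact h
  rw [h0, Finset.sum_image (fun x _ y _ h => sub_right_injective h), Finset.mul_sum]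
  refine Finset.sum_congr rfl (fun α _ => ?_)
  have h1 : dm (daM C c).H (c - α) = dm C.toGr α := by
    refine (dm_da C.toGr c (c - α)).trans ?_
    rw [sub_sub_cancel]
  rw [h1]
  by_cases h2 : dm C.toGr α = 0
  · rw [h2]
    simp
  obtain ⟨h3, h4⟩ := deg_bd C s hs h2
  unfold CA.w'
  have h5 := reflect_cm (2 * s) (2 * (C.dg α).toNat) ((dm C.toGr α : ℤ) * C.sg α) (by omega)
  rw [Int.cast_mul, Int.cast_natCast, mul_assoc, mul_assoc] at h5
  rw [h5, map_sub, hc]
  have h6 : 2 * ((s : ℤ) - C.dg α).toNat = 2 * s - 2 * (C.dg α).toNat := by omega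
  have h7 : C.sg (c - α) = C.sg c * C.sg α := by
    rw [sub_eq_add_neg, C.sg_add, C.sg_neg]
  rw [h6, h7, Int.cast_mul]
  ring

theorem da_inj : Module.Injective A (Da k A) := by
  classical
  refine ⟨fun X Y _ _ _ _ f hf g => ?_⟩
  letI mX : Module k X := Module.compHom X (algebraMap k A)
  letI mY : Module k Y := Module.compHom Y (algebraMap k A)
  haveI tX : IsScalarTower k A X := IsScalarTower.of_algebraMap_smul (fun r x => rfl)
  haveI tY : IsScalarTower k A Y := IsScalarTower.of_algebraMap_smul (fun r x => rfl)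
  have hkX : ∀ (c : k) (x : X), c • x = algebraMap k A c • x := fun c x => rfl
  have hkY : ∀ (c : k) (y : Y), c • y = algebraMap k A c • y := fun c y => rfl
  let fk : X →ₗ[k] Y := f.restrictScalars k
  have hfk : Function.Injective fk := hf
  let g1 : X →ₗ[k] k :=
    { toFun := fun x => Da.fn (g x) 1
      map_add' := fun x x' => by rw [map_add, Da.fn_add]
      map_smul' := fun c x => by
        rw [hkX, map_smul, Da.fn_asmul, one_mul, RingHom.id_apply, Algebra.algebraMap_eq_smul_one,
          map_smul] }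
  let h1 : Y →ₗ[k] k := g1.comp (Pool.Agent.TG.linv fk hfk)
  have hh1 : ∀ x, h1 (f x) = Da.fn (g x) 1 := by
    intro x
    change g1 (Pool.Agent.TG.linv fk hfk (fk x)) = _
    rw [Pool.Agent.TG.linv_apply]
    rfl
  let h : Y →ₗ[A] Da k A :=
    { toFun := fun y => Da.mk
        { toFun := fun v => h1 (v • y)
          map_add' := fun v w => by rw [add_smul, map_add]
          map_smul' := fun c v => by rw [RingHom.id_apply, smul_assoc, map_smul] }
      map_add' := fun y y' => by
        refine Da.ext (fun v => ?_)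
        rw [Da.fn_add, Da.fn_mk, Da.fn_mk, Da.fn_mk]
        simp only [LinearMap.coe_mk, AddHom.coe_mk]
        rw [smul_add, map_add]
      map_smul' := fun a y => by
        refine Da.ext (fun v => ?_)
        rw [RingHom.id_apply, Da.fn_asmul, Da.fn_mk, Da.fn_mk]
        simp only [LinearMap.coe_mk, AddHom.coe_mk]
        rw [mul_smul] }
  refine ⟨h, fun x => ?_⟩
  refine Da.ext (fun v => ?_)
  change h1 (v • f x) = Da.fn (g x) v
  rw [← map_smul, hh1, map_smul, Da.fn_asmul, one_mul]

/-- the scalar `ε(c, α) ε(α, α)` -/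
private def tt (C : CA k Γ A) (c α : Γ) : k := C.ε c α * C.ε α α

/-- the automorphism `θ` -/
private def th (C : CA k Γ A) (c : Γ) : A →ₗ[k] A := ∑ α ∈ C.supp, tt C c α • C.p α

private theorem th_hom (C : CA k Γ A) (c : Γ) {α : Γ} {a : A} (ha : C.toGr.In α a) :
    th C c a = tt C c α • a := by
  unfold th
  rw [LinearMap.sum_apply, Finset.sum_eq_single α]
  · rw [LinearMap.smul_apply, ha.eq]
  · intro β _ hβ
    rw [LinearMap.smul_apply, ha.ne hβ, smul_zero]
  · intro h
    rw [ha.eq_zero h, map_zero]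

private theorem th_p (C : CA k Γ A) (c α : Γ) (a : A) :
    C.p α (th C c a) = tt C c α • C.p α a := by
  classical
  refine C.toGr.ind (P := fun a => C.p α (th C c a) = tt C c α • C.p α a) ?_ ?_ ?_ a
  · simp
  · intro x y hx hy
    rw [map_add, map_add, hx, hy, map_add, smul_add]
  · intro β x hx
    rw [th_hom C c hx, map_smul, hx.ite α]
    split_ifs with h
    · rw [h]
    · rw [smul_zero, smul_zero]

private theorem th_inj (C : CA k Γ A) (c : Γ) {a : A} (h : th C c a = 0) : a = 0 := by
  rw [← C.total a]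
  refine Finset.sum_eq_zero (fun α _ => ?_)
  have h1 := th_p C c α a
  rw [h, map_zero] at h1
  have h2 : tt C c α ≠ 0 := mul_ne_zero (C.ε_ne c α) (C.ε_ne α α)
  rcases smul_eq_zero.mp h1.symm with h3 | h3
  · exact absurd h3 h2
  · exact h3

private theorem tt_key (C : CA k Γ A) (c α β γ : Γ) (h : β + α = c - γ) :
    tt C c (α + β) * C.ε α β = C.ε γ α * tt C c β := by
  have hg : γ = c + (-α + -β) := by
    rw [← sub_eq_iff_eq_add'.mpr (eq_add_of_sub_eq h.symm)]
    abel
  unfold tt
  rw [hg, C.ε_add c, C.ε_add (-α), C.ε_neg, C.ε_neg, C.ε_add α, C.ε_add', C.ε_add', C.ε_add']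
  linear_combination (C.ε c α * C.ε c β * C.ε α α * C.ε β β * C.ε α β) * C.ε_symm α β

private theorem th_key [Module.Finite k A] (C : CA k Γ A) (c : Γ) (a b : A) (φ : Da k A) :
    Da.fn φ (th C c (a * b)) = Da.fn ((daM C c).R a φ : Da k A) (th C c b) := by
  classical
  refine C.toGr.ind (P := fun a => Da.fn φ (th C c (a * b)) =
    Da.fn ((daM C c).R a φ : Da k A) (th C c b)) ?_ ?_ ?_ a
  · rw [zero_mul, map_zero, map_zero, map_zero]
    rfl
  · intro a a' h h'
    rw [add_mul, map_add, map_add, h, h', map_add]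
    rfl
  intro α a ha
  refine C.toGr.ind (P := fun b => Da.fn φ (th C c (a * b)) =
    Da.fn ((daM C c).R a φ : Da k A) (th C c b)) ?_ ?_ ?_ b
  · rw [mul_zero, map_zero, map_zero, map_zero]
  · intro b b' h h'
    rw [mul_add, map_add, map_add, h, h', map_add, map_add]
  intro β b hb
  refine (daM C c).H.ind (P := fun φ : Da k A => Da.fn φ (th C c (a * b)) =
    Da.fn ((daM C c).R a φ : Da k A) (th C c b)) ?_ ?_ ?_ φ
  · rw [map_zero]
    rfl
  · intro φ ψ h h'
    rw [map_add]
    exact congrArg₂ (· + ·) h h'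
  intro γ φ' hφ
  have key : ∀ φ : Da k A, (dualGr C.toGr c).In γ φ → Da.fn φ (th C c (a * b)) =
      C.ε γ α * Da.fn φ (th C c b * a) := by
    intro φ hφ
    have hab : C.toGr.In (α + β) (a * b) := C.mul_in α β a b ha hb
    have hba : C.toGr.In (β + α) (b * a) := C.mul_in β α b a hb ha
    rw [th_hom C c hab, th_hom C c hb, smul_mul_assoc, map_smul, map_smul,
      C.comm α β a b ha hb, map_smul]
    simp only [smul_eq_mul]
    by_cases h : β + α = c - γ
    · rw [← mul_assoc, ← mul_assoc, tt_key C c α β γ h]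
    · have h1 : Da.fn φ (b * a) = 0 := dualGr_in hφ hba h
      rw [h1]
      ring
  refine (key φ' hφ).trans ?_
  rw [(daM C c).R_hom ha hφ]
  rfl

theorem dbl [Module.Finite k A] (C : CA k Γ A) (c : Γ) :
    Nonempty (A ≃ₗ[A] Dp (daM C c)) := by
  let f : A →ₗ[A] Dp (daM C c) :=
    { toFun := fun b => Dp.mk (M := daM C c)
        { toFun := fun φ => Da.fn (φ : Da k A) (th C c b)
          map_add' := fun φ ψ => rfl
          map_smul' := fun r φ => rfl }
      map_add' := fun a b => Dp.ext (fun φ => by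
        change Da.fn (φ : Da k A) (th C c (a + b)) =
          Da.fn (φ : Da k A) (th C c a) + Da.fn (φ : Da k A) (th C c b)
        rw [map_add, map_add])
      map_smul' := fun a b => Dp.ext (fun φ => th_key C c a b φ) }
  have hf : Function.Injective f := by
    rw [injective_iff_map_eq_zero]
    intro a ha
    have h1 : ∀ φ : Module.Dual k A, φ (th C c a) = 0 := by
      intro φ
      have h2 := congrArg (fun x => Dp.fn x (Da.mk φ : Da k A)) ha
      exact h2
    exact th_inj C c ((Module.forall_dual_apply_eq_zero_iff k (th C c a)).mp h1)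
  have hd : Module.finrank k A = Module.finrank k (Dp (daM C c)) := by
    have h1 : Module.finrank k (Dp (daM C c)) = Module.finrank k (Da k A) :=
      Subspace.dual_finrank_eq (K := k) (V := Da k A)
    rw [h1, finrank_da]
  have hs : Function.Surjective (f.restrictScalars k) :=
    (LinearMap.injective_iff_surjective_of_finrank_eq_finrank hd).mp hf
  exact ⟨LinearEquiv.ofBijective f ⟨hf, hs⟩⟩

end Pool.Agent.TGC
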