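import Pool.Agent.TGC.Maps

/-!
# TGC-EXA: the first part of the four term sequence

PLAN.  Adapt `Pool/Agent/TG/ExA.lean`; `Maps.lean` has the interface.
`exA_ker`, inclusion from right to left: `B ∈ S^e(F)` with `B(i n, f) = 0`.  Also
`B(f, i n) = 0`: by bilinearity for homogeneous `f`, `n` (`Gr.ind`), where
`e • B = fl B` (`B.2.2`), `fl_hom` and `e ≠ 0`.  So `B` descends to
`B' : BF k M.X M.X`, `B'(m, m') = B(s m, s m')`, `s = Function.surjInv E.hπ`, with
`bcomp E.πk E.πk B' = B`.  `B' ∈ Bil M M` (`E.R_π`).  `fl M M B' = e • B'` follows from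
`fl_bcomp` and the injectivity of `bcomp E.πk E.πk` (`E.hπ`).
`mA_hom`, `mB_hom`, `mC_hom`: `Subtype.ext`, `syG_p`, `bilG_p`, `mA_val`, ..., and
`bcomp_bilp` (prove it with `bf_ext`, `bilp_hom`), `fl_bilp`.
-/

set_option autoImplicit false

noncomputable section

universe u v

namespace Pool.Agent.TGC

open Pool.Agent.TG (Du BF ev bcomp ev_bcomp ev_add ev_smul ev_sub ev_zero_left ev_zero_right
  ev_add_left ev_add_right ev_smul_left ev_smul_right ev_sub_left ev_sub_right)

variable {k A : Type u} {Γ : Type v} [Field k] [AddCommGroup Γ] [Ring A] [Algebra k A]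
  {C : CA k Γ A}

theorem bcomp_bilp {M N M' N' : GM C} (f : M'.X →ₗ[k] M.X) (g : N'.X →ₗ[k] N.X)
    (hf : Hom0 M'.H M.H f) (hg : Hom0 N'.H N.H g) (δ : Γ) (B : BF k M.X N.X) :
    bcomp f g (bilp M.H N.H δ B) = bilp M'.H N'.H δ (bcomp f g B) := by
  classical
  refine bf_ext M'.H N'.H (fun α β v w hv hw => ?_)
  rw [ev_bcomp, bilp_hom _ _ _ _ (hf.in hv) (hg.in hw), bilp_hom _ _ _ _ hv hw, ev_bcomp]

variable {N F M : GM C} (E : Ex N F M)

theorem exA_inj (e : k) : Function.Injective (mA E e) := by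
  intro B B' h
  refine Subtype.ext (BF.ext (fun m m' => ?_))
  obtain ⟨f, rfl⟩ := E.hπ m
  obtain ⟨f', rfl⟩ := E.hπ m'
  rw [← mA_ev E e B, ← mA_ev E e B', h]

/-- a form which vanishes on the left vanishes on the right -/
private theorem exA_right {e : k} (he : e * e = 1) (B : Sy F e)
    (h1 : ∀ n f, ev B.1 (E.i n) f = 0) (f : F.X) (n : N.X) : ev B.1 f (E.i n) = 0 := by
  have he0 : e ≠ 0 := left_ne_zero_of_mul_eq_one he
  refine F.H.ind (P := fun f => ev B.1 f (E.i n) = 0) ?_ ?_ ?_ f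
  · exact ev_zero_left _ _
  · intro x y hx hy
    rw [ev_add_left, hx, hy, add_zero]
  intro φ f hf
  refine N.H.ind (P := fun n => ev B.1 f (E.i n) = 0) ?_ ?_ ?_ n
  · rw [map_zero]
    exact ev_zero_right _ _
  · intro x y hx hy
    rw [map_add, ev_add_right, hx, hy, add_zero]
  intro ν n hn
  have hin : F.H.In ν (E.i n) := E.gik.in hn
  have h2 := fl_hom F F B.1 hf hin
  rw [h1, mul_zero, B.2.2, ev_smul] at h2
  exact (mul_eq_zero.mp h2).resolve_left he0

theorem exA_ker (e : k) (he : e * e = 1) : LinearMap.range (mA E e) = LinearMap.ker (mB E e) := by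
  ext B
  rw [LinearMap.mem_range, LinearMap.mem_ker]
  constructor
  · rintro ⟨B', rfl⟩
    refine Subtype.ext (BF.ext (fun n f => ?_))
    rw [mB_ev, mA_ev, E.π_i, ev_zero_left]
    rfl
  · intro hB
    have h1 : ∀ n f, ev B.1 (E.i n) f = 0 := by
      intro n f
      have h := congrArg (fun C : Bil N F => ev C.1 n f) hB
      exact h
    have h2 : ∀ f n, ev B.1 f (E.i n) = 0 := exA_right E he B h1
    have hm : ∀ f f', E.π f = E.π f' → ∃ n, E.i n = f - f' := by
      intro f f' hff
      exact E.exists_i (by rw [map_sub, hff, sub_self])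
    have h3 : ∀ f f' g, E.π f = E.π f' → ev B.1 f g = ev B.1 f' g := by
      intro f f' g hff
      obtain ⟨n, hn⟩ := hm f f' hff
      have h4 := h1 n g
      rw [hn, ev_sub_left] at h4
      exact sub_eq_zero.mp h4
    have h4 : ∀ f g g', E.π g = E.π g' → ev B.1 f g = ev B.1 f g' := by
      intro f g g' hff
      obtain ⟨n, hn⟩ := hm g g' hff
      have h5 := h2 f n
      rw [hn, ev_sub_right] at h5
      exact sub_eq_zero.mp h5
    have hs : ∀ m, E.π (Function.surjInv E.hπ m) = m := Function.surjInv_eq E.hπ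
    have hk : ∀ (c : k) f, E.π (c • f) = c • E.π f := fun c f => E.π.map_smul_of_tower c f
    let B' : BF k M.X M.X := BF.mk
      (fun m m' => ev B.1 (Function.surjInv E.hπ m) (Function.surjInv E.hπ m'))
      (by
        intro v v' w
        rw [← ev_add_left]
        exact h3 _ _ _ (by rw [map_add, hs, hs, hs]))
      (by
        intro c v w
        rw [← ev_smul_left]
        exact h3 _ _ _ (by rw [hk, hs, hs]))
      (by
        intro v w w'
        rw [← ev_add_right]
        exact h4 _ _ _ (by rw [map_add, hs, hs, hs]))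
      (by
        intro c v w
        rw [← ev_smul_right]
        exact h4 _ _ _ (by rw [hk, hs, hs]))
    have hB' : bcomp E.πk E.πk B' = B.1 := by
      refine BF.ext (fun f f' => ?_)
      rw [ev_bcomp, BF.ev_mk, E.πk_apply, E.πk_apply]
      rw [h3 (Function.surjInv E.hπ (E.π f)) f _ (hs _)]
      exact h4 _ _ _ (hs _)
    have hev : ∀ f f', ev B' (E.π f) (E.π f') = ev B.1 f f' := by
      intro f f'
      rw [← hB', ev_bcomp, E.πk_apply, E.πk_apply]
    refine ⟨⟨B', ?_, ?_⟩, ?_⟩
    · intro a m n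
      obtain ⟨f, rfl⟩ := E.hπ m
      obtain ⟨f', rfl⟩ := E.hπ n
      rw [← map_smul, hev, ← E.R_π, hev]
      exact B.2.1 a f f'
    · refine BF.ext (fun m n => ?_)
      obtain ⟨f, rfl⟩ := E.hπ m
      obtain ⟨f', rfl⟩ := E.hπ n
      have h5 := fl_bcomp E.πk E.πk E.gπk E.gπk B'
      rw [hB', B.2.2] at h5
      have h6 := congrArg (fun C => ev C f f') h5
      simp only [ev_bcomp, E.πk_apply, ev_smul] at h6
      rw [← h6, ev_smul, hev]
    · exact Subtype.ext hB'

theorem mA_hom (e : k) : Hom0 (syG M e) (syG F e) (mA E e) := by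
  intro δ B
  refine Subtype.ext ?_
  rw [mA_val, syG_p, syG_p, mA_val]
  exact bcomp_bilp E.πk E.πk E.gπk E.gπk δ B.1

theorem mB_hom (e : k) : Hom0 (syG F e) (bilG N F) (mB E e) := by
  intro δ B
  refine Subtype.ext ?_
  rw [mB_val, syG_p, bilG_p, mB_val]
  exact bcomp_bilp E.ik LinearMap.id E.gik (hom0_id F.H) δ B.1

theorem mC_hom (e : k) (he : e * e = 1) : Hom0 (bilG N F) (syG N (-e)) (mC E e he) := by
  intro δ B
  refine Subtype.ext ?_
  rw [mC_val, syG_p, bilG_p, mC_val, map_sub, map_smul, ← fl_bilp,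
    bcomp_bilp LinearMap.id E.ik (hom0_id N.H) E.gik δ B.1]

end Pool.Agent.TGC
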