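import Pool.Agent.TGC.Maps

/-!
# TGC-EXB: the second part of the four term sequence

PLAN.  Adapt `Pool/Agent/TG/ExB.lean`, but work with forms and the maps `fl`, `bcomp` instead of
values (`fl_fl`, `fl_bcomp`, `fl_mem`, `bcomp` of a composition; all maps `k`-linear):
`exB_desc`: `D ∈ Bil P F` with `D(p, f) = 0` for `π f = 0` comes from `D' ∈ Bil P M` with
`bcomp id πk D' = D`.
`exB_ker`, the inclusion from right to left: let `B ∈ Bil N F`, `mC B = 0`, that is
`K = e (fl K)` for `K = bcomp id ik B`.  `LC` gives `B' ∈ Bil F F`, `bcomp ik id B' = B`.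
`G = B' - e (fl B')`, so `fl G = -e G` and `bcomp ik ik G = K - e (fl K) = 0`.
`D = bcomp ik id G ∈ Bil N F` vanishes on `N × range i`: `D = bcomp id πk B1`, `B1 ∈ Bil N M`.
`LA`: `B1 = bcomp ik id E1`, `E1 ∈ Bil F M`.  `P1 = bcomp id πk E1 ∈ Bil F F`.
`L = G - P1` has `bcomp ik id L = 0`; so `fl L ∈ Bil F F` vanishes on `F × range i`
(`fl_bcomp`), `fl L = bcomp id πk E2 =: P2`, `E2 ∈ Bil F M`.  So `G = P1 + fl P2`.
`S = B' - (1/2) (fl P2 - e (fl P1))`.  Then `fl S = e S` and `bcomp ik id S = B` because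
`bcomp ik id (fl P1) = fl (bcomp id ik P1)`, `bcomp id ik P1 = 0` (`π i = 0`), same for `P2`.
`exB_surj`: `LB` for `(1/2) K`, `K ∈ S^(-e)(N)`: `bcomp id ik B = (1/2) K`, and
`(1/2) K - e (fl ((1/2) K)) = (1/2) K + (1/2) e e K = K`.
-/

set_option autoImplicit false

noncomputable section

universe u v

namespace Pool.Agent.TGC

open Pool.Agent.TG (Du BF ev bcomp ev_bcomp ev_add ev_smul ev_sub ev_zero_left ev_zero_right
  ev_add_left ev_add_right ev_smul_left ev_smul_right ev_sub_left ev_sub_right)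

variable {k A : Type u} {Γ : Type v} [Field k] [AddCommGroup Γ] [Ring A] [Algebra k A]
  {C : CA k Γ A}

variable {N F M : GM C} (E : Ex N F M)

private theorem exB_desc {P : GM C} {D : BF k P.X F.X} (hD : D ∈ Bil P F)
    (h0 : ∀ p f, E.π f = 0 → ev D p f = 0) :
    ∃ D' ∈ Bil P M, bcomp LinearMap.id E.πk D' = D := by
  have hw : ∀ n f f', E.π f = E.π f' → ev D n f = ev D n f' := by
    intro n f f' h
    have h1 := h0 n (f - f') (by rw [map_sub, h, sub_self])
    rw [ev_sub_right] at h1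
    exact sub_eq_zero.mp h1
  have hs : ∀ m, E.π (Function.surjInv E.hπ m) = m := Function.surjInv_eq E.hπ
  have hk : ∀ (c : k) (f : F.X), E.π (c • f) = c • E.π f := fun c f => E.πk.map_smul c f
  refine ⟨BF.mk (fun n m => ev D n (Function.surjInv E.hπ m)) ?_ ?_ ?_ ?_, ?_, ?_⟩
  · intro v v' w
    exact ev_add_left _ _ _ _
  · intro c v w
    exact ev_smul_left _ _ _ _
  · intro v w w'
    rw [← ev_add_right]
    exact hw _ _ _ (by rw [map_add, hs, hs, hs])
  · intro c v w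
    rw [← ev_smul_right]
    exact hw _ _ _ (by rw [hk, hs, hs])
  · intro a m n
    rw [BF.ev_mk, BF.ev_mk, hD a m]
    exact hw _ _ _ (by rw [E.R_π, hs, hs])
  · refine BF.ext (fun n f => ?_)
    rw [ev_bcomp, BF.ev_mk]
    exact hw _ _ _ (hs _)

private theorem exB_zero (E' : BF k F.X M.X) :
    bcomp E.ik LinearMap.id (fl F F (bcomp LinearMap.id E.πk E')) = 0 := by
  rw [← fl_bcomp LinearMap.id E.ik (hom0_id F.H) E.gik]
  have h1 : bcomp LinearMap.id E.ik (bcomp LinearMap.id E.πk E') = 0 := by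
    refine BF.ext (fun f n => ?_)
    rw [ev_bcomp, ev_bcomp, E.ik_apply, E.πk_apply, E.π_i, ev_zero_right]
    rfl
  rw [h1, map_zero]

private theorem exB_half (h2 : (2 : k) ≠ 0) : ∃ c : k, c * 2 = 1 := ⟨2⁻¹, inv_mul_cancel₀ h2⟩

private theorem exB_le (e : k) (he : e * e = 1) :
    LinearMap.range (mB E e) ≤ LinearMap.ker (mC E e he) := by
  rintro _ ⟨B, rfl⟩
  rw [LinearMap.mem_ker]
  refine Subtype.ext ?_
  have h1 : bcomp LinearMap.id E.ik (mB E e B).1 = bcomp E.ik E.ik B.1 := by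
    rw [mB_val]
    exact BF.ext (fun n n' => rfl)
  rw [mC_val, h1, fl_bcomp E.ik E.ik E.gik E.gik, B.2.2, map_smul, smul_smul, he, one_smul,
    sub_self]
  rfl

theorem exB_ker (h2 : (2 : k) ≠ 0) (e : k) (he : e * e = 1)
    (LA : ∀ B ∈ Bil N M, ∃ B' ∈ Bil F M, ∀ n m, ev B' (E.i n) m = ev B n m)
    (LC : ∀ B ∈ Bil N F, ∃ B' ∈ Bil F F, ∀ n f, ev B' (E.i n) f = ev B n f) :
    LinearMap.range (mB E e) = LinearMap.ker (mC E e he) := by
  refine le_antisymm (exB_le E e he) ?_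
  intro B hB
  rw [LinearMap.mem_ker] at hB
  have hK := congrArg Subtype.val hB
  rw [mC_val] at hK
  obtain ⟨B', hB'1, hB'2⟩ := LC B.1 B.2
  have hBr : bcomp E.ik LinearMap.id B' = B.1 := BF.ext (fun n f => hB'2 n f)
  obtain ⟨G, hGd⟩ : ∃ G, G = B' - e • fl F F B' := ⟨_, rfl⟩
  have hG : G ∈ Bil F F := by
    rw [hGd]
    exact Submodule.sub_mem _ hB'1 (Submodule.smul_mem _ _ (fl_mem hB'1))
  have hGf : fl F F G = -(e • G) := by
    rw [hGd, map_sub, map_smul, fl_fl, smul_sub, smul_smul, he, one_smul]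
    abel
  have hG0 : bcomp E.ik E.ik G = 0 := by
    have h1 : bcomp E.ik E.ik B' = bcomp LinearMap.id E.ik B.1 := by
      rw [← hBr]
      exact BF.ext (fun n n' => rfl)
    rw [hGd, map_sub, map_smul, ← fl_bcomp E.ik E.ik E.gik E.gik, h1]
    exact hK
  obtain ⟨B1, hB1, hB1e⟩ := exB_desc E (E.restr_mem hG) (by
    intro n f hf
    obtain ⟨n', rfl⟩ := E.exists_i hf
    have h1 : ev (bcomp E.ik E.ik G) n n' = 0 := by
      rw [hG0]
      rfl
    exact h1)
  obtain ⟨E1, hE1, hE1e⟩ := LA B1 hB1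
  have hE1r : bcomp E.ik LinearMap.id E1 = B1 := BF.ext (fun n m => hE1e n m)
  obtain ⟨P1, hP1⟩ : ∃ P1, P1 = bcomp LinearMap.id E.πk E1 := ⟨_, rfl⟩
  have hP1m : P1 ∈ Bil F F := by
    rw [hP1]
    exact E.pull_mem' hE1
  obtain ⟨L, hL⟩ : ∃ L, L = G - P1 := ⟨_, rfl⟩
  have hLm : L ∈ Bil F F := by
    rw [hL]
    exact Submodule.sub_mem _ hG hP1m
  have hL0 : bcomp E.ik LinearMap.id L = 0 := by
    have h1 : bcomp E.ik LinearMap.id P1 = bcomp LinearMap.id E.πk B1 := by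
      rw [hP1, ← hE1r]
      exact BF.ext (fun n n' => rfl)
    rw [hL, map_sub, h1, hB1e, sub_self]
  have hL1 : bcomp LinearMap.id E.ik (fl F F L) = 0 := by
    rw [← fl_bcomp E.ik LinearMap.id E.gik (hom0_id F.H), hL0, map_zero]
  obtain ⟨E2, hE2, hE2e⟩ := exB_desc E (fl_mem hLm) (by
    intro p f hf
    obtain ⟨n', rfl⟩ := E.exists_i hf
    have h1 : ev (bcomp LinearMap.id E.ik (fl F F L)) p n' = 0 := by
      rw [hL1]
      rfl
    exact h1)
  obtain ⟨P2, hP2⟩ : ∃ P2, P2 = fl F F L := ⟨_, rfl⟩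
  have hP2m : P2 ∈ Bil F F := by
    rw [hP2]
    exact fl_mem hLm
  have hGs : G = P1 + fl F F P2 := by
    rw [hP2, fl_fl, hL]
    abel
  have hz1 : bcomp E.ik LinearMap.id (fl F F P1) = 0 := by
    rw [hP1]
    exact exB_zero E E1
  have hz2 : bcomp E.ik LinearMap.id (fl F F P2) = 0 := by
    rw [hP2, ← hE2e]
    exact exB_zero E E2
  obtain ⟨c, hc⟩ := exB_half h2
  obtain ⟨S, hS⟩ : ∃ S, S = B' - c • (fl F F P2 - e • fl F F P1) := ⟨_, rfl⟩
  have hSm : S ∈ Bil F F := by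
    rw [hS]
    exact Submodule.sub_mem _ hB'1 (Submodule.smul_mem _ _
      (Submodule.sub_mem _ (fl_mem hP2m) (Submodule.smul_mem _ _ (fl_mem hP1m))))
  have hSf : fl F F S = e • S := by
    refine BF.ext (fun m n => ?_)
    have e1 : ev B' m n - e * ev (fl F F B') m n = ev P1 m n + ev (fl F F P2) m n := by
      rw [← ev_smul, ← ev_sub, ← hGd, hGs, ev_add]
    have e2 : ev (fl F F P1) m n + ev P2 m n = -(e * (ev P1 m n + ev (fl F F P2) m n)) := by
      rw [← ev_add, ← ev_add, ← hGs, ← ev_smul]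
      have h3 : fl F F P1 + P2 = -(e • G) := by
        rw [← hGf, hGs, map_add, fl_fl]
      rw [h3]
      rfl
    rw [hS, map_sub, map_smul, map_sub, map_smul, fl_fl, fl_fl, ev_sub, ev_smul, ev_sub, ev_smul,
      ev_smul, ev_sub, ev_smul, ev_sub, ev_smul]
    linear_combination (-e) * e1 - c * e2 - (ev (fl F F B') m n + c * ev (fl F F P1) m n) * he +
      (e * (ev P1 m n + ev (fl F F P2) m n)) * hc
  refine ⟨⟨S, hSm, hSf⟩, Subtype.ext ?_⟩
  rw [mB_val]
  change bcomp E.ik LinearMap.id S = B.1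
  rw [hS, map_sub, map_smul, map_sub, map_smul, hz1, hz2, hBr, smul_zero, sub_zero, smul_zero,
    sub_zero]

theorem exB_surj (h2 : (2 : k) ≠ 0) (e : k) (he : e * e = 1)
    (LB : ∀ K ∈ Bil N N, ∃ B ∈ Bil N F, ∀ n n', ev B n (E.i n') = ev K n n') :
    Function.Surjective (mC E e he) := by
  intro K
  obtain ⟨c, hc⟩ := exB_half h2
  obtain ⟨B, hB, hBe⟩ := LB (c • K.1) (Submodule.smul_mem _ _ K.2.1)
  have hBr : bcomp LinearMap.id E.ik B = c • K.1 := BF.ext (fun n n' => hBe n n')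
  refine ⟨⟨B, hB⟩, Subtype.ext ?_⟩
  rw [mC_val]
  change bcomp LinearMap.id E.ik B - e • fl N N (bcomp LinearMap.id E.ik B) = K.1
  rw [hBr, map_smul, K.2.2, smul_smul, smul_smul, ← sub_smul]
  have h3 : c - e * c * -e = 1 := by
    linear_combination c * he + hc
  rw [h3, one_smul]

end Pool.Agent.TGC
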