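import Pool.Agent.TGC.Rec
import Pool.Agent.TGC.DualH

/-!
# TGC-FIN: `A^*` has no symmetric or no antisymmetric forms

PLAN.  `num`: write `r` for `reflect (2 * s)`.  `reflect (2 s + 2 s) (T * Q) = r T * r Q` and
`reflect (2 s + 2 s) (h * (g * r Q)) = r h * (g * Q)` (`Polynomial.reflect_mul`, degrees at most
`2 s`; `r (r Q) = Q` coefficientwise by `Polynomial.coeff_reflect`, `Polynomial.revAt_invol`;
`r (g * Q) = g * r Q`, for example `Polynomial.reflect_C_mul`).  So `r T * r Q = g * r h * Q`.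
Multiply with `T * Q = g * h * r Q` and cancel `Q * r Q ≠ 0` (`reflect_eq_zero_iff`):
`T * r T = h * r h` (`g * g = 1`).  Evaluate at `1`: the value of `r p` at `1` is the value of `p`
at `1` if the degree of `p` is at most `2 s` (`Polynomial.eval₂_reflect_mul_pow` with
`x = 1`, or sums of coefficients): `T(1)^2 = h(1)^2`.
`sy_zero`: `defects_zero` for `M = A^*`, `t = s`; `T = M.s 1 - M.s (-1)`, `Q = hq C C.toGr`,
`h = hp C C.toGr`; `T * Q = h * (sg c) * reflect (2 s) Q`;
`Q.coeff 0 ≠ 0`: the only degree with `deg γ ≤ 0` and a nonzero component is `0`, where the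
dimension is `1` and the sign is `1` (or: `Q ≠ 0` because the coefficient is `dm C.toGr 0 ≥ 1`,
`p 0 1 = 1 ≠ 0`).  `natDegree T ≤ 2 s`: all forms of degree `> 2 s` vanish.
From `bb = 0`: `(s_1(1) + s_(-1)(1)) (dim A) = (dim A)^2`.  So `s_1(1) - s_(-1)(1) = ± dim A` and
`s_1(1) + s_(-1)(1) = dim A`; `hp_eval`.
-/

set_option autoImplicit false

noncomputable section

universe u v

namespace Pool.Agent.TGC

open Polynomial

variable {k A : Type u} {Γ : Type v} [Field k] [AddCommGroup Γ] [Ring A] [Algebra k A]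
  {C : CA k Γ A}

private theorem Fin_eval_reflect (f : ℤ[X]) (N : ℕ) (hf : f.natDegree ≤ N) :
    (reflect N f).eval 1 = f.eval 1 := by
  let _ : Invertible (1 : ℤ) := invertibleOne
  have h := eval₂_reflect_mul_pow (RingHom.id ℤ) (1 : ℤ) N f hf
  rw [invOf_one, one_pow, mul_one] at h
  exact h

private theorem Fin_dual_zero (C : CA k Γ A) (c γ : Γ) (φ : Da k A)
    (h : ∀ x, C.p (c - γ) x = 0) : (dualGr C.toGr c).p γ φ = 0 := by
  refine Da.ext fun x => ?_
  rw [dualGr_p, h, map_zero]
  rfl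

private theorem Fin_reflect_int (g : ℤ) (N : ℕ) (f : ℤ[X]) :
    reflect N ((g : ℤ[X]) * f) = (g : ℤ[X]) * reflect N f := by
  rw [← C_eq_intCast]
  exact reflect_C_mul f g N

private theorem Fin_reflect_reflect (N : ℕ) (f : ℤ[X]) : reflect N (reflect N f) = f := by
  ext i
  rw [coeff_reflect, coeff_reflect, revAt_invol]

theorem num (T Q h : ℤ[X]) (g : ℤ) (s : ℕ) (hg : g * g = 1) (hQ : Q ≠ 0)
    (hT : T.natDegree ≤ 2 * s) (hQs : Q.natDegree ≤ 2 * s) (hh : h.natDegree ≤ s)
    (h1 : T * Q = h * ((g : ℤ[X]) * reflect (2 * s) Q)) : (T.eval 1) ^ 2 = (h.eval 1) ^ 2 := by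
  have hg' : (g : ℤ[X]) * (g : ℤ[X]) = 1 := by
    have h := congrArg (fun z : ℤ => (z : ℤ[X])) hg
    push_cast at h
    exact h
  have hrQ : (reflect (2 * s) Q).natDegree ≤ 2 * s := by
    refine natDegree_le_iff_coeff_eq_zero.mpr fun N hN => ?_
    rw [coeff_reflect, revAt_eq_self_of_lt hN]
    exact coeff_eq_zero_of_natDegree_lt (lt_of_le_of_lt hQs hN)
  have hgQ : ((g : ℤ[X]) * reflect (2 * s) Q).natDegree ≤ 2 * s := by
    refine (natDegree_mul_le).trans ?_
    rw [natDegree_intCast, zero_add]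
    exact hrQ
  have hh' : h.natDegree ≤ 2 * s := by omega
  have e1 : reflect (2 * s + 2 * s) (T * Q) = reflect (2 * s) T * reflect (2 * s) Q :=
    reflect_mul T Q hT hQs
  have e2 : reflect (2 * s + 2 * s) (h * ((g : ℤ[X]) * reflect (2 * s) Q)) =
      reflect (2 * s) h * ((g : ℤ[X]) * Q) := by
    rw [reflect_mul h _ hh' hgQ, Fin_reflect_int, Fin_reflect_reflect]
  rw [h1, e2] at e1
  have hrQ0 : reflect (2 * s) Q ≠ 0 := fun h => hQ (by rwa [reflect_eq_zero_iff] at h)
  have e3 : (T * reflect (2 * s) T) * (Q * reflect (2 * s) Q) =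
      (h * reflect (2 * s) h) * (Q * reflect (2 * s) Q) := by
    calc (T * reflect (2 * s) T) * (Q * reflect (2 * s) Q)
        = (T * Q) * (reflect (2 * s) T * reflect (2 * s) Q) := by ring
      _ = (h * ((g : ℤ[X]) * reflect (2 * s) Q)) * (reflect (2 * s) h * ((g : ℤ[X]) * Q)) := by
          rw [h1, e1]
      _ = ((g : ℤ[X]) * (g : ℤ[X])) * ((h * reflect (2 * s) h) * (Q * reflect (2 * s) Q)) := by
          ring
      _ = _ := by rw [hg', one_mul]
  have e4 := mul_right_cancel₀ (mul_ne_zero hQ hrQ0) e3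
  have e5 := congrArg (fun p : ℤ[X] => p.eval 1) e4
  simp only [eval_mul] at e5
  rw [Fin_eval_reflect T _ hT, Fin_eval_reflect h _ hh'] at e5
  rw [sq, sq]
  exact e5

theorem sy_zero [Module.Finite k A] [Nontrivial A] (h2 : (2 : k) ≠ 0) (C : CA k Γ A) (c : Γ)
    (s : ℕ) (hc : C.dg c = s) (hs : ∀ γ a, (s : ℤ) < C.dg γ → C.p γ a = 0)
    (hv : Van (daM C c) (3 * s + 2)) :
    Module.finrank k (Sy (daM C c) 1) = 0 ∨ Module.finrank k (Sy (daM C c) (-1)) = 0 := by
  classical
  have hlow : (daM C c).low 0 := by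
    intro γ φ hγ
    exact Fin_dual_zero C c γ φ fun x =>
      hs (c - γ) x (by rw [map_sub, hc]; push_cast at hγ; omega)
  have hup : (daM C c).up s := by
    intro γ φ hγ
    have h1 : C.dg (c - γ) < 0 := by rw [map_sub, hc]; omega
    exact Fin_dual_zero C c γ φ fun x => C.pos (c - γ) x (by
      intro h0
      rw [h0, map_zero] at h1
      omega) h1.le
  obtain ⟨htt, hbb⟩ := defects_zero h2 (daM C c) s s hs hlow hup (by
    have e : 2 * s + s + 2 = 3 * s + 2 := by ring
    rw [e]
    exact hv)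
  have hd : (hp C C.toGr).natDegree ≤ s := hp_deg C C.toGr s hs
  have hQd : (hq C C.toGr).natDegree ≤ 2 * s := (hq_deg_hp C C.toGr).trans (by omega)
  have hsd : ∀ e : k, ((daM C c).s e).natDegree ≤ 2 * s := by
    intro e
    refine hp_deg C (syG (daM C c) e) (2 * s) fun γ B hγ => ?_
    apply Subtype.ext
    rw [syG_p]
    show bilp (daM C c).H (daM C c).H γ B.1 = 0
    refine Pool.Agent.TG.BF.ext fun v w => ?_
    rw [bilp_apply]
    refine (Finset.sum_eq_zero fun α _ => ?_).trans ?_
    · push_cast at hγ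
      rcases lt_or_ge (s : ℤ) (C.dg α) with h | h
      · rw [hup α v h, Pool.Agent.TG.ev_zero_left]
      · rw [hup (γ - α) w (by rw [map_sub]; omega), Pool.Agent.TG.ev_zero_right]
    · simp
  have hTd : ((daM C c).s 1 - (daM C c).s (-1)).natDegree ≤ 2 * s :=
    (natDegree_sub_le _ _).trans (max_le (hsd _) (hsd _))
  have hQ0 : hq C C.toGr ≠ 0 := by
    intro h0
    have h1 := congrArg (fun p : ℤ[X] => p.coeff 0) h0
    simp only [coeff_zero] at h1
    have h3 : (hq C C.toGr).coeff 0 = (dm C.toGr 0 : ℤ) := by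
      have h4 : hq C C.toGr = ∑ γ ∈ insert 0 C.supp, (dm C.toGr γ : ℤ[X]) * C.w' γ :=
        hw_eq C.w' C.toGr _ fun γ hγ => dm_notMem C.toGr fun h => hγ (Finset.mem_insert_of_mem h)
      rw [h4, finsetSum_coeff, Finset.sum_eq_single 0]
      · unfold CA.w'
        rw [C.sg_zero, map_zero]
        simp
      · intro γ _ hγ
        by_cases hdm : dm C.toGr γ = 0
        · rw [hdm, Nat.cast_zero, zero_mul, coeff_zero]
        · have h5 : 0 < C.dg γ := by
            by_contra hcon
            exact hdm (dm_zero _ fun a => C.pos γ a hγ (by omega))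
          unfold CA.w'
          have h6 : (dm C.toGr γ : ℤ[X]) * ((C.sg γ : ℤ[X]) * X ^ (2 * (C.dg γ).toNat)) =
              Polynomial.C ((dm C.toGr γ : ℤ) * C.sg γ) * X ^ (2 * (C.dg γ).toNat) := by
            have e7 : (dm C.toGr γ : ℤ[X]) = Polynomial.C (dm C.toGr γ : ℤ) :=
              (map_natCast (Polynomial.C : ℤ →+* ℤ[X]) _).symm
            have e8 : (C.sg γ : ℤ[X]) = Polynomial.C (C.sg γ) :=
              (eq_intCast (Polynomial.C : ℤ →+* ℤ[X]) _).symm
            rw [e7, e8, map_mul, mul_assoc]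
          rw [h6, coeff_C_mul, coeff_X_pow, if_neg (by omega), mul_zero]
      · intro h
        exact absurd (Finset.mem_insert_self 0 C.supp) h
    rw [h3] at h1
    have h7 : 0 < dm C.toGr 0 := by
      unfold dm
      rw [Module.finrank_pos_iff, _root_.nontrivial_iff]
      refine ⟨⟨C.p 0 1, LinearMap.mem_range_self _ _⟩, 0, fun h => ?_⟩
      have h8 := congrArg Subtype.val h
      simp only [ZeroMemClass.coe_zero] at h8
      rw [C.one_in] at h8
      exact one_ne_zero h8
    omega
  have key := num ((daM C c).s 1 - (daM C c).s (-1)) (hq C C.toGr) (hp C C.toGr) (C.sg c) s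
    (C.sg_sq c) hQ0 hTd hQd hd (by
      rw [← hq_da C c s hc hs]
      exact sub_eq_zero.mp htt)
  have hb1 := congrArg (fun p : ℤ[X] => p.eval 1) (sub_eq_zero.mp hbb)
  simp only [eval_mul, eval_add, eval_pow] at hb1
  rw [eval_sub] at key
  have e1 : ∀ e : k, ((daM C c).s e).eval 1 = (Module.finrank k (Sy (daM C c) e) : ℤ) :=
    fun e => hp_eval C (syG (daM C c) e)
  have e2 : (hp C C.toGr).eval 1 = (Module.finrank k A : ℤ) := hp_eval C C.toGr
  have e3 : (hp C (daM C c).H).eval 1 = (Module.finrank k A : ℤ) := by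
    rw [hp_eval C (daM C c).H]
    have h9 : Module.finrank k (daM C c).X = Module.finrank k A := finrank_da
    rw [h9]
  rw [e1, e1, e2] at key hb1
  rw [e3] at hb1
  have hpos : (0 : ℤ) < Module.finrank k A := by exact_mod_cast Module.finrank_pos
  have hsum : (Module.finrank k (Sy (daM C c) 1) : ℤ) + Module.finrank k (Sy (daM C c) (-1)) =
      Module.finrank k A := by
    have h10 : ((Module.finrank k (Sy (daM C c) 1) : ℤ) + Module.finrank k (Sy (daM C c) (-1))) *
        Module.finrank k A = Module.finrank k A * Module.finrank k A := by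
      rw [hb1, sq]
    exact mul_right_cancel₀ hpos.ne' h10
  rw [← hsum] at key
  have h11 : (Module.finrank k (Sy (daM C c) 1) : ℤ) * Module.finrank k (Sy (daM C c) (-1)) = 0 := by
    nlinarith
  rcases mul_eq_zero.mp h11 with h | h
  · left
    exact_mod_cast h
  · right
    exact_mod_cast h

end Pool.Agent.TGC
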