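import Pool.Agent.TGC.ExA
import Pool.Agent.TGC.ExB
import Pool.Agent.TGC.Hp

/-!
# TGC-FOUR: the four term sequence and Hilbert polynomials
-/

set_option autoImplicit false

noncomputable section

universe u v

namespace Pool.Agent.TGC

open Pool.Agent.TG (Du BF ev bcomp)

variable {k A : Type u} {Γ : Type v} [Field k] [AddCommGroup Γ] [Ring A] [Algebra k A]
  {C : CA k Γ A}

theorem hp_seq {N F M : GM C} (E : Ex N F M)
    (h2 : (2 : k) ≠ 0) (e : k) (he : e * e = 1)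
    (LA : ∀ B ∈ Bil N M, ∃ B' ∈ Bil F M, ∀ n m, ev B' (E.i n) m = ev B n m)
    (LB : ∀ K ∈ Bil N N, ∃ B ∈ Bil N F, ∀ n n', ev B n (E.i n') = ev K n n')
    (LC : ∀ B ∈ Bil N F, ∃ B' ∈ Bil F F, ∀ n f, ev B' (E.i n) f = ev B n f) :
    M.s e + hp C (bilG N F) = F.s e + N.s (-e) :=
  hw_four C.w _ _ _ _ (mA E e) (mB E e) (mC E e he) (exA_inj E e)
    (exA_ker E e he) (exB_ker E h2 e he LA LC) (exB_surj E h2 e he LB)
    (mA_hom E e) (mB_hom E e) (mC_hom E e he)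

end Pool.Agent.TGC
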