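import Pool.Agent.TGC.Wt

/-!
# TGC: graded free modules (definitions and interface) and the cover of a graded module
-/

set_option autoImplicit false

noncomputable section

universe u v

namespace Pool.Agent.TGC

open Polynomial

variable {k A : Type u} {Γ : Type v} [Field k] [AddCommGroup Γ] [Ring A] [Algebra k A]

/-- The graded free module `A^r` with basis elements of degrees `d t`. -/
abbrev frM [Module.Finite k A] (C : CA k Γ A) {r : ℕ} (d : Fin r → Γ) : GM C where
  X := Fin r → A
  H := Gr.pi (fun _ => C.toGr) d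
  hc := by
    intro α μ a x ha hx
    funext t
    have hx' : C.p (μ - d t) (x t) = x t := congrFun hx t
    change C.p (α + μ - d t) (a * x t) = a * x t
    rw [add_sub_assoc]
    exact C.mul_in α (μ - d t) a (x t) ha hx'

/-- The element `a e_t` of the free module. -/
def sgl [Module.Finite k A] (C : CA k Γ A) {r : ℕ} (d : Fin r → Γ) (t : Fin r) :
    A →ₗ[A] (frM C d).X := LinearMap.single A (fun _ => A) t

section

variable [Module.Finite k A] (C : CA k Γ A) {r : ℕ} (d : Fin r → Γ)

theorem frM_p (γ : Γ) (v : (frM C d).X) (t : Fin r) :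
    (frM C d).H.p γ v t = C.p (γ - d t) (v t) := rfl

theorem frM_in {γ : Γ} {v : (frM C d).X} (h : (frM C d).H.In γ v) (t : Fin r) :
    C.toGr.In (γ - d t) (v t) := congrFun h t

theorem sgl_same (t : Fin r) (a : A) : sgl C d t a t = a := by
  change (Pi.single t a : Fin r → A) t = a
  rw [Pi.single_eq_same]

theorem sgl_ne {t s : Fin r} (h : s ≠ t) (a : A) : sgl C d t a s = 0 := by
  change (Pi.single t a : Fin r → A) s = 0
  rw [Pi.single_eq_of_ne h]

theorem sgl_smul (t : Fin r) (a b : A) : a • sgl C d t b = sgl C d t (a * b) := by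
  rw [← map_smul, smul_eq_mul]

theorem sgl_ksmul (t : Fin r) (c : k) (b : A) : sgl C d t (c • b) = c • sgl C d t b :=
  (sgl C d t).map_smul_of_tower c b

theorem sgl_sum (v : (frM C d).X) : ∑ t, sgl C d t (v t) = v := Finset.univ_sum_single v

theorem sgl_in {α : Γ} {a : A} (ha : C.toGr.In α a) (t : Fin r) :
    (frM C d).H.In (α + d t) (sgl C d t a) := by
  classical
  refine funext (fun s => ?_)
  change C.p (α + d t - d s) (sgl C d t a s) = sgl C d t a s
  by_cases hs : s = t
  · subst hs
    rw [sgl_same, add_sub_cancel_right, ha.eq]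
  · rw [sgl_ne C d hs, map_zero]

theorem sgl_one_in (t : Fin r) : (frM C d).H.In (d t) (sgl C d t 1) := by
  have h := sgl_in C d (show C.toGr.In 0 1 from C.one_in) t
  rwa [zero_add] at h

/-- The right multiplication of the free module. -/
theorem sgl_R (t : Fin r) (a b : A) :
    (frM C d).R a (sgl C d t b) = sgl C d t (b * C.tw (-d t) a) := by
  refine C.toGr.ind (P := fun a => (frM C d).R a (sgl C d t b) =
    sgl C d t (b * C.tw (-d t) a)) ?_ ?_ ?_ a
  · simp
  · intro a a' h h'
    rw [map_add, LinearMap.add_apply, h, h', map_add, mul_add, map_add]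
  intro α a ha
  refine C.toGr.ind (P := fun b => (frM C d).R a (sgl C d t b) =
    sgl C d t (b * C.tw (-d t) a)) ?_ ?_ ?_ b
  · simp
  · intro b b' h h'
    rw [map_add, map_add, h, h', add_mul, map_add]
  intro β b hb
  rw [(frM C d).R_hom ha (sgl_in C d hb t), sgl_smul, C.tw_hom _ ha, mul_smul_comm,
    C.comm α β a b ha hb, sgl_ksmul, sgl_ksmul, smul_smul, C.ε_add, C.ε_neg']
  congr 1
  linear_combination (C.ε (d t) α) * C.ε_symm β α

theorem frM_R (a : A) (v : (frM C d).X) (t : Fin r) :
    (frM C d).R a v t = v t * C.tw (-d t) a := by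
  have h1 : (frM C d).R a v = ∑ s, sgl C d s (v s * C.tw (-d s) a) := by
    conv_lhs => rw [← sgl_sum C d v]
    rw [map_sum]
    exact Finset.sum_congr rfl (fun s _ => sgl_R C d s a (v s))
  rw [h1, Finset.sum_apply, Finset.sum_eq_single t]
  · exact sgl_same C d t _
  · intro s _ hs
    exact sgl_ne C d (fun h => hs h.symm) _
  · intro h
    exact absurd (Finset.mem_univ t) h

end

end Pool.Agent.TGC
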