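import Pool.Agent.TGC.Free
import Pool.Agent.TGC.Hp

/-!
# TGC-FREEB: Hilbert polynomials of free modules, the cover of a graded module

PLAN.  Adapt `Pool/Agent/TG/Free.lean`.  `hp_fr`, `hq_fr`: `hw_pi`, and `CA.w_add`, `CA.w'_add`,
`CA.dm_nonneg` (terms with `dm C.toGr γ = 0` vanish).
`cov_graded`: `Gr.ind` for the coordinates; or: by `hom0_of` it is enough that
`cov b v ∈ M_γ` for `v ∈ F_γ`; `frM_in`, `GM.smul_in`, `γ - d t + d t = γ`.
`cov_low`: let `v ∈ ker`, `deg γ ≤ m`, `w = p_γ v`.  Then `cov b w = 0`.  For every `t`: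
`w t = C.p (γ - d t) (v t)` where `deg (γ - d t) ≤ 0`; so `w t = 0` if `γ ≠ d t` (`C.pos`), and
`w t = C.p 0 (v t)` is a scalar if `γ = d t` (`C.conn`).  `b` is linearly independent over `k`.
(`m ≤ deg (d t)` because `b t ≠ 0`.)
-/

set_option autoImplicit false

noncomputable section

universe u v

namespace Pool.Agent.TGC

open Polynomial

variable {k A : Type u} {Γ : Type v} [Field k] [AddCommGroup Γ] [Ring A] [Algebra k A]

theorem hp_fr [Module.Finite k A] (C : CA k Γ A) {r : ℕ} (d : Fin r → Γ)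
    (hd : ∀ t, 0 ≤ C.dg (d t)) : hp C (frM C d).H = hp C C.toGr * ∑ t, C.w (d t) := by
  change hw C.w (Gr.pi (fun _ => C.toGr) d) = _
  rw [hw_pi, Finset.mul_sum]
  refine Finset.sum_congr rfl (fun t _ => ?_)
  rw [hp, hw, Finset.sum_mul]
  refine Finset.sum_congr rfl (fun γ _ => ?_)
  by_cases h : dm C.toGr γ = 0
  · rw [h, Nat.cast_zero, zero_mul, zero_mul, zero_mul]
  · rw [C.w_add (C.dm_nonneg h) (hd t), mul_assoc]

theorem hq_fr [Module.Finite k A] (C : CA k Γ A) {r : ℕ} (d : Fin r → Γ)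
    (hd : ∀ t, 0 ≤ C.dg (d t)) : hq C (frM C d).H = hq C C.toGr * ∑ t, C.w' (d t) := by
  change hw C.w' (Gr.pi (fun _ => C.toGr) d) = _
  rw [hw_pi, Finset.mul_sum]
  refine Finset.sum_congr rfl (fun t _ => ?_)
  rw [hq, hw, Finset.sum_mul]
  refine Finset.sum_congr rfl (fun γ _ => ?_)
  by_cases h : dm C.toGr γ = 0
  · rw [h, Nat.cast_zero, zero_mul, zero_mul, zero_mul]
  · rw [C.w'_add (C.dm_nonneg h) (hd t), mul_assoc]

/-- The map `A^r → M` with `e_t ↦ b_t`. -/
def cov {M : Type u} [AddCommGroup M] [Module A M] {r : ℕ} (b : Fin r → M) :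
    (Fin r → A) →ₗ[A] M := Fintype.linearCombination A b

theorem cov_apply {M : Type u} [AddCommGroup M] [Module A M] {r : ℕ} (b : Fin r → M)
    (v : Fin r → A) : cov b v = ∑ t, v t • b t := rfl

variable {C : CA k Γ A}

theorem cov_surj {M : Type u} [AddCommGroup M] [Module k M] [Module A M] [IsScalarTower k A M]
    {r : ℕ} (b : Module.Basis (Fin r) k M) :
    Function.Surjective (cov (A := A) (b : Fin r → M)) := by
  intro m
  refine ⟨fun t => algebraMap k A (b.repr m t), ?_⟩
  rw [cov_apply]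
  conv_rhs => rw [← b.sum_repr m]
  exact Finset.sum_congr rfl (fun t _ => algebraMap_smul A _ _)

theorem cov_graded [Module.Finite k A] (M : GM C) {r : ℕ} (d : Fin r → Γ) (b : Fin r → M.X)
    (hb : ∀ t, M.H.In (d t) (b t)) (γ : Γ) (v : (frM C d).X) :
    cov b ((frM C d).H.p γ v) = M.H.p γ (cov b v) := by
  have h1 : Hom0 (frM C d).H M.H ((cov b).restrictScalars k) := by
    refine hom0_of _ _ _ (fun γ v hv => ?_)
    change M.H.p γ (cov b v) = cov b v
    rw [cov_apply, map_sum]
    refine Finset.sum_congr rfl (fun t _ => ?_)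
    have h2 := M.smul_in (frM_in C d hv t) (hb t)
    rw [sub_add_cancel] at h2
    exact h2.eq
  exact h1 γ v

theorem cov_low [Module.Finite k A] (M : GM C) {r : ℕ} (d : Fin r → Γ)
    (b : Module.Basis (Fin r) k M.X) (hb : ∀ t, M.H.In (d t) (b t)) {m : ℕ} (hl : M.low m)
    (v : (frM C d).X) (hv : cov (b : Fin r → M.X) v = 0) {γ : Γ} (hγ : C.dg γ < ((m + 1 : ℕ) : ℤ)) :
    (frM C d).H.p γ v = 0 := by
  classical
  have hd : ∀ t, (m : ℤ) ≤ C.dg (d t) := by
    intro t
    by_contra h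
    have h1 := hl (d t) (b t) (by omega)
    rw [(hb t).eq] at h1
    exact b.ne_zero t h1
  have hw : cov (b : Fin r → M.X) ((frM C d).H.p γ v) = 0 := by
    rw [cov_graded M d _ hb, hv, map_zero]
  choose c hcc using fun t => C.conn (v t)
  have hcomp : ∀ t, (frM C d).H.p γ v t = algebraMap k A (if γ = d t then c t else 0) := by
    intro t
    rw [frM_p]
    split_ifs with h
    · rw [h, sub_self, hcc]
    · rw [map_zero]
      refine C.pos _ _ (sub_ne_zero.mpr h) ?_
      have h1 := hd t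
      rw [map_sub]
      push_cast at hγ
      omega
  rw [cov_apply] at hw
  have hw2 : ∑ t, (if γ = d t then c t else 0) • b t = 0 := by
    rw [← hw]
    refine Finset.sum_congr rfl (fun t _ => ?_)
    rw [hcomp t, algebraMap_smul]
  have hz := Fintype.linearIndependent_iff.mp b.linearIndependent _ hw2
  funext t
  rw [hcomp t, hz t, map_zero]
  rfl

end Pool.Agent.TGC
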