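import Pool.Agent.TGC.Main

/-!
# TGC-GEN: the theorem for algebras given by colour commuting homogeneous generators

PLAN.  `A` is spanned by the products `(l.map x).prod`, `l : List ι` (`Algebra.adjoin_eq_span`,
`Submonoid.closure`, or `Algebra.adjoin_induction`); such a product is in `𝒜 ((l.map g).sum)`
(`SetLike.list_prod_map_mem_graded` or induction), and `0 < dg ((l.map g).sum)` for `l ≠ []`.
`gen_mem`: if `a ∈ 𝒜 γ` then `a` is in the span of the products with `(l.map g).sum = γ`
(apply the projection to degree `γ`, `DirectSum.decompose_of_mem_same`,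
`DirectSum.decompose_of_mem_ne`, `Submodule.span_induction`).
`gen_zero`, `gen_pos`: from this.  `gen_comm`: for products by induction on the lists
(first `x i * m = ε (g i) γ • (m * x i)` for a product `m` of degree `γ`); then linearity
(`Submodule.span_induction` twice).  `ε 0 γ = 1`, `ε γ (α + β) = ε γ α * ε γ β` follow from
`hε`, `hε'`.
-/

set_option autoImplicit false

noncomputable section

universe u v w

namespace Pool.Agent.TGC

open CategoryTheory

variable {k A : Type u} {Γ : Type v} [Field k] [AddCommGroup Γ] [Ring A] [Algebra k A]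

section

private theorem ge_bi {Γ : Type v} [AddCommGroup Γ] {ε : Γ → Γ → k}
    (hε : ∀ α β γ, ε (α + β) γ = ε α γ * ε β γ) (hε' : ∀ α β, ε α β * ε β α = 1) :
    (∀ γ, ε 0 γ = 1) ∧ (∀ γ, ε γ 0 = 1) ∧ ∀ γ α β, ε γ (α + β) = ε γ α * ε γ β := by
  have hn : ∀ α β, ε α β ≠ 0 := fun α β h => by
    have := hε' α β
    rw [h, zero_mul] at this
    exact zero_ne_one this
  have h0 : ∀ γ, ε 0 γ = 1 := fun γ => by
    have h := hε 0 0 γ
    rw [add_zero] at h
    exact mul_left_cancel₀ (hn 0 γ) (by rw [mul_one]; exact h.symm)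
  refine ⟨h0, fun γ => ?_, fun γ α β => ?_⟩
  · have h := hε' γ 0
    rwa [h0, mul_one] at h
  · refine mul_right_cancel₀ (hn (α + β) γ) ?_
    rw [hε' γ (α + β), hε]
    have h1 := hε' γ α
    have h2 := hε' γ β
    calc (1 : k) = (ε γ α * ε α γ) * (ε γ β * ε β γ) := by rw [h1, h2, one_mul]
      _ = _ := by ring

private theorem ge_list {ι : Type w} (x : ι → A) (g : ι → Γ) {ε : Γ → Γ → k}
    (hε : ∀ α β γ, ε (α + β) γ = ε α γ * ε β γ) (hε' : ∀ α β, ε α β * ε β α = 1)
    (hcomm : ∀ i j, x i * x j = ε (g i) (g j) • (x j * x i)) (l l' : List ι) :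
    (l.map x).prod * (l'.map x).prod =
      ε (l.map g).sum (l'.map g).sum • ((l'.map x).prod * (l.map x).prod) := by
  obtain ⟨e0, e0', eb⟩ := ge_bi hε hε'
  have h1 : ∀ i, ∀ l' : List ι, x i * (l'.map x).prod =
      ε (g i) (l'.map g).sum • ((l'.map x).prod * x i) := by
    intro i l'
    induction l' with
    | nil => rw [List.map_nil, List.map_nil, List.prod_nil, List.sum_nil, e0', one_smul, mul_one, one_mul]
    | cons j l' ih =>
      rw [List.map_cons, List.map_cons, List.prod_cons, List.sum_cons, ← mul_assoc, hcomm, smul_mul_assoc,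
        mul_assoc, ih, mul_smul_comm, smul_smul, eb, mul_assoc]
  induction l with
  | nil => rw [List.map_nil, List.map_nil, List.prod_nil, List.sum_nil, e0, one_smul, mul_one, one_mul]
  | cons i l ih =>
    rw [List.map_cons, List.map_cons, List.prod_cons, List.sum_cons, mul_assoc, ih, mul_smul_comm,
      ← mul_assoc, h1, smul_mul_assoc, smul_smul, hε, mul_assoc, mul_comm (ε (g i) _)]

variable [DecidableEq Γ] (𝒜 : Γ → Submodule k A) [GradedAlgebra 𝒜] {ι : Type w} (x : ι → A)
  (g : ι → Γ) (hx : ∀ i, x i ∈ 𝒜 (g i)) (hgen : Algebra.adjoin k (Set.range x) = ⊤)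

include hx in
private theorem ge_hom (l : List ι) : (l.map x).prod ∈ 𝒜 (l.map g).sum := by
  induction l with
  | nil =>
    rw [List.map_nil, List.map_nil, List.prod_nil, List.sum_nil]
    exact SetLike.GradedOne.one_mem
  | cons i l ih =>
    rw [List.map_cons, List.map_cons, List.prod_cons, List.sum_cons]
    exact SetLike.GradedMul.mul_mem (hx i) ih

include hgen in
private theorem ge_span (a : A) : a ∈ Submodule.span k {m : A | ∃ l : List ι, m = (l.map x).prod} := by
  have h1 : a ∈ Subalgebra.toSubmodule (Algebra.adjoin k (Set.range x)) := by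
    rw [hgen]
    exact Submodule.mem_top
  rw [Algebra.adjoin_eq_span] at h1
  refine Submodule.span_mono ?_ h1
  intro m hm
  induction hm using Submonoid.closure_induction with
  | mem y hy =>
    obtain ⟨i, rfl⟩ := hy
    exact ⟨[i], by rw [List.map_singleton, List.prod_singleton]⟩
  | one => exact ⟨[], by rw [List.map_nil, List.prod_nil]⟩
  | mul y z _ _ hy hz =>
    obtain ⟨l, rfl⟩ := hy
    obtain ⟨l', rfl⟩ := hz
    exact ⟨l ++ l', by rw [List.map_append, List.prod_append]⟩

omit [DecidableEq Γ] in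
private theorem ge_pos (dg : Γ →+ ℤ) (hd : ∀ i, 0 < dg (g i)) (l : List ι) :
    0 ≤ dg (l.map g).sum ∧ (l ≠ [] → 0 < dg (l.map g).sum) := by
  induction l with
  | nil =>
    rw [List.map_nil, List.sum_nil, map_zero]
    exact ⟨le_rfl, fun h => absurd rfl h⟩
  | cons i l ih =>
    rw [List.map_cons, List.sum_cons, map_add]
    have := hd i
    exact ⟨by linarith [ih.1], fun _ => by linarith [ih.1]⟩

include hx hgen

theorem gen_mem {γ : Γ} {a : A} (ha : a ∈ 𝒜 γ) :
    a ∈ Submodule.span k {m : A | ∃ l : List ι, (l.map g).sum = γ ∧ m = (l.map x).prod} := by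
  have h1 : ∀ b : A, ((DirectSum.decompose 𝒜 b γ : 𝒜 γ) : A) ∈
      Submodule.span k {m : A | ∃ l : List ι, (l.map g).sum = γ ∧ m = (l.map x).prod} := by
    intro b
    have hb := ge_span x hgen b
    induction hb using Submodule.span_induction with
    | mem y hy =>
      obtain ⟨l, rfl⟩ := hy
      by_cases hl : (l.map g).sum = γ
      · have h2 := ge_hom 𝒜 x g hx l
        rw [hl] at h2
        rw [DirectSum.decompose_of_mem_same 𝒜 h2]
        exact Submodule.subset_span ⟨l, hl, rfl⟩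
      · rw [DirectSum.decompose_of_mem_ne 𝒜 (ge_hom 𝒜 x g hx l) hl]
        exact Submodule.zero_mem _
    | zero =>
      rw [DirectSum.decompose_zero]
      exact Submodule.zero_mem _
    | add y z _ _ hy hz =>
      rw [DirectSum.decompose_add, DirectSum.add_apply]
      exact Submodule.add_mem _ hy hz
    | smul c y _ hy =>
      rw [DirectSum.decompose_smul, DirectSum.smul_apply]
      exact Submodule.smul_mem _ c hy
  have h2 := h1 a
  rwa [DirectSum.decompose_of_mem_same 𝒜 ha] at h2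

theorem gen_zero (dg : Γ →+ ℤ) (hd : ∀ i, 0 < dg (g i)) :
    ∀ a ∈ 𝒜 0, ∃ c : k, a = algebraMap k A c := by
  intro a ha
  have h1 := gen_mem 𝒜 x g hx hgen ha
  clear ha
  induction h1 using Submodule.span_induction with
  | mem y hy =>
    obtain ⟨l, hl, rfl⟩ := hy
    by_cases h0 : l = []
    · rw [h0, List.map_nil, List.prod_nil]
      exact ⟨1, (map_one _).symm⟩
    · have h2 := (ge_pos g dg hd l).2 h0
      rw [hl, map_zero] at h2
      exact absurd h2 (lt_irrefl _)
  | zero => exact ⟨0, (map_zero _).symm⟩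
  | add y z _ _ hy hz =>
    obtain ⟨c, rfl⟩ := hy
    obtain ⟨d, rfl⟩ := hz
    exact ⟨c + d, (map_add _ _ _).symm⟩
  | smul c y _ hy =>
    obtain ⟨d, rfl⟩ := hy
    exact ⟨c * d, by rw [map_mul, Algebra.smul_def]⟩

theorem gen_pos (dg : Γ →+ ℤ) (hd : ∀ i, 0 < dg (g i)) :
    ∀ γ, γ ≠ 0 → dg γ ≤ 0 → 𝒜 γ = ⊥ := by
  intro γ hγ hdγ
  rw [eq_bot_iff]
  intro a ha
  have h1 := gen_mem 𝒜 x g hx hgen ha
  have h2 : {m : A | ∃ l : List ι, (l.map g).sum = γ ∧ m = (l.map x).prod} = ∅ := by
    rw [Set.eq_empty_iff_forall_notMem]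
    rintro m ⟨l, hl, -⟩
    by_cases h0 : l = []
    · rw [h0, List.map_nil, List.sum_nil] at hl
      exact hγ hl.symm
    · have h3 := (ge_pos g dg hd l).2 h0
      rw [hl] at h3
      exact absurd h3 (not_lt.2 hdγ)
  rw [h2, Submodule.span_empty] at h1
  exact h1

theorem gen_comm (ε : Γ → Γ → k) (hε : ∀ α β γ, ε (α + β) γ = ε α γ * ε β γ)
    (hε' : ∀ α β, ε α β * ε β α = 1)
    (hcomm : ∀ i j, x i * x j = ε (g i) (g j) • (x j * x i)) :
    ∀ α β, ∀ a ∈ 𝒜 α, ∀ b ∈ 𝒜 β, a * b = ε α β • (b * a) := by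
  intro α β a ha b hb
  have h1 := gen_mem 𝒜 x g hx hgen ha
  have h2 := gen_mem 𝒜 x g hx hgen hb
  clear ha hb
  induction h1 using Submodule.span_induction with
  | mem y hy =>
    obtain ⟨l, hl, rfl⟩ := hy
    induction h2 using Submodule.span_induction with
    | mem z hz =>
      obtain ⟨l', hl', rfl⟩ := hz
      rw [ge_list x g hε hε' hcomm, hl, hl']
    | zero => rw [mul_zero, zero_mul, smul_zero]
    | add z z' _ _ hz hz' => rw [mul_add, add_mul, smul_add, hz, hz']
    | smul c z _ hz => rw [mul_smul_comm, hz, smul_mul_assoc, smul_smul, smul_smul, mul_comm]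
  | zero => rw [mul_zero, zero_mul, smul_zero]
  | add y y' _ _ hy hy' => rw [mul_add, add_mul, smul_add, hy, hy']
  | smul c y _ hy => rw [mul_smul_comm, smul_mul_assoc, hy, smul_smul, smul_smul, mul_comm]

end

theorem main_gen [Module.Finite k A] [DecidableEq Γ] (h2 : (2 : k) ≠ 0)
    (𝒜 : Γ → Submodule k A) [GradedAlgebra 𝒜]
    (ε : Γ → Γ → k) (hε : ∀ α β γ, ε (α + β) γ = ε α γ * ε β γ)
    (hε' : ∀ α β, ε α β * ε β α = 1) (dg : Γ →+ ℤ) {ι : Type w} (x : ι → A) (g : ι → Γ)
    (hx : ∀ i, x i ∈ 𝒜 (g i)) (hd : ∀ i, 0 < dg (g i))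
    (hgen : Algebra.adjoin k (Set.range x) = ⊤)
    (hcomm : ∀ i j, x i * x j = ε (g i) (g j) • (x j * x i)) (s : ℕ)
    (hs : ∀ γ, (s : ℤ) < dg γ → 𝒜 γ = ⊥)
    (hv : ∀ I : ModuleCat.{u} A, Module.Finite A I → Module.Injective A I → ∀ i : ℕ, 0 < i →
      i ≤ 3 * s + 2 → Subsingleton (Abelian.Ext.{u} I (ModuleCat.of A A) i)) :
    Module.Injective A A :=
  main_tc h2 𝒜 ε hε hε' dg s (gen_zero 𝒜 x g hx hgen dg hd) (gen_pos 𝒜 x g hx hgen dg hd) hs
    (gen_comm 𝒜 x g hx hgen ε hε hε' hcomm) hv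

end Pool.Agent.TGC
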