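import Pool.Agent.TGC.Core
import Pool.Agent.TGC.Brg

/-!
# TGC-MAIN: Tachikawa's first conjecture for colour commutative graded algebras
-/

set_option autoImplicit false

noncomputable section

universe u v

namespace Pool.Agent.TGC

open CategoryTheory

variable {k A : Type u} {Γ : Type v} [Field k] [AddCommGroup Γ] [Ring A] [Algebra k A]

theorem main_tc [Module.Finite k A] [DecidableEq Γ] (h2 : (2 : k) ≠ 0)
    (𝒜 : Γ → Submodule k A) [GradedAlgebra 𝒜]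
    (ε : Γ → Γ → k) (hε : ∀ α β γ, ε (α + β) γ = ε α γ * ε β γ)
    (hε' : ∀ α β, ε α β * ε β α = 1) (dg : Γ →+ ℤ) (s : ℕ)
    (h0 : ∀ a ∈ 𝒜 0, ∃ c : k, a = algebraMap k A c)
    (hpos : ∀ γ, γ ≠ 0 → dg γ ≤ 0 → 𝒜 γ = ⊥)
    (hs : ∀ γ, (s : ℤ) < dg γ → 𝒜 γ = ⊥)
    (hcomm : ∀ α β, ∀ a ∈ 𝒜 α, ∀ b ∈ 𝒜 β, a * b = ε α β • (b * a))
    (hv : ∀ I : ModuleCat.{u} A, Module.Finite A I → Module.Injective A I → ∀ i : ℕ, 0 < i →
      i ≤ 3 * s + 2 → Subsingleton (Abelian.Ext.{u} I (ModuleCat.of A A) i)) :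
    Module.Injective A A := by
  by_cases hA : Subsingleton A
  · exact ⟨fun X Y _ _ _ _ f hf g => ⟨0, fun x => Subsingleton.elim _ _⟩⟩
  have hA' : Nontrivial A := not_subsingleton_iff_nontrivial.mp hA
  obtain ⟨C, hC, hp⟩ := exists_CA 𝒜 ε hε hε' dg h0 hpos hcomm
  obtain ⟨c, hc0, ⟨a, ha⟩, hc⟩ := exists_top C
  obtain ⟨s', hs'⟩ : ∃ s' : ℕ, C.dg c = s' := ⟨(C.dg c).toNat, by omega⟩
  have hle : s' ≤ s := by
    by_contra hn
    have h1 := hp c a
    rw [hs c (by rw [← hC, hs']; omega)] at h1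
    exact ha ((Submodule.mem_bot k).mp h1)
  refine core_alg C h2 c s' hs' (fun γ a h => hc γ a (by rw [hs']; exact h)) (fun i hi hi' => ?_)
  have h3 : Module.Finite A (Da k A) := Module.Finite.of_restrictScalars_finite k A (Da k A)
  exact hv (ModuleCat.of A (Da k A)) h3 da_inj i hi (by omega)

end Pool.Agent.TGC
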