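import Pool.Agent.TGC.Gen
import Pool.Agent.TGC.CoreB
import Pool.Agent.TGC.BrgH

/-!
# TGC-MAIN2: the theorem in any characteristic
-/

set_option autoImplicit false

noncomputable section

universe u v w

namespace Pool.Agent.TGC

open CategoryTheory Polynomial

variable {k A : Type u} {Γ : Type v} [Field k] [AddCommGroup Γ] [Ring A] [Algebra k A]

theorem main_any [Module.Finite k A] [DecidableEq Γ]
    (𝒜 : Γ → Submodule k A) [GradedAlgebra 𝒜]
    (ε : Γ → Γ → k) (hε : ∀ α β γ, ε (α + β) γ = ε α γ * ε β γ)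
    (hε' : ∀ α β, ε α β * ε β α = 1) (dg : Γ →+ ℤ) (s : ℕ)
    (h0 : ∀ a ∈ 𝒜 0, ∃ c : k, a = algebraMap k A c)
    (hpos : ∀ γ, γ ≠ 0 → dg γ ≤ 0 → 𝒜 γ = ⊥)
    (hs : ∀ γ, (s : ℤ) < dg γ → 𝒜 γ = ⊥)
    (hcomm : ∀ α β, ∀ a ∈ 𝒜 α, ∀ b ∈ 𝒜 β, a * b = ε α β • (b * a)) (H : ℕ → ℕ)
    (hH : ∀ n : ℕ, H n = Module.finrank k (⨆ (γ : Γ) (_ : dg γ = n), 𝒜 γ : Submodule k A))
    (hor : (2 : k) ≠ 0 ∨ s ≤ 8 ∨
      Squarefree (∑ n ∈ Finset.range (s + 1), (H n : ℤ[X]) * X ^ n) ∨ ∀ n ≤ s, H n = H (s - n))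
    (hv : ∀ I : ModuleCat.{u} A, Module.Finite A I → Module.Injective A I → ∀ i : ℕ, 0 < i →
      i ≤ 3 * s + 2 → Subsingleton (Abelian.Ext.{u} I (ModuleCat.of A A) i)) :
    Module.Injective A A := by
  rcases hor with h2 | hor
  · exact main_tc h2 𝒜 ε hε hε' dg s h0 hpos hs hcomm hv
  by_cases hA : Subsingleton A
  · exact ⟨fun X Y _ _ _ _ f hf g => ⟨0, fun x => Subsingleton.elim _ _⟩⟩
  have hA' : Nontrivial A := not_subsingleton_iff_nontrivial.mp hA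
  obtain ⟨C, hC, hpp⟩ := exists_CA 𝒜 ε hε hε' dg h0 hpos hcomm
  obtain ⟨c, hc0, ⟨a, ha⟩, hc⟩ := exists_top C
  obtain ⟨s', hs'⟩ : ∃ s' : ℕ, C.dg c = s' := ⟨(C.dg c).toNat, by omega⟩
  have hle : s' ≤ s := by
    by_contra hn
    have h1 := hpp c a
    rw [hs c (by rw [← hC, hs']; omega)] at h1
    exact ha ((Submodule.mem_bot k).mp h1)
  have hcs : ∀ γ a, (s' : ℤ) < C.dg γ → C.p γ a = 0 := fun γ a h => hc γ a (by rw [hs']; exact h)
  have hnd : (hp C C.toGr).natDegree = s' := natDegree_H C c s' hs' ⟨a, ha⟩ hcs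
  have hcoef : ∀ n : ℕ, (hp C C.toGr).coeff n = (H n : ℤ) := by
    intro n
    rw [coeff_H 𝒜 C hpp n, hH n, hC]
  have hpoly : ∑ n ∈ Finset.range (s + 1), (H n : ℤ[X]) * X ^ n = hp C C.toGr := by
    ext n
    rw [finsetSum_coeff, hcoef n]
    have h1 : ∀ i ∈ Finset.range (s + 1), ((H i : ℤ[X]) * X ^ i).coeff n =
        if n = i then (H i : ℤ) else 0 := by
      intro i _
      rw [show (H i : ℤ[X]) = Polynomial.C ((H i : ℤ)) by simp, coeff_C_mul_X_pow]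
    rw [Finset.sum_congr rfl h1, Finset.sum_ite_eq]
    split_ifs with h
    · rfl
    · have h2 : s' < n := by
        have : ¬ n < s + 1 := fun h' => h (Finset.mem_range.mpr h')
        omega
      rw [← hcoef n, coeff_eq_zero_of_natDegree_lt (by rw [hnd]; exact h2)]
  have h0' : (hp C C.toGr).coeff 0 = 1 := coeff_zero_A C
  refine core_any C c s' hs' hcs (Or.inr hnd) ?_ (fun i hi hi' => ?_)
  · rcases hor with h | h | h
    · exact Or.inl (by omega)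
    · rw [hpoly] at h
      exact Or.inr (Or.inl h)
    · have h3 : H s = 1 := by
        have h4 := h 0 (Nat.zero_le s)
        have h5 := hcoef 0
        rw [h0'] at h5
        rw [Nat.sub_zero] at h4
        omega
      have h4 : s' = s := by
        by_contra hne
        have h5 := hcoef s
        rw [coeff_eq_zero_of_natDegree_lt (by rw [hnd]; omega), h3] at h5
        norm_num at h5
      subst h4
      refine Or.inr (Or.inr ?_)
      ext n
      rw [coeff_reflect]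
      by_cases hn : n ≤ s'
      · rw [revAt_le hn, hcoef, hcoef, ← h n hn]
      · rw [revAt_eq_self_of_lt (by omega)]
  · have h3 : Module.Finite A (Da k A) := Module.Finite.of_restrictScalars_finite k A (Da k A)
    exact hv (ModuleCat.of A (Da k A)) h3 da_inj i hi (by omega)

theorem main_gen_any [Module.Finite k A] [DecidableEq Γ]
    (𝒜 : Γ → Submodule k A) [GradedAlgebra 𝒜]
    (ε : Γ → Γ → k) (hε : ∀ α β γ, ε (α + β) γ = ε α γ * ε β γ)
    (hε' : ∀ α β, ε α β * ε β α = 1) (dg : Γ →+ ℤ) {ι : Type w} (x : ι → A) (g : ι → Γ)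
    (hx : ∀ i, x i ∈ 𝒜 (g i)) (hd : ∀ i, 0 < dg (g i))
    (hgen : Algebra.adjoin k (Set.range x) = ⊤)
    (hcomm : ∀ i j, x i * x j = ε (g i) (g j) • (x j * x i)) (s : ℕ)
    (hs : ∀ γ, (s : ℤ) < dg γ → 𝒜 γ = ⊥) (H : ℕ → ℕ)
    (hH : ∀ n : ℕ, H n = Module.finrank k (⨆ (γ : Γ) (_ : dg γ = n), 𝒜 γ : Submodule k A))
    (hor : (2 : k) ≠ 0 ∨ s ≤ 8 ∨
      Squarefree (∑ n ∈ Finset.range (s + 1), (H n : ℤ[X]) * X ^ n) ∨ ∀ n ≤ s, H n = H (s - n))
    (hv : ∀ I : ModuleCat.{u} A, Module.Finite A I → Module.Injective A I → ∀ i : ℕ, 0 < i →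
      i ≤ 3 * s + 2 → Subsingleton (Abelian.Ext.{u} I (ModuleCat.of A A) i)) :
    Module.Injective A A :=
  main_any 𝒜 ε hε hε' dg s (gen_zero 𝒜 x g hx hgen dg hd) (gen_pos 𝒜 x g hx hgen dg hd) hs
    (gen_comm 𝒜 x g hx hgen ε hε hε' hcomm) H hH hor hv

end Pool.Agent.TGC
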