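import Pool.Agent.TGC.SFrB

/-!
# TGC-POL: the two identities for free modules

PLAN.  Adapt `Pool/Agent/TG/Pol.lean`.  By `hp_sy_fr` for `e = 1` and `e = -1`.
The sum over `q.1 < q.2 ∨ (q.1 = q.2 ∧ ε = e)` is the sum over `q.1 < q.2` plus the sum over the
`t` with `ε(d t, d t) = e` of `C.w (d t) ^ 2`.  As `ε(d t, d t) = 1` or `-1` (`C.sq`) and
`1 ≠ -1`, the two diagonal sums add up to `∑ t, C.w (d t) ^ 2`, and their difference is
`∑ t, C.w' (d t)` (`CA.w'`, `C.sg_one`, `C.sg_ne`, `C.w (d t) ^ 2 = X ^ (2 * _)`).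
-/

set_option autoImplicit false

noncomputable section

universe u v

namespace Pool.Agent.TGC

open Polynomial

variable {k A : Type u} {Γ : Type v} [Field k] [AddCommGroup Γ] [Ring A] [Algebra k A]
  {C : CA k Γ A}

private theorem pol_one_ne (h2 : (2 : k) ≠ 0) : (1 : k) ≠ -1 :=
  fun h => h2 (by linear_combination h)

private theorem pol_split {r : ℕ} (f : Fin r × Fin r → ℤ[X]) (P : Fin r × Fin r → Prop)
    (Q : Fin r → Prop) [DecidablePred P] [DecidablePred Q]
    (h : ∀ q, P q ↔ (q.1 < q.2 ∨ (q.1 = q.2 ∧ Q q.1))) :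
    ∑ q ∈ (Finset.univ : Finset (Fin r × Fin r)).filter P, f q =
      ∑ q ∈ (Finset.univ : Finset (Fin r × Fin r)).filter (fun q => q.1 < q.2), f q +
        ∑ t, if Q t then f (t, t) else 0 := by
  have e1 : ∀ q : Fin r × Fin r, (if P q then f q else 0) =
      (if q.1 < q.2 then f q else 0) +
        (if q.1 = q.2 then (if Q q.1 then f (q.1, q.1) else 0) else 0) := by
    rintro ⟨i, j⟩
    rcases lt_trichotomy i j with hij | hij | hij
    · simp [h, hij, hij.ne]
    · subst hij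
      simp [h]
    · simp [h, not_lt.mpr hij.le, hij.ne']
  rw [Finset.sum_filter, Finset.sum_filter, Finset.sum_congr rfl (fun q _ => e1 q),
    Finset.sum_add_distrib]
  refine congrArg₂ (· + ·) rfl ?_
  rw [Fintype.sum_prod_type]
  refine Finset.sum_congr rfl (fun i _ => ?_)
  rw [Finset.sum_ite_eq Finset.univ i (fun _ => if Q i then f (i, i) else 0),
    if_pos (Finset.mem_univ _)]

private theorem pol_sq {r : ℕ} (w : Fin r → ℤ[X]) :
    ∑ q ∈ (Finset.univ : Finset (Fin r × Fin r)).filter (fun q => q.1 < q.2), w q.1 * w q.2 +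
      ∑ q ∈ (Finset.univ : Finset (Fin r × Fin r)).filter (fun q => q.1 < q.2), w q.1 * w q.2 +
        ∑ t, w t * w t = (∑ t, w t) ^ 2 := by
  have e1 : ∑ q : Fin r × Fin r, w q.1 * w q.2 = (∑ t, w t) ^ 2 := by
    rw [sq, Finset.sum_mul_sum, Fintype.sum_prod_type]
  have e2 : ∑ q ∈ (Finset.univ : Finset (Fin r × Fin r)).filter (fun q => q.1 < q.2),
        w q.1 * w q.2 =
      ∑ q ∈ (Finset.univ : Finset (Fin r × Fin r)).filter (fun q => ¬ q.1 ≤ q.2),
        w q.1 * w q.2 := by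
    refine Finset.sum_equiv (Equiv.prodComm _ _) ?_ ?_
    · rintro ⟨i, j⟩
      simp
    · rintro ⟨i, j⟩ _
      simp only [Equiv.prodComm_apply, Prod.swap_prod_mk]
      rw [mul_comm]
  have e3 := pol_split (fun q : Fin r × Fin r => w q.1 * w q.2) (fun q => q.1 ≤ q.2)
    (fun _ => True) (fun q => by rw [and_true, le_iff_lt_or_eq])
  simp only [if_true] at e3
  rw [← e1, ← Finset.sum_filter_add_sum_filter_not Finset.univ
    (fun q : Fin r × Fin r => q.1 ≤ q.2), e3, ← e2]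
  ring

private theorem pol_diag_add (h2 : (2 : k) ≠ 0) {r : ℕ} (d : Fin r → Γ)
    [DecidablePred (fun t => C.ε (d t) (d t) = 1)] [DecidablePred (fun t => C.ε (d t) (d t) = -1)] :
    (∑ t, if C.ε (d t) (d t) = 1 then C.w (d t) * C.w (d t) else 0) +
      (∑ t, if C.ε (d t) (d t) = -1 then C.w (d t) * C.w (d t) else 0) =
        ∑ t, C.w (d t) * C.w (d t) := by
  rw [← Finset.sum_add_distrib]
  refine Finset.sum_congr rfl (fun t _ => ?_)
  rcases C.sq (d t) with h | h
  · rw [if_pos h, if_neg (by rw [h]; exact pol_one_ne h2), add_zero]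
  · rw [if_neg (by rw [h]; exact (pol_one_ne h2).symm), if_pos h, zero_add]

private theorem pol_diag_sub (h2 : (2 : k) ≠ 0) {r : ℕ} (d : Fin r → Γ)
    [DecidablePred (fun t => C.ε (d t) (d t) = 1)] [DecidablePred (fun t => C.ε (d t) (d t) = -1)] :
    (∑ t, if C.ε (d t) (d t) = 1 then C.w (d t) * C.w (d t) else 0) -
      (∑ t, if C.ε (d t) (d t) = -1 then C.w (d t) * C.w (d t) else 0) =
        ∑ t, C.w' (d t) := by
  rw [← Finset.sum_sub_distrib]
  refine Finset.sum_congr rfl (fun t _ => ?_)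
  have e1 : C.w (d t) * C.w (d t) = X ^ (2 * (C.dg (d t)).toNat) := by
    unfold CA.w
    rw [← pow_add, two_mul]
  rcases C.sq (d t) with h | h
  · rw [if_pos h, if_neg (by rw [h]; exact pol_one_ne h2), sub_zero, e1]
    unfold CA.w'
    rw [C.sg_one h, Int.cast_one, one_mul]
  · have h3 : C.ε (d t) (d t) ≠ 1 := by rw [h]; exact (pol_one_ne h2).symm
    rw [if_neg h3, if_pos h, zero_sub, e1]
    unfold CA.w'
    rw [C.sg_ne h3, Int.cast_neg, Int.cast_one, neg_one_mul]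

theorem sy_fr_add [Module.Finite k A] (h2 : (2 : k) ≠ 0) {r : ℕ} (d : Fin r → Γ)
    (hd : ∀ t, 0 ≤ C.dg (d t)) :
    (frM C d).s 1 + (frM C d).s (-1) = hp C C.toGr * (∑ t, C.w (d t)) ^ 2 := by
  classical
  unfold GM.s
  rw [hp_sy_fr h2 d hd 1 (one_mul 1), hp_sy_fr h2 d hd (-1) (by ring),
    pol_split _ _ (fun t => C.ε (d t) (d t) = 1) (fun q => Iff.rfl),
    pol_split _ _ (fun t => C.ε (d t) (d t) = -1) (fun q => Iff.rfl), ← pol_sq,
    ← pol_diag_add h2 d]
  ring

theorem sy_fr_sub [Module.Finite k A] (h2 : (2 : k) ≠ 0) {r : ℕ} (d : Fin r → Γ)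
    (hd : ∀ t, 0 ≤ C.dg (d t)) :
    (frM C d).s 1 - (frM C d).s (-1) = hp C C.toGr * ∑ t, C.w' (d t) := by
  classical
  unfold GM.s
  rw [hp_sy_fr h2 d hd 1 (one_mul 1), hp_sy_fr h2 d hd (-1) (by ring),
    pol_split _ _ (fun t => C.ε (d t) (d t) = 1) (fun q => Iff.rfl),
    pol_split _ _ (fun t => C.ε (d t) (d t) = -1) (fun q => Iff.rfl),
    ← pol_diag_sub h2 d]
  ring

end Pool.Agent.TGC
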