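import Pool.Agent.TGC.Step

/-!
# TGC-REC: the defects vanish

PLAN.  Adapt `Pool/Agent/TG/Rec.lean` and `Pool/Agent/TG/RecS.lean`.  `low_dvd`: if all degrees
of `M` are `≥ m` then all degrees of `syG M e` are `≥ 2 m` (`syG_p`, `bilp_apply`: for
`α + β = δ`, `deg δ < 2 m`, one of `deg α`, `deg β` is `< m`), so `X ^ (2 m)` divides `M.s e`
(`hp_dvd`), and `hp C M.H ^ 2` and `hq C M.H` (`hq_dvd`).
`defects_zero`: first `M.bb = 0` (degree at most `2 t + s`, divisible by
`X ^ (2 (t + s / 2 + 1))`), then the degree of `M.s 1 + M.s (-1)` is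
`2 deg (hp M) - deg (hp A)`, `hq_deg_hp` for `A` and for `M`.
-/

set_option autoImplicit false

noncomputable section

universe u v

namespace Pool.Agent.TGC

open Polynomial
open Pool.Agent.TG (Du BF ev bcomp ev_zero_left ev_zero_right)

variable {k A : Type u} {Γ : Type v} [Field k] [AddCommGroup Γ] [Ring A] [Algebra k A]
  {C : CA k Γ A}

private theorem rec_syG_zero (M : GM C) (e : k) (δ : Γ)
    (h : ∀ α, (∀ x, M.H.p α x = 0) ∨ ∀ x, M.H.p (δ - α) x = 0)
    (B : Sy M e) : (syG M e).p δ B = 0 := by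
  refine Subtype.ext ?_
  rw [syG_p]
  refine BF.ext (fun v w => ?_)
  rw [bilp_apply]
  have hz : ev ((0 : Sy M e) : BF k M.X M.X) v w = 0 := rfl
  rw [hz]
  refine Finset.sum_eq_zero (fun α _ => ?_)
  rcases h α with h1 | h1
  · rw [h1, ev_zero_left]
  · rw [h1, ev_zero_right]

theorem low_dvd (M : GM C) (m : ℕ) (hl : M.low m) :
    X ^ (2 * m) ∣ M.tt ∧ X ^ (2 * m) ∣ M.bb := by
  have hs : ∀ e : k, X ^ (2 * m) ∣ M.s e := by
    intro e
    refine hp_dvd C (syG M e) (2 * m) (fun δ B hδ => ?_)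
    refine rec_syG_zero M e δ (fun α => ?_) B
    by_cases h : C.dg α < m
    · exact Or.inl (fun x => hl α x h)
    · refine Or.inr (fun x => hl (δ - α) x ?_)
      rw [map_sub]
      push_cast at hδ
      omega
  have hv : X ^ m ∣ hp C M.H := hp_dvd C M.H m hl
  have hv2 : X ^ (2 * m) ∣ hp C M.H ^ 2 := by
    have := pow_dvd_pow_of_dvd hv 2
    rwa [← pow_mul, mul_comm m 2] at this
  have hve : X ^ (2 * m) ∣ hq C M.H := hq_dvd C M.H m hl
  constructor
  · unfold GM.tt
    exact dvd_sub ((dvd_sub (hs 1) (hs (-1))).mul_right _) (hve.mul_left _)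
  · unfold GM.bb
    exact dvd_sub ((dvd_add (hs 1) (hs (-1))).mul_right _) hv2

theorem rec_dvd [Module.Finite k A] (h2 : (2 : k) ≠ 0) (n : ℕ) :
    ∀ (M : GM C) (m : ℕ), M.low m → Van M (2 * n) →
      X ^ (2 * (m + n)) ∣ M.tt ∧ X ^ (2 * (m + n)) ∣ M.bb := by
  induction n with
  | zero =>
    intro M m hl _
    exact low_dvd M m hl
  | succ n ih =>
    intro M m hl hv
    obtain ⟨N, h1, h3, h4, h5⟩ := step h2 M m (2 * n) hl hv
    obtain ⟨h6, h7⟩ := ih N (m + 1) h1 h3
    have e : 2 * (m + (n + 1)) = 2 * (m + 1 + n) := by omega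
    rw [e, h4, h5]
    exact ⟨(dvd_neg).mpr h6, h7⟩

theorem defects_zero [Module.Finite k A] (h2 : (2 : k) ≠ 0) (M : GM C) (s t : ℕ)
    (hs : ∀ γ a, (s : ℤ) < C.dg γ → C.p γ a = 0) (hl : M.low 0) (ht : M.up t)
    (hv : Van M (2 * t + s + 2)) : M.tt = 0 ∧ M.bb = 0 := by
  have hd := rec_dvd h2 (t + s / 2 + 1) M 0 hl (fun i h1 hi => hv i h1 (by omega))
  have hh : (hp C C.toGr).natDegree ≤ s := hp_deg C C.toGr s hs
  have hvd : (hp C M.H).natDegree ≤ t := hp_deg C M.H t ht
  have hs1 : ∀ e : k, (M.s e).natDegree ≤ 2 * t := by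
    intro e
    refine hp_deg C (syG M e) (2 * t) (fun δ B hδ => ?_)
    refine rec_syG_zero M e δ (fun α => ?_) B
    by_cases h : (t : ℤ) < C.dg α
    · exact Or.inl (fun x => ht α x h)
    · refine Or.inr (fun x => ht (δ - α) x ?_)
      rw [map_sub]
      push_cast at hδ
      omega
  have key : ∀ p : ℤ[X], X ^ (2 * (0 + (t + s / 2 + 1))) ∣ p → p.natDegree ≤ 2 * t + s →
      p = 0 := by
    intro p hp1 hp2
    refine eq_zero_of_dvd_of_natDegree_lt hp1 ?_
    rw [natDegree_X_pow]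
    omega
  have hbb : M.bb = 0 := by
    refine key _ hd.2 ?_
    unfold GM.bb
    refine (natDegree_sub_le _ _).trans (max_le ?_ ?_)
    · have h3 := natDegree_mul_le_of_le
        (natDegree_add_le_of_le (hs1 1) (hs1 (-1))) hh
      rw [max_self] at h3
      omega
    · have h3 := natDegree_pow_le_of_le 2 hvd
      omega
  refine ⟨?_, hbb⟩
  have hnn : ∀ (e : k) (n : ℕ), 0 ≤ (M.s e).coeff n := fun e n => hp_nonneg C (syG M e) n
  by_cases hz : hp C C.toGr = 0
  · have h3 : (Module.finrank k A : ℤ) = 0 := by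
      rw [← hp_eval C C.toGr, hz, eval_zero]
    have h4 : Module.finrank k A = 0 := by exact_mod_cast h3
    have hA : Subsingleton A := Module.finrank_zero_iff.mp h4
    have h5 : hq C C.toGr = 0 := by
      unfold hq hw
      refine Finset.sum_eq_zero (fun γ _ => ?_)
      rw [dm_zero C.toGr (fun v => Subsingleton.elim _ _), Nat.cast_zero, zero_mul]
    unfold GM.tt
    rw [hz, h5, mul_zero, zero_mul, sub_zero]
  have e1 : (M.s 1 + M.s (-1)) * hp C C.toGr = hp C M.H ^ 2 := by
    unfold GM.bb at hbb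
    exact sub_eq_zero.mp hbb
  -- degree of the difference
  have hdeg : (M.s 1 - M.s (-1)).natDegree ≤ (M.s 1 + M.s (-1)).natDegree := by
    rw [natDegree_le_iff_coeff_eq_zero]
    intro N hN
    have h3 : (M.s 1 + M.s (-1)).coeff N = 0 := coeff_eq_zero_of_natDegree_lt hN
    rw [coeff_add] at h3
    have h4 := hnn 1 N
    have h5 := hnn (-1) N
    rw [coeff_sub]
    omega
  have hsum : (M.s 1 + M.s (-1)).natDegree + 2 * (hp C C.toGr).natDegree ≤ 2 * t + s ∨
      M.s 1 - M.s (-1) = 0 := by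
    by_cases hP : M.s 1 + M.s (-1) = 0
    · right
      ext N
      have h3 : (M.s 1 + M.s (-1)).coeff N = 0 := by rw [hP, coeff_zero]
      rw [coeff_add] at h3
      have h4 := hnn 1 N
      have h5 := hnn (-1) N
      rw [coeff_sub, coeff_zero]
      omega
    · left
      have h3 := congrArg natDegree e1
      rw [natDegree_mul hP hz, natDegree_pow] at h3
      omega
  have hqA := hq_deg_hp C C.toGr
  have hqM := hq_deg_hp C M.H
  refine key _ hd.1 ?_
  unfold GM.tt
  refine (natDegree_sub_le _ _).trans (max_le ?_ ?_)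
  · rcases hsum with h3 | h3
    · refine (natDegree_mul_le).trans ?_
      omega
    · rw [h3, zero_mul, natDegree_zero]
      exact Nat.zero_le _
  · refine (natDegree_mul_le).trans ?_
    omega

end Pool.Agent.TGC
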