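import Pool.Agent.TGC.Free

/-!
# TGC-SFRA: forms on `A^r`

PLAN.  `F = frM C d`.  `bil_sgl`: `B(a e_s, b e_t) = B(a • e_s, b e_t) = B(e_s, R_a (b e_t))`,
`sgl_smul`, `sgl_R`.
`sy_swap`: for `a ∈ A_α`: `e B(e_s, a e_t) = (fl B)(e_s, a e_t) = ε(α + d t, d s) B(a e_t, e_s)`
(`fl_hom`, `sgl_in`), and `B(a e_t, e_s) = B(e_t, R_a e_s) = ε(d s, α) B(e_t, a e_s)`; multiply
by `e`; then `Gr.ind` for `a`.
`sy_ext`: `bil_sgl`, `sgl_sum`.
`sy_exists`: `B(v, w) = ∑ s t, Φ s t (w t * C.tw (-d t) (v s))`.  Balanced: `frM_R`,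
`(w t * tw a) * tw (v s) = w t * tw (a * v s)` (`C.tw_mul`).  `fl B = e B`: `bf_ext`; it is
enough to check it on `a e_s`, `b e_t` with `a ∈ A_α`, `b ∈ A_β` (for `v ∈ F_γ` the
coordinates `v s` are homogeneous, `frM_in`, and `sgl_sum`); there
`(fl B)(a e_s, b e_t) = ε(β + d t, α + d s) B(b e_t, a e_s)
= ε(β + d t, α + d s) ε(β, -d s) Φ t s (a b)` and
`B(a e_s, b e_t) = ε(α, -d t) Φ s t (b a)`, with `C.comm`, `C.ε_add`, `C.ε_add'`, `C.ε_neg'`,
`C.ε_symm`, `h t s`.
-/

set_option autoImplicit false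

noncomputable section

universe u v

namespace Pool.Agent.TGC

open Polynomial
open Pool.Agent.TG (Du BF ev bcomp ev_bcomp ev_add ev_smul ev_sub ev_zero_left ev_zero_right
  ev_add_left ev_add_right ev_smul_left ev_smul_right ev_sum_left ev_sum_right ev_sum)

variable {k A : Type u} {Γ : Type v} [Field k] [AddCommGroup Γ] [Ring A] [Algebra k A]
  {C : CA k Γ A}

variable [Module.Finite k A] {r : ℕ} (d : Fin r → Γ)

theorem bil_sgl {B : BF k (frM C d).X (frM C d).X} (hB : B ∈ Bil (frM C d) (frM C d))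
    (s t : Fin r) (a b : A) : ev B (sgl C d s a) (sgl C d t b) =
      ev B (sgl C d s 1) (sgl C d t (b * C.tw (-d t) a)) := by
  have h1 : sgl C d s a = a • sgl C d s 1 := by rw [sgl_smul, mul_one]
  rw [h1, hB a (sgl C d s 1) (sgl C d t b), sgl_R]

theorem sy_ext {e : k} {B : BF k (frM C d).X (frM C d).X} (hB : B ∈ Sy (frM C d) e)
    (h : ∀ (s t : Fin r) (a : A), ev B (sgl C d s 1) (sgl C d t a) = 0) : B = 0 := by
  refine BF.ext (fun v w => ?_)
  have hv : v = ∑ s, sgl C d s (v s) := (sgl_sum C d v).symm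
  have hw : w = ∑ t, sgl C d t (w t) := (sgl_sum C d w).symm
  rw [hv, hw, ev_sum_left]
  refine (Finset.sum_eq_zero (fun s _ => ?_)).trans rfl
  rw [ev_sum_right]
  refine Finset.sum_eq_zero (fun t _ => ?_)
  rw [bil_sgl d hB.1]
  exact h s t _

theorem sy_swap {e : k} (he : e * e = 1) {B : BF k (frM C d).X (frM C d).X}
    (hB : B ∈ Sy (frM C d) e) (s t : Fin r) (a : A) :
    ev B (sgl C d s 1) (sgl C d t a) =
      e * C.ε (d t) (d s) * ev B (sgl C d t 1) (sgl C d s a) := by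
  refine C.toGr.ind (P := fun a => ev B (sgl C d s 1) (sgl C d t a) =
    e * C.ε (d t) (d s) * ev B (sgl C d t 1) (sgl C d s a)) ?_ ?_ ?_ a
  · rw [map_zero, map_zero, ev_zero_right, ev_zero_right, mul_zero]
  · intro x y hx hy
    rw [map_add, map_add, ev_add_right, ev_add_right, hx, hy, mul_add]
  · intro α x hx
    have h1 : e * ev B (sgl C d s 1) (sgl C d t x) =
        C.ε (α + d t) (d s) * ev B (sgl C d t x) (sgl C d s 1) := by
      rw [← fl_hom (frM C d) (frM C d) B (sgl_one_in C d s) (sgl_in C d hx t), hB.2, ev_smul]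
    have h2 : ev B (sgl C d t x) (sgl C d s 1) =
        C.ε (d s) α * ev B (sgl C d t 1) (sgl C d s x) := by
      rw [bil_sgl d hB.1, one_mul, C.tw_hom _ hx, C.ε_neg', sgl_ksmul, ev_smul_right]
    rw [h2, C.ε_add] at h1
    linear_combination e * h1 - ev B (sgl C d s 1) (sgl C d t x) * he +
      e * C.ε (d t) (d s) * ev B (sgl C d t 1) (sgl C d s x) * C.ε_symm α (d s)

theorem sy_exists {e : k} (he : e * e = 1) (Φ : Fin r → Fin r → Du k A)
    (h : ∀ s t, Φ s t = (e * C.ε (d t) (d s)) • Φ t s) :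
    ∃ B ∈ Sy (frM C d) e, ∀ (s t : Fin r) (a : A),
      ev B (sgl C d s 1) (sgl C d t a) = Du.fn (Φ s t) a := by
  obtain ⟨B, hBd⟩ : ∃ B : BF k (frM C d).X (frM C d).X, ∀ v w, ev B v w =
      ∑ s, ∑ t, Du.fn (Φ s t) (w t * C.tw (-d t) (v s)) := by
    refine ⟨BF.mk (fun v w => ∑ s, ∑ t, Du.fn (Φ s t) (w t * C.tw (-d t) (v s)))
      ?_ ?_ ?_ ?_, fun v w => rfl⟩
    · intro v v' w
      simp only [Pi.add_apply, map_add, mul_add, Finset.sum_add_distrib]
    · intro c v w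
      simp only [Pi.smul_apply, map_smul, mul_smul_comm, smul_eq_mul, Finset.mul_sum]
    · intro v w w'
      simp only [Pi.add_apply, map_add, add_mul, Finset.sum_add_distrib]
    · intro c v w
      simp only [Pi.smul_apply, map_smul, smul_mul_assoc, smul_eq_mul, Finset.mul_sum]
  refine ⟨B, ⟨?_, ?_⟩, ?_⟩
  · intro a v w
    rw [hBd, hBd]
    refine Finset.sum_congr rfl (fun s _ => Finset.sum_congr rfl (fun t _ => ?_))
    rw [frM_R]
    congr 1
    rw [mul_assoc, ← C.tw_mul]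
    rfl
  · refine bf_ext (frM C d).H (frM C d).H (fun α β v w hv hw => ?_)
    rw [fl_hom (frM C d) (frM C d) B hv hw, ev_smul, hBd, hBd, Finset.sum_comm, Finset.mul_sum,
      Finset.mul_sum]
    refine Finset.sum_congr rfl (fun s _ => ?_)
    rw [Finset.mul_sum, Finset.mul_sum]
    refine Finset.sum_congr rfl (fun t _ => ?_)
    have hvs : C.toGr.In (α - d s) (v s) := frM_in C d hv s
    have hwt : C.toGr.In (β - d t) (w t) := frM_in C d hw t
    rw [C.tw_hom _ hwt, C.tw_hom _ hvs, mul_smul_comm, mul_smul_comm,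
      C.comm _ _ _ _ hvs hwt, h s t, Du.fn_smul, map_smul, map_smul, map_smul, smul_eq_mul,
      smul_eq_mul, smul_eq_mul]
    rw [sub_eq_add_neg, sub_eq_add_neg]
    simp only [C.ε_add, C.ε_add', C.ε_neg, C.ε_neg']
    linear_combination
      (C.ε (d t) (d s) * C.ε (d t) α * C.ε (d s) (d t) * Du.fn (Φ t s) (w t * v s)) *
        ((C.ε (d s) β * C.ε β (d s)) * C.ε_symm β α + C.ε_symm (d s) β - he)
  · intro s t a
    rw [hBd, Finset.sum_eq_single s, Finset.sum_eq_single t]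
    · rw [sgl_same, sgl_same, C.tw_one, mul_one]
    · intro t' _ ht'
      rw [sgl_ne C d ht', zero_mul, map_zero]
    · intro ht
      exact absurd (Finset.mem_univ _) ht
    · intro s' _ hs'
      refine Finset.sum_eq_zero (fun t' _ => ?_)
      rw [sgl_ne C d hs', map_zero, mul_zero, map_zero]
    · intro hs
      exact absurd (Finset.mem_univ _) hs

end Pool.Agent.TGC
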