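import Pool.Agent.TGC.SFrA
import Pool.Agent.TGC.Hp

/-!
# TGC-SFRB: Hilbert polynomials of the spaces of forms on `A^r`

A form `B` in `S^e(A^r)` is determined by the functionals `a ↦ B(e_s, a e_t)` for the pairs
`(s, t)` with `s < t`, or `s = t` and `ε(d s, d s) = e`, and these can be prescribed.  This gives
the Hilbert polynomial of the space of forms on the graded free module with basis elements of
degrees `d t`.
-/

set_option autoImplicit false

noncomputable section

universe u v

namespace Pool.Agent.TGC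

open Polynomial
open Pool.Agent.TG (Du BF ev bcomp ev_bcomp ev_add ev_smul ev_sub ev_zero_left ev_zero_right
  ev_add_left ev_add_right ev_smul_left ev_smul_right ev_sum_left ev_sum_right ev_sum)

variable {k A : Type u} {Γ : Type v} [Field k] [AddCommGroup Γ] [Ring A] [Algebra k A]
  {C : CA k Γ A}

open Classical in
private theorem bilp_sgl [Module.Finite k A] {r : ℕ} (d : Fin r → Γ) (δ : Γ)
    (B : BF k (frM C d).X (frM C d).X) (s t : Fin r) (a : A) :
    ev (bilp (frM C d).H (frM C d).H δ B) (sgl C d s 1) (sgl C d t a) =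
      ev B (sgl C d s 1) (sgl C d t (C.p (δ - (d s + d t)) a)) := by
  refine C.toGr.ind (P := fun a =>
    ev (bilp (frM C d).H (frM C d).H δ B) (sgl C d s 1) (sgl C d t a) =
      ev B (sgl C d s 1) (sgl C d t (C.p (δ - (d s + d t)) a))) ?_ ?_ ?_ a
  · rw [map_zero, map_zero, map_zero, ev_zero_right, ev_zero_right]
  · intro x y hx hy
    rw [map_add, map_add, map_add, ev_add_right, ev_add_right, hx, hy]
  · intro α x hx
    rw [bilp_hom _ _ δ B (sgl_one_in C d s) (sgl_in C d hx t), hx.ite (δ - (d s + d t))]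
    by_cases h : d s + (α + d t) = δ
    · rw [if_pos h, if_pos (by rw [← h]; abel)]
    · rw [if_neg h, if_neg (fun h' => h (by rw [← h']; abel)), map_zero, ev_zero_right]

private theorem hp_sy_aux [Module.Finite k A] {r : ℕ} (d : Fin r → Γ)
    (hd : ∀ t, 0 ≤ C.dg (d t)) (e : k)
    (P : Fin r × Fin r → Prop) [DecidablePred P]
    (hinj : ∀ B ∈ Sy (frM C d) e,
      (∀ s t, P (s, t) → ∀ a, ev B (sgl C d s 1) (sgl C d t a) = 0) →
      ∀ (s t : Fin r) (a : A), ev B (sgl C d s 1) (sgl C d t a) = 0)
    (hsurj : ∀ φ : Fin r → Fin r → Du k A, ∃ B ∈ Sy (frM C d) e,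
      ∀ s t, P (s, t) → ∀ a, ev B (sgl C d s 1) (sgl C d t a) = Du.fn (φ s t) a) :
    hp C (syG (frM C d) e) = hp C C.toGr *
      ∑ q ∈ (Finset.univ : Finset (Fin r × Fin r)).filter P, C.w (d q.1) * C.w (d q.2) := by
  classical
  let Ψ : Sy (frM C d) e →ₗ[k] (∀ _ : {q : Fin r × Fin r // P q}, Du k A) :=
    { toFun := fun B q => Du.mk
        { toFun := fun a => ev B.1 (sgl C d q.1.1 1) (sgl C d q.1.2 a)
          map_add' := fun a b => by rw [map_add, ev_add_right]
          map_smul' := fun c a => by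
            rw [sgl_ksmul, ev_smul_right]
            rfl }
      map_add' := fun B B' => by
        funext q
        exact Du.ext (fun a => rfl)
      map_smul' := fun c B => by
        funext q
        exact Du.ext (fun a => rfl) }
  have hΨ : ∀ (B : Sy (frM C d) e) (q : {q : Fin r × Fin r // P q}) (a : A),
      Du.fn (Ψ B q) a = ev B.1 (sgl C d q.1.1 1) (sgl C d q.1.2 a) := fun B q a => rfl
  have hinj' : Function.Injective Ψ := by
    rw [← LinearMap.ker_eq_bot, LinearMap.ker_eq_bot']
    intro B hB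
    refine Subtype.ext (sy_ext d B.2 (hinj B.1 B.2 (fun s t hst a => ?_)))
    rw [← hΨ B ⟨(s, t), hst⟩ a, hB]
    rfl
  have hsurj' : Function.Surjective Ψ := by
    intro φ
    obtain ⟨B, hB, hB'⟩ := hsurj (fun s t => if h : P (s, t) then φ ⟨(s, t), h⟩ else 0)
    refine ⟨⟨B, hB⟩, ?_⟩
    funext q
    obtain ⟨⟨s, t⟩, hq⟩ := q
    refine Du.ext (fun a => ?_)
    rw [hΨ]
    refine (hB' s t hq a).trans ?_
    rw [dif_pos hq]
  have hh : Hom0 (syG (frM C d) e)
      (Gr.pi (fun _ : {q : Fin r × Fin r // P q} => C.toGr.dual)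
        (fun q => d q.1.1 + d q.1.2)) (LinearEquiv.ofBijective Ψ ⟨hinj', hsurj'⟩).toLinearMap := by
    intro δ B
    change Ψ _ = (Gr.pi _ _).p δ (Ψ B)
    funext q
    refine Du.ext (fun a => ?_)
    rw [hΨ, syG_p, bilp_sgl, Gr.pi_p, Gr.dual_p, hΨ]
  have h1 : hp C (syG (frM C d) e) = hw C.w (Gr.pi
      (fun _ : {q : Fin r × Fin r // P q} => C.toGr.dual) (fun q => d q.1.1 + d q.1.2)) :=
    hw_iso C.w _ _ _ hh
  rw [h1, hw_pi, Finset.mul_sum,
    Finset.sum_subtype (p := P) ((Finset.univ : Finset (Fin r × Fin r)).filter P)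
      (fun x => by simp)]
  refine Finset.sum_congr rfl (fun q _ => ?_)
  unfold hp hw
  rw [Finset.sum_mul]
  refine Finset.sum_congr rfl (fun γ _ => ?_)
  rw [dm_dual]
  by_cases h0 : dm C.toGr γ = 0
  · rw [h0, Nat.cast_zero, zero_mul, zero_mul, zero_mul]
  · rw [C.w_add (C.dm_nonneg h0) (by rw [map_add]; exact add_nonneg (hd _) (hd _)),
      C.w_add (hd _) (hd _), mul_assoc]

open Classical in
theorem hp_sy_fr [Module.Finite k A] (h2 : (2 : k) ≠ 0) {r : ℕ} (d : Fin r → Γ)
    (hd : ∀ t, 0 ≤ C.dg (d t)) (e : k) (he : e * e = 1) :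
    hp C (syG (frM C d) e) = hp C C.toGr *
      ∑ q ∈ (Finset.univ : Finset (Fin r × Fin r)).filter
        (fun q => q.1 < q.2 ∨ (q.1 = q.2 ∧ C.ε (d q.1) (d q.1) = e)),
        C.w (d q.1) * C.w (d q.2) := by
  refine hp_sy_aux d hd e
    (fun q => q.1 < q.2 ∨ (q.1 = q.2 ∧ C.ε (d q.1) (d q.1) = e)) ?_ ?_
  · intro B hB h s t a
    rcases lt_trichotomy s t with hst | hst | hst
    · exact h s t (Or.inl hst) a
    · subst hst
      by_cases hε : C.ε (d s) (d s) = e
      · exact h s s (Or.inr ⟨rfl, hε⟩) a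
      · have h3 := sy_swap d he hB s s a
        have h5 : e * C.ε (d s) (d s) = -1 := by
          rcases mul_self_eq_one_iff.mp he with h6 | h6 <;>
            rcases C.sq (d s) with h7 | h7
          · exact absurd (h7.trans h6.symm) hε
          · rw [h6, h7, one_mul]
          · rw [h6, h7, mul_one]
          · exact absurd (h7.trans h6.symm) hε
        rw [h5] at h3
        have h4 : (2 : k) * ev B (sgl C d s 1) (sgl C d s a) = 0 := by
          linear_combination h3
        exact (mul_eq_zero.mp h4).resolve_left h2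
    · rw [sy_swap d he hB, h t s (Or.inl hst) a, mul_zero]
  · intro φ
    obtain ⟨B, hB, hB'⟩ := sy_exists d he
      (fun s t => if s < t then φ s t else if t < s then (e * C.ε (d t) (d s)) • φ t s
        else if C.ε (d s) (d s) = e then φ s t else 0) (by
        intro s t
        rcases lt_trichotomy s t with hst | hst | hst
        · simp only [if_pos hst, if_neg hst.not_gt]
          rw [smul_smul]
          have h3 : e * C.ε (d t) (d s) * (e * C.ε (d s) (d t)) = 1 := by
            linear_combination he + e * e * C.ε_symm (d t) (d s)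
          rw [h3, one_smul]
        · subst hst
          simp only [lt_irrefl, if_false]
          split_ifs with h3
          · rw [h3, he, one_smul]
          · rw [smul_zero]
        · simp only [if_pos hst, if_neg hst.not_gt])
    refine ⟨B, hB, fun s t hst a => ?_⟩
    rw [hB' s t a]
    rcases hst with hst | ⟨hst, hε⟩
    · simp only at hst
      rw [if_pos hst]
    · simp only at hst hε
      subst hst
      rw [if_neg (lt_irrefl s), if_neg (lt_irrefl s), if_pos hε]

end Pool.Agent.TGC
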