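import Pool.Agent.TGC.Four
import Pool.Agent.TGC.BFr
import Pool.Agent.TGC.Pol
import Pool.Agent.TGC.Ker
import Pool.Agent.TGC.VData

/-!
# TGC-STEP: one syzygy step
-/

set_option autoImplicit false

noncomputable section

universe u v

namespace Pool.Agent.TGC

open Polynomial

variable {k A : Type u} {Γ : Type v} [Field k] [AddCommGroup Γ] [Ring A] [Algebra k A]
  {C : CA k Γ A}

theorem step [Module.Finite k A] (h2 : (2 : k) ≠ 0) (M : GM C) (m q : ℕ) (hl : M.low m)
    (hv : Van M (q + 2)) :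
    ∃ N : GM C, N.low (m + 1) ∧ Van N q ∧ M.tt = -N.tt ∧ M.bb = N.bb := by
  obtain ⟨r, d, N, i, π, hi, hπ, hex, hgi, hgπ, hlow, hd, hw0⟩ := exists_cover M m hl
  let E : Ex N (frM C d) M :=
    { i := i, π := π, hi := hi, hπ := hπ, hex := hex, gi := hgi, gπ := hgπ }
  have hd0 : ∀ t, 0 ≤ C.dg (d t) := fun t => le_trans (by positivity) (hd t)
  have hv1 : Van M 1 := fun j h1 h1' => hv j h1 (by omega)
  have hv2 : Van M 2 := fun j h1 h1' => hv j h1 (by omega)
  refine ⟨N, hlow, van_next E q hv, ?_⟩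
  have E1 := hp_seq E h2 1 (by ring) (van_LA E hv1) (van_LB E hv2) (van_LC E)
  have E2 := hp_seq E h2 (-1) (by ring) (van_LA E hv1) (van_LB E hv2) (van_LC E)
  rw [neg_neg] at E2
  have hN0 : N.low 0 := fun γ x hγ => hlow γ x (lt_trans hγ (by positivity))
  have E3 := hp_bil_fr N hN0 d hd0
  have hS : ∀ w : Γ → ℤ[X], hw w (frM C d).H = hw w N.H + hw w M.H := fun w =>
    hw_short w N.H (frM C d).H M.H E.ik E.πk E.hi E.hπ
      (by
        ext x
        exact (Submodule.ext_iff.mp E.hex x))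
      E.gik E.gπk
  have E4 : hp C (frM C d).H = hp C N.H + hp C M.H := hS _
  have E5 := hp_fr C d hd0
  have E4' : hq C (frM C d).H = hq C N.H + hq C M.H := hS _
  have E5' := hq_fr C d hd0
  have E6 := sy_fr_add (C := C) h2 d hd0
  have E7 := sy_fr_sub (C := C) h2 d hd0
  have v1 : ∑ t, C.w (d t) = hp C M.H := (hw0 _).symm
  have v2 : ∑ t, C.w' (d t) = hq C M.H := (hw0 _).symm
  rw [v1] at E3 E5 E6
  rw [v2] at E5' E7
  rw [E3] at E1 E2
  have hN : hp C N.H = hp C C.toGr * hp C M.H - hp C M.H := by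
    rw [← E5, E4]
    ring
  have hN' : hq C N.H = hq C C.toGr * hq C M.H - hq C M.H := by
    rw [← E5', E4']
    ring
  constructor
  · unfold GM.tt
    rw [hN']
    linear_combination (E1 - E2) * hq C C.toGr + E7 * hq C C.toGr
  · unfold GM.bb
    rw [hN] at E1 E2 ⊢
    linear_combination (E1 + E2) * hp C C.toGr + E6 * hp C C.toGr

end Pool.Agent.TGC
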