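import Pool.Agent.TGC.Alg

/-!
# TGC: dimensions, Hilbert polynomials, the two defects
-/

set_option autoImplicit false

noncomputable section

universe u v

namespace Pool.Agent.TGC

open Polynomial

section

variable {k V : Type u} {Γ : Type v} [Field k] [AddCommGroup Γ] [AddCommGroup V] [Module k V]

/-- The dimension of the component of degree `γ`. -/
def dm (H : Gr k Γ V) (γ : Γ) : ℕ := Module.finrank k (LinearMap.range (H.p γ))

/-- The sum of the dimensions with weights `w`. -/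
def hw (w : Γ → ℤ[X]) (H : Gr k Γ V) : ℤ[X] := ∑ γ ∈ H.supp, (dm H γ : ℤ[X]) * w γ

theorem dm_zero (H : Gr k Γ V) {γ : Γ} (h : ∀ v, H.p γ v = 0) : dm H γ = 0 := by
  have h1 : H.p γ = 0 := LinearMap.ext h
  rw [dm, h1, LinearMap.range_zero, finrank_bot]

theorem dm_notMem (H : Gr k Γ V) {γ : Γ} (h : γ ∉ H.supp) : dm H γ = 0 :=
  dm_zero H (H.p_notMem h)

theorem hw_eq (w : Γ → ℤ[X]) (H : Gr k Γ V) (T : Finset Γ) (hT : ∀ γ, γ ∉ T → dm H γ = 0) :
    hw w H = ∑ γ ∈ T, (dm H γ : ℤ[X]) * w γ := by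
  classical
  have h1 : ∑ γ ∈ H.supp ∪ T, (dm H γ : ℤ[X]) * w γ = ∑ γ ∈ T, (dm H γ : ℤ[X]) * w γ := by
    symm
    refine Finset.sum_subset Finset.subset_union_right (fun γ _ h => ?_)
    rw [hT γ h, Nat.cast_zero, zero_mul]
  rw [← h1, hw]
  refine Finset.sum_subset Finset.subset_union_left (fun γ _ h => ?_)
  rw [dm_notMem H h, Nat.cast_zero, zero_mul]

end

section

variable {k A V : Type u} {Γ : Type v} [Field k] [AddCommGroup Γ] [Ring A] [Algebra k A]
  [AddCommGroup V] [Module k V]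

/-- the weight `X ^ deg γ` -/
def CA.w (C : CA k Γ A) (γ : Γ) : ℤ[X] := X ^ (C.dg γ).toNat

/-- the weight `± X ^ (2 deg γ)` -/
def CA.w' (C : CA k Γ A) (γ : Γ) : ℤ[X] := (C.sg γ : ℤ[X]) * X ^ (2 * (C.dg γ).toNat)

/-- The Hilbert polynomial. -/
def hp (C : CA k Γ A) (H : Gr k Γ V) : ℤ[X] := hw C.w H

/-- The Hilbert polynomial of the even part minus the one of the odd part, in `X ^ 2`. -/
def hq (C : CA k Γ A) (H : Gr k Γ V) : ℤ[X] := hw C.w' H

theorem CA.w_add (C : CA k Γ A) {α β : Γ} (ha : 0 ≤ C.dg α) (hb : 0 ≤ C.dg β) :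
    C.w (α + β) = C.w α * C.w β := by
  unfold CA.w
  rw [map_add, Int.toNat_add ha hb, pow_add]

theorem CA.w'_add (C : CA k Γ A) {α β : Γ} (ha : 0 ≤ C.dg α) (hb : 0 ≤ C.dg β) :
    C.w' (α + β) = C.w' α * C.w' β := by
  unfold CA.w'
  rw [map_add, Int.toNat_add ha hb, C.sg_add, mul_add, pow_add]
  push_cast
  ring

/-- The degrees of `A` are nonnegative. -/
theorem CA.dm_nonneg (C : CA k Γ A) {γ : Γ} (h : dm C.toGr γ ≠ 0) : 0 ≤ C.dg γ := by
  by_contra hc
  refine h (dm_zero _ (fun a => C.pos γ a ?_ (by omega)))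
  rintro rfl
  rw [map_zero] at hc
  exact hc le_rfl

variable {C : CA k Γ A}

/-- Hilbert polynomial of the space of symmetric (`e = 1`) or antisymmetric (`e = -1`) forms. -/
def GM.s (M : GM C) (e : k) : ℤ[X] := hp C (syG M e)

/-- First defect. -/
def GM.tt (M : GM C) : ℤ[X] := (M.s 1 - M.s (-1)) * hq C C.toGr - hp C C.toGr * hq C M.H

/-- Second defect. -/
def GM.bb (M : GM C) : ℤ[X] := (M.s 1 + M.s (-1)) * hp C C.toGr - hp C M.H ^ 2

end

end Pool.Agent.TGC
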